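import Mathlib

set_option autoImplicit false

/-! Power substitutions of free groups, and the groups `FreeGroup (B × H) ⋊ H`. -/

namespace Pool.Agent.W382.Iso

section pw

variable {T Y : Type}

/-- the substitution `y ↦ (e y) ^ (n y)` -/
def pw (e : T → Y) (n : T → ℕ) : FreeGroup T →* FreeGroup Y :=
  FreeGroup.lift (fun y => FreeGroup.of (e y) ^ n y)

@[simp] theorem pw_of (e : T → Y) (n : T → ℕ) (y : T) :
    pw e n (FreeGroup.of y) = FreeGroup.of (e y) ^ n y := by simp [pw]

/-- the substitution on words -/
def pwl (e : T → Y) (n : T → ℕ) (L : List (T × Bool)) : List (Y × Bool) :=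
  L.flatMap fun x => List.replicate (n x.1) (e x.1, x.2)

theorem mk_replicate (y : Y) (b : Bool) (k : ℕ) :
    FreeGroup.mk (List.replicate k (y, b)) = (FreeGroup.mk [(y, b)]) ^ k := by
  induction k with
  | zero => simp; rfl
  | succ k ih =>
    rw [List.replicate_succ, pow_succ', ← ih, FreeGroup.mul_mk]
    rfl

theorem pw_mk (e : T → Y) (n : T → ℕ) (L : List (T × Bool)) :
    pw e n (FreeGroup.mk L) = FreeGroup.mk (pwl e n L) := by
  induction L with
  | nil => simp only [pwl, List.flatMap_nil]; exact map_one _
  | cons x L ih =>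
    have h1 : FreeGroup.mk (x :: L) = FreeGroup.mk [x] * FreeGroup.mk L := by
      rw [FreeGroup.mul_mk]; rfl
    rw [h1, map_mul, ih]
    simp only [pwl, List.flatMap_cons]
    rw [← FreeGroup.mul_mk, mk_replicate]
    congr 1
    obtain ⟨y, b⟩ := x
    cases b
    · have h2 : (FreeGroup.mk [(y, false)] : FreeGroup T) = (FreeGroup.of y)⁻¹ := by
        simp [FreeGroup.of, FreeGroup.inv_mk, FreeGroup.invRev]
      have h3 : (FreeGroup.mk [(e y, false)] : FreeGroup Y) = (FreeGroup.of (e y))⁻¹ := by
        simp [FreeGroup.of, FreeGroup.inv_mk, FreeGroup.invRev]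
      rw [h2, h3, map_inv, pw_of, inv_pow]
    · exact pw_of e n y

theorem isReduced_replicate (a : Y × Bool) (k : ℕ) : FreeGroup.IsReduced (List.replicate k a) :=
  List.isChain_replicate_of_rel _ (fun _ => rfl)

theorem isReduced_pwl {e : T → Y} {n : T → ℕ} (he : Function.Injective e) (hn : ∀ y, 0 < n y)
    (L : List (T × Bool)) (hL : FreeGroup.IsReduced L) : FreeGroup.IsReduced (pwl e n L) := by
  induction L with
  | nil => exact List.isChain_nil
  | cons x L ih =>
    have h1 : FreeGroup.IsReduced L := hL.tail
    simp only [pwl, List.flatMap_cons]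
    unfold FreeGroup.IsReduced
    rw [List.isChain_append]
    refine ⟨isReduced_replicate _ _, ih h1, ?_⟩
    intro a ha b hb
    have ha' : a = (e x.1, x.2) := by
      have := List.mem_of_mem_getLast? ha
      exact List.eq_of_mem_replicate this
    cases L with
    | nil => simp at hb
    | cons y L =>
      have hb' : b = (e y.1, y.2) := by
        have h2 := hn y.1
        obtain ⟨k, hk⟩ : ∃ k, n y.1 = k + 1 := ⟨n y.1 - 1, by omega⟩
        rw [List.flatMap_cons, hk, List.replicate_succ, List.cons_append, List.head?_cons] at hb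
        simpa using hb.symm
      subst ha' hb'
      intro h
      exact (List.isChain_cons_cons.1 hL).1 (he h)

theorem pw_injective {e : T → Y} {n : T → ℕ} (he : Function.Injective e) (hn : ∀ y, 0 < n y) :
    Function.Injective (pw e n) := by
  classical
  rw [injective_iff_map_eq_one]
  intro w hw
  have h1 : FreeGroup.mk w.toWord = w := FreeGroup.mk_toWord
  rw [← h1, pw_mk] at hw
  have h2 := isReduced_pwl he hn w.toWord FreeGroup.isReduced_toWord
  have h3 : FreeGroup.reduce (pwl e n w.toWord) = [] := by
    have h4 : (FreeGroup.mk (pwl e n w.toWord)).toWord = [] := by rw [hw]; simp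
    rwa [FreeGroup.toWord_mk] at h4
  rw [h2.reduce_eq] at h3
  have h5 : w.toWord = [] := by
    cases hh : w.toWord with
    | nil => rfl
    | cons x L =>
      rw [hh] at h3
      simp only [pwl, List.flatMap_cons, List.append_eq_nil_iff] at h3
      have h6 := hn x.1
      have h7 := congrArg List.length h3.1
      simp at h7
      omega
  rw [← h1, h5]
  rfl

/-- exponent sum of a letter -/
noncomputable def cnt (a : Y) : FreeGroup Y →* Multiplicative ℤ := by
  classical
  exact FreeGroup.lift (fun z => if z = a then Multiplicative.ofAdd 1 else 1)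

theorem cnt_of_self (a : Y) : cnt a (FreeGroup.of a) = Multiplicative.ofAdd 1 := by
  simp [cnt]

theorem cnt_of_ne {a b : Y} (h : b ≠ a) : cnt a (FreeGroup.of b) = 1 := by
  simp [cnt, h]

theorem ofAdd_one_ne : (Multiplicative.ofAdd (1 : ℤ)) ≠ 1 := by
  intro h
  exact one_ne_zero (Multiplicative.ofAdd.injective (h.trans ofAdd_zero.symm))

theorem cnt_map {m : T → Y} {a : Y} (h : ∀ e, m e ≠ a) (w : FreeGroup T) :
    cnt a (FreeGroup.map m w) = 1 := by
  have h1 : (cnt a).comp (FreeGroup.map m) = 1 := by
    ext e
    simp only [MonoidHom.comp_apply, FreeGroup.map.of, MonoidHom.one_apply]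
    rw [cnt_of_ne (h e)]
  exact DFunLike.congr_fun h1 w

theorem cnt_conj (a : Y) (x w : FreeGroup Y) : cnt a (x * w * x⁻¹) = cnt a w := by
  simp

end pw

section bg

/-- the action of `H` on the free group on `B × H` -/
def act (B H : Type) [Group H] : H →* MulAut (FreeGroup (B × H)) where
  toFun v := FreeGroup.freeGroupCongr
    { toFun := fun p => (p.1, p.2 * v⁻¹)
      invFun := fun p => (p.1, p.2 * v)
      left_inv := fun p => by simp
      right_inv := fun p => by simp }
  map_one' := by
    ext x
    simp only [inv_one, mul_one, Prod.mk.eta]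
    exact FreeGroup.map.id x
  map_mul' v w := by
    apply MulEquiv.toMonoidHom_injective
    ext p
    simp [mul_assoc]

/-- the group `FreeGroup (B × H) ⋊ H` -/
abbrev BG (B H : Type) [Group H] : Type := FreeGroup (B × H) ⋊[act B H] H

variable {B H : Type} [Group H]

open SemidirectProduct

theorem act_of (v : H) (b : B) (w : H) :
    act B H v (FreeGroup.of (b, w)) = FreeGroup.of (b, w * v⁻¹) := by
  simp [act]

/-- generators -/
def el (b : B) (w : H) : BG B H := inl (FreeGroup.of (b, w))

theorem inr_conj_el (v : H) (b : B) (w : H) :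
    (inr v : BG B H) * el b w * (inr v)⁻¹ = el b (w * v⁻¹) := by
  unfold el
  rw [← act_of, inl_aut]
  simp

theorem el_eq (b : B) (w : H) : (el b w : BG B H) = (inr w)⁻¹ * el b 1 * inr w := by
  have := inr_conj_el (B := B) w⁻¹ b 1
  rw [map_inv, inv_inv] at this
  rw [this]; simp

/-- homomorphisms out of `BG B H` -/
def bgLift {M : Type} [Group M] (f : H →* M) (x : B → M) : BG B H →* M :=
  SemidirectProduct.lift (FreeGroup.lift fun p => (f p.2)⁻¹ * x p.1 * f p.2) f (by
    intro v
    ext p
    obtain ⟨b, w⟩ := p
    simp [act_of, mul_assoc])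

@[simp] theorem bgLift_el {M : Type} [Group M] (f : H →* M) (x : B → M) (b : B) (w : H) :
    bgLift f x (el b w) = (f w)⁻¹ * x b * f w := by
  simp [bgLift, el]

@[simp] theorem bgLift_inr {M : Type} [Group M] (f : H →* M) (x : B → M) (v : H) :
    bgLift f x (inr v) = f v := by
  simp [bgLift]

theorem bg_hom_ext {M : Type} [Group M] {f g : BG B H →* M}
    (h1 : ∀ b, f (el b 1) = g (el b 1)) (h2 : ∀ v, f (inr v) = g (inr v)) : f = g := by
  refine SemidirectProduct.hom_ext ?_ ?_
  · ext p
    obtain ⟨b, w⟩ := p
    change f (el b w) = g (el b w)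
    rw [el_eq]
    simp only [map_mul, map_inv, h1, h2]
  · ext v
    exact h2 v

variable {B' H' : Type} [Group H']

/-- functoriality -/
def bgMap (σ : B → B') (g : B → H') (ι : H →* H') : BG B H →* BG B' H' :=
  SemidirectProduct.map (FreeGroup.map (fun p => (σ p.1, g p.1 * ι p.2))) ι (by
    intro v
    ext p
    obtain ⟨b, w⟩ := p
    simp [act_of, mul_assoc])

@[simp] theorem bgMap_el (σ : B → B') (g : B → H') (ι : H →* H') (b : B) (w : H) :
    bgMap σ g ι (el b w) = el (σ b) (g b * ι w) := by
  simp [bgMap, el]

@[simp] theorem bgMap_inr (σ : B → B') (g : B → H') (ι : H →* H') (v : H) :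
    bgMap σ g ι (inr v) = inr (ι v) := by
  simp [bgMap]

theorem bgMap_injective {σ : B → B'} {g : B → H'} {ι : H →* H'} (hσ : Function.Injective σ)
    (hι : Function.Injective ι) : Function.Injective (bgMap σ g ι) := by
  have hm : Function.Injective (fun p : B × H => (σ p.1, g p.1 * ι p.2)) := by
    rintro ⟨b, w⟩ ⟨b', w'⟩ h
    have h1 : σ b = σ b' := congrArg Prod.fst h
    have h2 := hσ h1
    subst h2
    have h3 : g b * ι w = g b * ι w' := congrArg Prod.snd h
    rw [hι (mul_left_cancel h3)]
  intro x y h
  have h1 := congrArg SemidirectProduct.left h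
  have h2 := congrArg SemidirectProduct.right h
  simp only [bgMap, SemidirectProduct.map_left, SemidirectProduct.map_right] at h1 h2
  exact SemidirectProduct.ext (FreeGroup.map_injective hm h1) (hι h2)

end bg

end Pool.Agent.W382.Iso
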