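import Mathlib

set_option autoImplicit false

namespace Pool.Agent.W382.Iso

section ext

variable {G K : Type} [Group G] [Group K]

/-- the orbit relation of `K` on countably many copies of `G` -/
def orbS (j : K →* G) : Setoid (G × ℕ) where
  r a b := ∃ k, b = (j k * a.1, a.2)
  iseqv :=
    { refl := fun a => ⟨1, by simp⟩
      symm := by
        rintro a b ⟨k, rfl⟩
        exact ⟨k⁻¹, by simp⟩
      trans := by
        rintro a b c ⟨k, rfl⟩ ⟨l, rfl⟩
        exact ⟨l * k, by simp [mul_assoc]⟩ }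

theorem orbS_rel (j : K →* G) (a b : G × ℕ) :
    (Quotient.mk (orbS j) a = Quotient.mk (orbS j) b) ↔ ∃ k, b = (j k * a.1, a.2) :=
  Quotient.eq (r := orbS j)

instance orb_infinite (j : K →* G) : Infinite (Quotient (orbS j)) := by
  refine Infinite.of_injective (fun n : ℕ => Quotient.mk (orbS j) (1, n)) ?_
  intro a b h
  obtain ⟨k, hk⟩ := (orbS_rel j _ _).1 h
  simpa using (congrArg Prod.snd hk).symm

/-- sections through prescribed points -/
theorem exists_section (j : K →* G) (hj : Function.Injective j) (A : Set (G × ℕ))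
    (hA : ∀ a ∈ A, ∀ b ∈ A, (∃ k, b = (j k * a.1, a.2)) → a = b) :
    ∃ E : Quotient (orbS j) × K ≃ G × ℕ,
      (∀ o k k', E (o, k' * k) = (j k' * (E (o, k)).1, (E (o, k)).2)) ∧
      ∀ a ∈ A, E (Quotient.mk (orbS j) a, 1) = a := by
  classical
  let s : Quotient (orbS j) → G × ℕ := fun o =>
    if h : ∃ a ∈ A, Quotient.mk (orbS j) a = o then h.choose else o.out
  have hs : ∀ o, Quotient.mk (orbS j) (s o) = o := by
    intro o
    by_cases h : ∃ a ∈ A, Quotient.mk (orbS j) a = o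
    · have : s o = h.choose := dif_pos h
      rw [this]
      exact h.choose_spec.2
    · have : s o = o.out := dif_neg h
      rw [this]
      exact Quotient.out_eq o
  have hsA : ∀ a ∈ A, s (Quotient.mk (orbS j) a) = a := by
    intro a ha
    have h : ∃ b ∈ A, Quotient.mk (orbS j) b = Quotient.mk (orbS j) a := ⟨a, ha, rfl⟩
    have h1 : s (Quotient.mk (orbS j) a) = h.choose := dif_pos h
    rw [h1]
    exact hA _ h.choose_spec.1 _ ha ((orbS_rel j _ _).1 h.choose_spec.2)
  let F : Quotient (orbS j) × K → G × ℕ := fun p => (j p.2 * (s p.1).1, (s p.1).2)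
  have hF : Function.Bijective F := by
    constructor
    · rintro ⟨o, k⟩ ⟨o', k'⟩ h
      have h1 : (j k * (s o).1, (s o).2) = (j k' * (s o').1, (s o').2) := h
      have h2 : Quotient.mk (orbS j) (s o) = Quotient.mk (orbS j) (j k * (s o).1, (s o).2) :=
        (orbS_rel j _ _).2 ⟨k, rfl⟩
      have h3 : Quotient.mk (orbS j) (s o') = Quotient.mk (orbS j) (j k' * (s o').1, (s o').2) :=
        (orbS_rel j _ _).2 ⟨k', rfl⟩
      have h4 : o = o' := by
        rw [← hs o, ← hs o', h2, h3, h1]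
      subst h4
      have h5 : j k * (s o).1 = j k' * (s o).1 := congrArg Prod.fst h1
      have h6 : j k = j k' := mul_right_cancel h5
      rw [hj h6]
    · intro a
      have h1 : Quotient.mk (orbS j) (s (Quotient.mk (orbS j) a)) = Quotient.mk (orbS j) a := hs _
      obtain ⟨k, hk⟩ := (orbS_rel j _ _).1 h1
      exact ⟨(Quotient.mk (orbS j) a, k), hk.symm⟩
  refine ⟨Equiv.ofBijective F hF, ?_, ?_⟩
  · intro o k k'
    simp [F, mul_assoc]
  · intro a ha
    simp [F, hsA a ha]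

/-- equivariant permutations with prescribed values -/
theorem exists_equivariant [Countable G] (j j' : K →* G) (hj : Function.Injective j)
    (hj' : Function.Injective j') (C : Set ((G × ℕ) × (G × ℕ))) (hC : C.Finite)
    (h1 : ∀ p ∈ C, ∀ q ∈ C, (∃ k, q.1 = (j k * p.1.1, p.1.2)) → p = q)
    (h2 : ∀ p ∈ C, ∀ q ∈ C, (∃ k, q.2 = (j' k * p.2.1, p.2.2)) → p = q) :
    ∃ τ : Equiv.Perm (G × ℕ),
      (∀ k (ω : G × ℕ), τ (j k * ω.1, ω.2) = (j' k * (τ ω).1, (τ ω).2)) ∧
      ∀ p ∈ C, τ p.1 = p.2 := by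
  classical
  obtain ⟨E, hE1, hE2⟩ := exists_section j hj (Prod.fst '' C) (by
    rintro _ ⟨p, hp, rfl⟩ _ ⟨q, hq, rfl⟩ h
    rw [h1 p hp q hq h])
  obtain ⟨E', hE1', hE2'⟩ := exists_section j' hj' (Prod.snd '' C) (by
    rintro _ ⟨p, hp, rfl⟩ _ ⟨q, hq, rfl⟩ h
    rw [h2 p hp q hq h])
  let s : Set (Quotient (orbS j)) := (fun p => Quotient.mk (orbS j) p.1) '' C
  have hsf : s.Finite := hC.image _
  have hsel : ∀ o : s, ∃ p ∈ C, Quotient.mk (orbS j) p.1 = o.1 := fun o => o.2
  choose ch hch1 hch2 using hsel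
  let f : s → Quotient (orbS j') := fun o => Quotient.mk (orbS j') (ch o).2
  have hf : Function.Injective f := by
    intro a b hab
    have h3 : ch a = ch b := h2 _ (hch1 a) _ (hch1 b) ((orbS_rel j' _ _).1 hab)
    apply Subtype.ext
    rw [← hch2 a, ← hch2 b, h3]
  have hne : Nonempty ((sᶜ : Set (Quotient (orbS j))) ≃
      ((Set.range (⟨f, hf⟩ : s ↪ Quotient (orbS j')))ᶜ : Set (Quotient (orbS j')))) := by
    have hr : (Set.range (⟨f, hf⟩ : s ↪ Quotient (orbS j'))).Finite := by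
      have : Finite s := hsf
      exact Set.finite_range _
    have i1 : Infinite (sᶜ : Set (Quotient (orbS j))) := hsf.infinite_compl.to_subtype
    have i2 : Infinite ((Set.range (⟨f, hf⟩ : s ↪ Quotient (orbS j')))ᶜ :
        Set (Quotient (orbS j'))) := hr.infinite_compl.to_subtype
    exact nonempty_equiv_of_countable
  obtain ⟨e, he⟩ := Cardinal.extend_function (⟨f, hf⟩ : s ↪ Quotient (orbS j')) hne
  have he' : ∀ p ∈ C, e (Quotient.mk (orbS j) p.1) = Quotient.mk (orbS j') p.2 := by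
    intro p hp
    have h3 := he ⟨Quotient.mk (orbS j) p.1, ⟨p, hp, rfl⟩⟩
    have h4 : ch ⟨Quotient.mk (orbS j) p.1, ⟨p, hp, rfl⟩⟩ = p :=
      h1 _ (hch1 _) _ hp ((orbS_rel j _ _).1 (hch2 ⟨Quotient.mk (orbS j) p.1, ⟨p, hp, rfl⟩⟩))
    have h5 : f ⟨Quotient.mk (orbS j) p.1, ⟨p, hp, rfl⟩⟩ = Quotient.mk (orbS j') p.2 := by
      simp only [f, h4]
    rw [← h5]
    exact h3
  let τ : Equiv.Perm (G × ℕ) := (E.symm.trans (e.prodCongr (Equiv.refl K))).trans E'
  have hτ : ∀ o k, τ (E (o, k)) = E' (e o, k) := by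
    intro o k
    simp [τ]
  refine ⟨τ, ?_, ?_⟩
  · intro k ω
    obtain ⟨⟨o, l⟩, rfl⟩ := E.surjective ω
    rw [← hE1, hτ, hτ, hE1']
  · intro p hp
    have h3 := hE2 p.1 ⟨p, hp, rfl⟩
    have h4 := hE2' p.2 ⟨p, hp, rfl⟩
    have h5 := hτ (Quotient.mk (orbS j) p.1) 1
    rw [h3, he' p hp, h4] at h5
    exact h5

end ext

end Pool.Agent.W382.Iso
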