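import Mathlib
import Pool.Agent.W382.Iso.Ext

set_option autoImplicit false

/-! Multiple HNN extensions of a countable group: Britton's lemma, elements of finite order,
existence. -/

namespace Pool.Agent.W382.Iso

/-- pairs of embeddings of groups `K i` into `G` -/
structure Data (G : Type) [Group G] (I : Type) where
  K : I → Type
  [grp : ∀ i, Group (K i)]
  j : ∀ i, Bool → K i →* G
  inj : ∀ i b, Function.Injective (j i b)

attribute [instance] Data.grp

/-- `Γ` is the multiple HNN extension with the stable letters `t i` -/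
structure IsHNN {G : Type} [Group G] {I : Type} (D : Data G I) {Γ : Type} [Group Γ]
    (of : G →* Γ) (t : I → Γ) : Prop where
  rel : ∀ i k, t i * of (D.j i true k) = of (D.j i false k) * t i
  gen : Subgroup.closure (Set.range of ∪ Set.range t) = ⊤
  lift : ∀ (H : Type) [Group H] (f : G →* H) (x : I → H),
    (∀ i k, x i * f (D.j i true k) = f (D.j i false k) * x i) →
    ∃ F : Γ →* H, (∀ g, F (of g) = f g) ∧ ∀ i, F (t i) = x i

section defs

variable {G : Type} [Group G] {I : Type} (D : Data G I) {Γ : Type} [Group Γ]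
    (of : G →* Γ) (t : I → Γ)

/-- inverse letter -/
def bar (l : I × Bool) : I × Bool := (l.1, !l.2)

/-- source of a letter -/
def Data.dom (l : I × Bool) : Set G := Set.range (D.j l.1 l.2)

/-- value of a letter -/
def tt (l : I × Bool) : Γ := if l.2 then t l.1 else (t l.1)⁻¹

/-- value of a word -/
def pr (w : List ((I × Bool) × G)) : Γ := (w.map fun x => tt t x.1 * of x.2).prod

/-- reduced words -/
def Red (w : List ((I × Bool) × G)) : Prop :=
  w.IsChain (fun x y => y.1 = bar x.1 → x.2 ∉ D.dom x.1)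

/-- the constraints of a word on the permutation for the stable letter `i` -/
def Con (i : I) : List ((I × Bool) × G) → Set ((G × ℕ) × (G × ℕ))
  | [] => ∅
  | x :: w => {p | (x.1 = (i, true) ∧ p = ((x.2, w.length), (1, w.length + 1))) ∨
      (x.1 = (i, false) ∧ p = ((1, w.length + 1), (x.2, w.length)))} ∪ Con i w

end defs

section lemmas

variable {G : Type} [Group G] {I : Type} {D : Data G I} {Γ : Type} [Group Γ]
    {of : G →* Γ} {t : I → Γ}

theorem bar_bar (l : I × Bool) : bar (bar l) = l := by
  simp [bar]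

@[simp] theorem pr_nil : pr of t [] = 1 := rfl

@[simp] theorem pr_cons (x : (I × Bool) × G) (w : List ((I × Bool) × G)) :
    pr of t (x :: w) = tt t x.1 * of x.2 * pr of t w := by
  simp [pr]

theorem pr_append (v w : List ((I × Bool) × G)) :
    pr of t (v ++ w) = pr of t v * pr of t w := by
  simp [pr]

theorem tt_bar (l : I × Bool) : tt t (bar l) = (tt t l)⁻¹ := by
  obtain ⟨i, b⟩ := l
  cases b <;> simp [tt, bar]

theorem tt_mul_of (h : IsHNN D of t) (l : I × Bool) (k : D.K l.1) :
    tt t l * of (D.j l.1 l.2 k) = of (D.j l.1 (!l.2) k) * tt t l := by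
  obtain ⟨i, b⟩ := l
  cases b
  · have := h.rel i k
    simp only [tt, Bool.false_eq_true, if_false, Bool.not_false]
    rw [inv_mul_eq_iff_eq_mul, ← mul_assoc, this]
    simp
  · simpa [tt] using h.rel i k

theorem con_finite (i : I) (w : List ((I × Bool) × G)) : (Con i w).Finite := by
  induction w with
  | nil => exact Set.finite_empty
  | cons x w ih =>
    refine Set.Finite.union ?_ ih
    refine (Set.toFinite ({((x.2, w.length), (1, w.length + 1)),
      ((1, w.length + 1), (x.2, w.length))} : Set ((G × ℕ) × (G × ℕ)))).subset ?_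
    rintro p (⟨_, rfl⟩ | ⟨_, rfl⟩) <;> simp

theorem con_bound (i : I) (w : List ((I × Bool) × G)) (p : (G × ℕ) × (G × ℕ)) (hp : p ∈ Con i w) :
    (p.1.2 ≤ w.length ∧ p.2.2 ≤ w.length) ∧
    (p.1.2 = w.length → ∃ x w', w = x :: w' ∧ x.1 = (i, false) ∧ p.1 = (1, w.length)) ∧
    (p.2.2 = w.length → ∃ x w', w = x :: w' ∧ x.1 = (i, true) ∧ p.2 = (1, w.length)) := by
  induction w with
  | nil => exact absurd hp (Set.notMem_empty _)
  | cons x w ih =>
    rcases hp with (⟨hx, rfl⟩ | ⟨hx, rfl⟩) | hp
    · refine ⟨⟨by simp, by simp⟩, fun h => ?_, fun _ => ⟨x, w, rfl, hx, by simp⟩⟩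
      simp at h
    · refine ⟨⟨by simp, by simp⟩, fun _ => ⟨x, w, rfl, hx, by simp⟩, fun h => ?_⟩
      simp at h
    · obtain ⟨⟨h1, h2⟩, -, -⟩ := ih hp
      refine ⟨⟨by simp; omega, by simp; omega⟩, fun h => ?_, fun h => ?_⟩
      · simp at h; omega
      · simp at h; omega

theorem con_indep (i : I) (w : List ((I × Bool) × G)) (hw : Red D w) :
    ∀ p ∈ Con i w, ∀ q ∈ Con i w,
      ((∃ k, q.1 = (D.j i true k * p.1.1, p.1.2)) → p = q) ∧
      ((∃ k, q.2 = (D.j i false k * p.2.1, p.2.2)) → p = q) := by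
  induction w with
  | nil => intro p hp; exact absurd hp (Set.notMem_empty _)
  | cons x w ih =>
    have hw' : Red D w := hw.tail
    have hx : ∀ y w', w = y :: w' → y.1 = bar x.1 → x.2 ∉ D.dom x.1 := by
      rintro y w' rfl
      exact (List.isChain_cons_cons.1 hw).1
    -- comparison of a new and an old constraint
    have key1 : ∀ p, ((x.1 = (i, true) ∧ p = ((x.2, w.length), (1, w.length + 1))) ∨
        (x.1 = (i, false) ∧ p = ((1, w.length + 1), (x.2, w.length)))) → ∀ q ∈ Con i w,
        (¬ ∃ k, q.1 = (D.j i true k * p.1.1, p.1.2)) ∧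
        (¬ ∃ k, q.2 = (D.j i false k * p.2.1, p.2.2)) := by
      rintro p hp q hq
      obtain ⟨⟨b1, b2⟩, b3, b4⟩ := con_bound i w q hq
      rcases hp with ⟨hx1, rfl⟩ | ⟨hx1, rfl⟩
      · constructor
        · rintro ⟨k, hk⟩
          have h1 : q.1.2 = w.length := congrArg Prod.snd hk
          obtain ⟨y, w', hy, hy1, hy2⟩ := b3 h1
          refine hx y w' hy (by rw [hy1, hx1]; rfl) ?_
          rw [hx1]
          refine ⟨k⁻¹, ?_⟩
          have h2 : (1 : G) = D.j i true k * x.2 := by
            have := congrArg Prod.fst hk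
            rw [hy2] at this
            exact this
          rw [map_inv]
          exact (eq_inv_of_mul_eq_one_right h2.symm).symm
        · rintro ⟨k, hk⟩
          have h1 : q.2.2 = w.length + 1 := congrArg Prod.snd hk
          omega
      · constructor
        · rintro ⟨k, hk⟩
          have h1 : q.1.2 = w.length + 1 := congrArg Prod.snd hk
          omega
        · rintro ⟨k, hk⟩
          have h1 : q.2.2 = w.length := congrArg Prod.snd hk
          obtain ⟨y, w', hy, hy1, hy2⟩ := b4 h1
          refine hx y w' hy (by rw [hy1, hx1]; rfl) ?_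
          rw [hx1]
          refine ⟨k⁻¹, ?_⟩
          have h2 : (1 : G) = D.j i false k * x.2 := by
            have := congrArg Prod.fst hk
            rw [hy2] at this
            exact this
          rw [map_inv]
          exact (eq_inv_of_mul_eq_one_right h2.symm).symm
    have sym1 : ∀ (b : Bool) (a c : G × ℕ), (∃ k, a = (D.j i b k * c.1, c.2)) →
        ∃ k, c = (D.j i b k * a.1, a.2) := by
      rintro b a c ⟨k, rfl⟩
      exact ⟨k⁻¹, by simp⟩
    intro p hp q hq
    rcases hp with hp | hp <;> rcases hq with hq | hq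
    · have : p = q := by
        rcases hp with ⟨h1, rfl⟩ | ⟨h1, rfl⟩ <;> rcases hq with ⟨h2, rfl⟩ | ⟨h2, rfl⟩
        · rfl
        · rw [h1] at h2; simp at h2
        · rw [h1] at h2; simp at h2
        · rfl
      exact ⟨fun _ => this, fun _ => this⟩
    · obtain ⟨k1, k2⟩ := key1 p hp q hq
      exact ⟨fun h => absurd h k1, fun h => absurd h k2⟩
    · obtain ⟨k1, k2⟩ := key1 q hq p hp
      exact ⟨fun h => absurd (sym1 _ _ _ h) k1, fun h => absurd (sym1 _ _ _ h) k2⟩
    · exact ih hw' p hp q hq

/-- the permutation representation adapted to a reduced word -/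
theorem exists_rep [Countable G] (h : IsHNN D of t) (w : List ((I × Bool) × G)) (hw : Red D w) :
    ∃ Φ : Γ →* Equiv.Perm (G × ℕ), (∀ g a, Φ (of g) a = (g * a.1, a.2)) ∧
      Φ (pr of t w) (1, 0) = (1, w.length) := by
  classical
  have hex : ∀ i, ∃ τ : Equiv.Perm (G × ℕ),
      (∀ k (ω : G × ℕ), τ (D.j i true k * ω.1, ω.2) = (D.j i false k * (τ ω).1, (τ ω).2)) ∧
      ∀ p ∈ Con i w, τ p.1 = p.2 := by
    intro i
    exact exists_equivariant (D.j i true) (D.j i false) (D.inj i true) (D.inj i false) (Con i w)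
      (con_finite i w) (fun p hp q hq => (con_indep i w hw p hp q hq).1)
      (fun p hp q hq => (con_indep i w hw p hp q hq).2)
  choose τ hτ1 hτ2 using hex
  let f : G →* Equiv.Perm (G × ℕ) :=
    { toFun := fun g =>
        { toFun := fun a => (g * a.1, a.2)
          invFun := fun a => (g⁻¹ * a.1, a.2)
          left_inv := fun a => by simp
          right_inv := fun a => by simp }
      map_one' := by ext a <;> simp
      map_mul' := fun g g' => by ext a <;> simp [mul_assoc] }
  obtain ⟨Φ, hΦ1, hΦ2⟩ := h.lift (Equiv.Perm (G × ℕ)) f τ (by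
    intro i k
    ext1 a
    simp only [Equiv.Perm.coe_mul, Function.comp_apply]
    exact hτ1 i k a)
  have h1 : ∀ g a, Φ (of g) a = (g * a.1, a.2) := fun g a => by rw [hΦ1]; rfl
  refine ⟨Φ, h1, ?_⟩
  have h2 : ∀ v : List ((I × Bool) × G), (∀ i, Con i v ⊆ Con i w) →
      Φ (pr of t v) (1, 0) = (1, v.length) := by
    intro v
    induction v with
    | nil => intro _; simp
    | cons x v ih =>
      intro hv
      have ih' := ih (fun i => (Set.subset_union_right).trans (hv i))
      rw [pr_cons, map_mul, map_mul, Equiv.Perm.coe_mul, Equiv.Perm.coe_mul, Function.comp_apply,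
        Function.comp_apply, ih', h1]
      obtain ⟨⟨i, b⟩, g⟩ := x
      cases b
      · have h3 := hτ2 i ((1, v.length + 1), (g, v.length)) (hv i (Or.inl (Or.inr ⟨rfl, rfl⟩)))
        simp only [tt, Bool.false_eq_true, if_false, map_inv, hΦ2, mul_one, List.length_cons]
        rw [Equiv.Perm.inv_eq_iff_eq]
        exact h3.symm
      · have h3 := hτ2 i ((g, v.length), (1, v.length + 1)) (hv i (Or.inl (Or.inl ⟨rfl, rfl⟩)))
        simp only [tt, if_true, hΦ2, mul_one, List.length_cons]
        exact h3
  exact h2 w (fun i => subset_rfl)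

theorem of_injective [Countable G] (h : IsHNN D of t) : Function.Injective of := by
  obtain ⟨Φ, h1, -⟩ := exists_rep h [] List.isChain_nil
  intro a b hab
  have h2 := h1 a (1, 0)
  rw [hab, h1] at h2
  simpa using (congrArg Prod.fst h2).symm

/-- Britton's lemma -/
theorem britton [Countable G] (h : IsHNN D of t) (g g' : G) (w : List ((I × Bool) × G))
    (hw : Red D w) (he : of g * pr of t w = of g') : w = [] := by
  obtain ⟨Φ, h1, h2⟩ := exists_rep h w hw
  have h3 := congrArg (fun x => Φ x (1, 0)) he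
  simp only [map_mul, Equiv.Perm.coe_mul, Function.comp_apply] at h3
  rw [h2, h1, h1] at h3
  have h4 := congrArg Prod.snd h3
  exact List.length_eq_zero_iff.1 h4

/-- every element has a reduced form -/
theorem exists_red (h : IsHNN D of t) (γ : Γ) : ∃ g w, Red D w ∧ γ = of g * pr of t w := by
  -- multiplication by a letter
  have key : ∀ (l : I × Bool) (g : G) (w : List ((I × Bool) × G)), Red D w →
      ∃ g' w', Red D w' ∧ tt t l * (of g * pr of t w) = of g' * pr of t w' := by
    intro l g w hw
    by_cases hc : ∃ x w', w = x :: w' ∧ x.1 = bar l ∧ g ∈ D.dom l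
    · obtain ⟨x, w', rfl, hx, ⟨k, rfl⟩⟩ := hc
      refine ⟨D.j l.1 (!l.2) k * x.2, w', hw.tail, ?_⟩
      rw [pr_cons, hx, tt_bar, ← mul_assoc, tt_mul_of h, map_mul]
      group
    · refine ⟨1, (l, g) :: w, ?_, by simp [mul_assoc]⟩
      cases w with
      | nil => exact List.isChain_singleton _
      | cons y w =>
        refine List.isChain_cons_cons.2 ⟨?_, hw⟩
        intro h1 h2
        exact hc ⟨y, w, rfl, h1, h2⟩
  let S : Subgroup Γ := Subgroup.closure (Set.range of ∪ Set.range t)
  have hS : γ ∈ S := by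
    change γ ∈ Subgroup.closure (Set.range of ∪ Set.range t)
    rw [h.gen]; trivial
  have main : ∀ x ∈ S, ∀ y : Γ, (∃ g w, Red D w ∧ y = of g * pr of t w) →
      ∃ g w, Red D w ∧ x * y = of g * pr of t w := by
    intro x hx
    refine Subgroup.closure_induction_left (p := fun x _ => ∀ y : Γ,
      (∃ g w, Red D w ∧ y = of g * pr of t w) → ∃ g w, Red D w ∧ x * y = of g * pr of t w)
      ?_ ?_ ?_ hx
    · intro y hy; simpa using hy
    · rintro x (⟨g, rfl⟩ | ⟨i, rfl⟩) y _ ih z hz
      · obtain ⟨g', w, hw, he⟩ := ih z hz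
        exact ⟨g * g', w, hw, by rw [mul_assoc, he, map_mul, mul_assoc]⟩
      · obtain ⟨g', w, hw, he⟩ := ih z hz
        obtain ⟨g'', w', hw', he'⟩ := key (i, true) g' w hw
        exact ⟨g'', w', hw', by rw [mul_assoc, he, ← he']; rfl⟩
    · rintro x (⟨g, rfl⟩ | ⟨i, rfl⟩) y _ ih z hz
      · obtain ⟨g', w, hw, he⟩ := ih z hz
        exact ⟨g⁻¹ * g', w, hw, by rw [mul_assoc, he, map_mul, map_inv, mul_assoc]⟩
      · obtain ⟨g', w, hw, he⟩ := ih z hz
        obtain ⟨g'', w', hw', he'⟩ := key (i, false) g' w hw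
        exact ⟨g'', w', hw', by rw [mul_assoc, he, ← he']; rfl⟩
  obtain ⟨g, w, hw, he⟩ := main γ hS 1 ⟨1, [], List.isChain_nil, by simp⟩
  exact ⟨g, w, hw, by rw [← he, mul_one]⟩

end lemmas

end Pool.Agent.W382.Iso
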