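import Mathlib
import Pool.Agent.W382.Iso.HNN

set_option autoImplicit false

/-! Conjugation and torsion in multiple HNN extensions; existence. -/

namespace Pool.Agent.W382.Iso

section lemmas

variable {G : Type} [Group G] {I : Type} {D : Data G I} {Γ : Type} [Group Γ]
    {of : G →* Γ} {t : I → Γ}

theorem dom_inv {l : I × Bool} {g : G} (hg : g ∈ D.dom l) : g⁻¹ ∈ D.dom l := by
  obtain ⟨k, rfl⟩ := hg
  exact ⟨k⁻¹, by simp⟩

theorem inv_mul_red (w : List ((I × Bool) × G)) : ∀ (l : I × Bool) (g u : G)
    (z : List ((I × Bool) × G)), Red D ((l, g) :: w) → Red D ((bar l, u) :: z) →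
    ∃ g' z', Red D z' ∧ z' ≠ [] ∧
      (pr of t ((l, g) :: w))⁻¹ * (of u * pr of t z) = of g' * pr of t z' := by
  induction w with
  | nil =>
    intro l g u z _ hz
    refine ⟨g⁻¹, (bar l, u) :: z, hz, by simp, ?_⟩
    simp only [pr_cons, pr_nil, mul_one, mul_inv_rev, map_inv, tt_bar, mul_assoc]
  | cons x w ih =>
    intro l g u z hw hz
    obtain ⟨l2, g2⟩ := x
    obtain ⟨h1, h2⟩ := List.isChain_cons_cons.1 hw
    have h3 : Red D ((bar l2, g⁻¹) :: (bar l, u) :: z) := by
      refine List.isChain_cons_cons.2 ⟨?_, hz⟩
      intro h4 h5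
      have h6 : l = l2 ∨ True := Or.inr trivial
      have h7 : bar l = l2 := by
        have : bar l = bar (bar l2) := h4
        rwa [bar_bar] at this
      have h8 : g ∉ D.dom l := h1 h7.symm
      apply h8
      have h9 : bar l2 = l := by rw [← h7, bar_bar]
      have h10 := dom_inv h5
      rw [inv_inv] at h10
      simpa [h9] using h10
    obtain ⟨g', z', hz', hne, he⟩ := ih l2 g2 g⁻¹ ((bar l, u) :: z) h2 h3
    refine ⟨g', z', hz', hne, ?_⟩
    rw [← he]
    rw [pr_cons (x := (l, g)), pr_cons (x := (bar l, u))]
    simp only [mul_inv_rev, map_inv, tt_bar, mul_assoc]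

/-- induction along a conjugation of base elements -/
theorem conj_induct [Countable G] (h : IsHNN D of t) (P : G → Γ → Prop)
    (hG : ∀ g u γ, P u γ → P (g * u * g⁻¹) (of g * γ))
    (hL : ∀ (l : I × Bool) (k : D.K l.1) γ, P (D.j l.1 l.2 k) γ →
      P (D.j l.1 (!l.2) k) (tt t l * γ))
    {γ : Γ} {u v : G} (hu : P u 1) (he : γ * of u * γ⁻¹ = of v) : P v γ := by
  have key : ∀ (w : List ((I × Bool) × G)), Red D w → ∀ (g u v : G) (δ : Γ), P u δ →
      (of g * pr of t w)⁻¹ * of u * (of g * pr of t w) = of v →
      P v ((of g * pr of t w)⁻¹ * δ) := by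
    intro w
    induction w with
    | nil =>
      intro _ g u v δ hu he
      have h1 : of (g⁻¹ * u * g) = of v := by
        rw [← he]; simp [mul_assoc]
      have h2 := of_injective h h1
      have h3 := hG g⁻¹ u δ hu
      rw [inv_inv, h2] at h3
      simpa using h3
    | cons x w ih =>
      intro hw g u v δ hu he
      obtain ⟨l, g1⟩ := x
      set u' : G := g⁻¹ * u * g with hu'
      have hP : P u' (of g⁻¹ * δ) := by
        have := hG g⁻¹ u δ hu
        rwa [inv_inv] at this
      have he1 : (pr of t ((l, g1) :: w))⁻¹ * (of u' * pr of t ((l, g1) :: w)) = of v := by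
        rw [← he, hu']
        simp [mul_assoc]
      by_cases hd : u' ∈ D.dom (bar l)
      · obtain ⟨k, hk⟩ := hd
        have hP' : P (D.j (bar l).1 (bar l).2 k) (of g⁻¹ * δ) := by
          rw [hk]; exact hP
        have h2 := hL (bar l) k _ hP'
        have h3 := tt_mul_of h (bar l) k
        have h4 := ih hw.tail g1 _ v _ h2 (by
          rw [← he1, ← hk]
          have h5 : of (D.j (bar l).1 (!(bar l).2) k) =
              tt t (bar l) * of (D.j (bar l).1 (bar l).2 k) * (tt t (bar l))⁻¹ := by
            rw [h3]; simp
          rw [h5, pr_cons, tt_bar]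
          simp [mul_assoc])
        have h6 : (of g * pr of t ((l, g1) :: w))⁻¹ * δ =
            (of g1 * pr of t w)⁻¹ * (tt t (bar l) * (of g⁻¹ * δ)) := by
          rw [pr_cons, tt_bar]
          simp [mul_assoc]
        rw [h6]
        exact h4
      · exfalso
        have hz : Red D ((bar l, u') :: (l, g1) :: w) := by
          refine List.isChain_cons_cons.2 ⟨?_, hw⟩
          intro _
          exact hd
        obtain ⟨g', z', hz', hne, he2⟩ := inv_mul_red (of := of) (t := t) w l g1 u' ((l, g1) :: w)
          hw hz
        rw [he1] at he2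
        exact hne (britton h g' v z' hz' he2.symm)
  obtain ⟨g, w, hw, hγ⟩ := exists_red h γ⁻¹
  have h1 := key w hw g u v 1 hu (by rw [← hγ, inv_inv]; exact he)
  rw [← hγ, inv_inv, mul_one] at h1
  exact h1

theorem red_last {w : List ((I × Bool) × G)} {l : I × Bool} {g : G} (g' : G)
    (h : Red D (w ++ [(l, g)])) : Red D (w ++ [(l, g')]) := by
  unfold Red at h ⊢
  rw [List.isChain_append] at h ⊢
  obtain ⟨h1, h2, h3⟩ := h
  refine ⟨h1, List.isChain_singleton _, ?_⟩
  intro x hx y hy
  simp only [List.head?_cons, Option.mem_def, Option.some.injEq] at hy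
  subst hy
  exact h3 x hx (l, g) (by simp)

/-- elements of finite order are conjugate into the base -/
theorem torsion [Countable G] (h : IsHNN D of t) (m : ℕ) (hm : 0 < m) :
    ∀ (n : ℕ) (w : List ((I × Bool) × G)) (g : G), w.length ≤ n → Red D w →
      (of g * pr of t w) ^ m = 1 → ∃ δ g', of g * pr of t w = δ * of g' * δ⁻¹ ∧ g' ^ m = 1 := by
  intro n
  induction n using Nat.strong_induction_on with
  | _ n ih =>
    intro w g hn hw hp
    rcases List.eq_nil_or_concat w with rfl | ⟨w0, ⟨l, gn⟩, rfl⟩
    · refine ⟨1, g, by simp, ?_⟩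
      apply of_injective h
      simpa using hp
    · simp only [List.concat_eq_append] at *
      set g' : G := gn * g with hg'
      set w' : List ((I × Bool) × G) := w0 ++ [(l, 1)] with hw'
      set w2 : List ((I × Bool) × G) := w0 ++ [(l, g')] with hw2
      have hred' : Red D w' := red_last 1 hw
      have hred2 : Red D w2 := red_last g' hw
      have hconj : of g * pr of t (w0 ++ [(l, gn)]) =
          (of gn)⁻¹ * (of g' * pr of t w') * (of gn)⁻¹⁻¹ := by
        rw [hg', hw', pr_append, pr_append]
        simp [mul_assoc]
      have hp' : (of g' * pr of t w') ^ m = 1 := by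
        rw [hconj] at hp
        rw [conj_pow] at hp
        have h1 : (of g' * pr of t w') ^ m = of gn * ((of gn)⁻¹ * (of g' * pr of t w') ^ m *
            (of gn)⁻¹⁻¹) * (of gn)⁻¹ := by group
        rw [h1, hp]; simp
      by_cases hc : ∀ y ∈ w'.head?, y.1 = bar l → g' ∉ D.dom l
      · exfalso
        -- all powers are reduced
        have hS : ∀ r : ℕ, ∃ z, Red D z ∧ z ≠ [] ∧ z.head?.map Prod.fst = w'.head?.map Prod.fst ∧
            (of g' * pr of t w') ^ (r + 1) = of g' * pr of t z := by
          intro r
          induction r with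
          | zero => exact ⟨w', hred', by simp [hw'], rfl, by simp⟩
          | succ r ihr =>
            obtain ⟨z, hz1, hz2, hz3, hz4⟩ := ihr
            refine ⟨w2 ++ z, ?_, by simp [hw2], ?_, ?_⟩
            · unfold Red
              rw [List.isChain_append]
              refine ⟨hred2, hz1, ?_⟩
              intro x hx y hy
              have hx' : x = (l, g') := by
                have : w2.getLast? = some (l, g') := by simp [hw2]
                rw [this] at hx
                simpa using hx.symm
              subst hx'
              intro hy1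
              have h3 : z.head? = some y := hy
              rw [h3] at hz3
              rcases hh : w'.head? with _ | y'
              · rw [hh] at hz3; simp at hz3
              · rw [hh] at hz3
                simp only [Option.map_some, Option.some.injEq] at hz3
                exact hc y' hh (by rw [← hz3]; exact hy1)
            · cases w0 with
              | nil => simp [hw2, hw']
              | cons a w0 => simp [hw2, hw']
            · have h5 : pr of t w2 = pr of t w' * of g' := by
                rw [hw2, hw', pr_append, pr_append]; simp [mul_assoc]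
              rw [pow_succ', hz4, pr_append w2 z, h5]
              simp only [mul_assoc]
        obtain ⟨z, hz1, hz2, -, hz4⟩ := hS (m - 1)
        rw [Nat.sub_add_cancel hm, hp'] at hz4
        exact hz2 (britton h g' 1 z hz1 (by rw [← hz4]; simp))
      · push Not at hc
        obtain ⟨y, hy, hy1, hy2⟩ := hc
        cases w0 with
        | nil =>
          exfalso
          simp only [hw', List.nil_append, List.head?_cons, Option.mem_def,
            Option.some.injEq] at hy
          subst hy
          obtain ⟨i, b⟩ := l
          have := congrArg Prod.snd hy1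
          cases b <;> simp [bar] at this
        | cons x w1 =>
          simp only [hw', List.cons_append, List.head?_cons, Option.mem_def,
            Option.some.injEq] at hy
          subst hy
          obtain ⟨k, hk⟩ := hy2
          obtain ⟨l1, g1⟩ := x
          simp only at hy1
          subst hy1
          have h3 := tt_mul_of h l k
          have hc2 : of g' * pr of t w' =
              (tt t l)⁻¹ * (of (D.j l.1 (!l.2) k * g1) * pr of t w1) * (tt t l)⁻¹⁻¹ := by
            have h4 : of (D.j l.1 (!l.2) k) = tt t l * of g' * (tt t l)⁻¹ := by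
              rw [← hk, h3]; simp
            rw [hw', List.cons_append, pr_cons, pr_append, map_mul of (D.j l.1 (!l.2) k) g1, h4]
            simp only [tt_bar, pr_cons, pr_nil, map_one, mul_one, inv_inv, mul_assoc,
              inv_mul_cancel_left]
          have hr1 : Red D w1 := by
            have h5 : Red D ((bar l, g1) :: (w1 ++ [(l, gn)])) := hw
            have h6 := h5.tail
            unfold Red at h6 ⊢
            exact (List.isChain_append.1 h6).1
          have hlen : w1.length < n := by
            simp only [List.cons_append, List.length_cons, List.length_append,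
              List.length_nil] at hn
            omega
          have hp2 : (of (D.j l.1 (!l.2) k * g1) * pr of t w1) ^ m = 1 := by
            rw [hc2, conj_pow] at hp'
            have h7 : (of (D.j l.1 (!l.2) k * g1) * pr of t w1) ^ m =
                tt t l * ((tt t l)⁻¹ * (of (D.j l.1 (!l.2) k * g1) * pr of t w1) ^ m *
                (tt t l)⁻¹⁻¹) * (tt t l)⁻¹ := by group
            rw [h7, hp']; simp
          obtain ⟨δ, g'', h8, h9⟩ := ih w1.length hlen w1 _ le_rfl hr1 hp2
          refine ⟨(of gn)⁻¹ * (tt t l)⁻¹ * δ, g'', ?_, h9⟩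
          rw [hconj, hc2, h8]
          simp [mul_assoc]

theorem torsion' [Countable G] (h : IsHNN D of t) {m : ℕ} (hm : 0 < m) {γ : Γ}
    (hγ : γ ^ m = 1) : ∃ δ g, γ = δ * of g * δ⁻¹ ∧ g ^ m = 1 := by
  obtain ⟨g, w, hw, rfl⟩ := exists_red h γ
  exact torsion h m hm w.length w g le_rfl hw hγ

end lemmas

section existence

open Monoid Coprod

variable {G : Type} [Group G] {I : Type} (D : Data G I)

/-- the relators -/
def hnnRel : Set (Monoid.Coprod G (FreeGroup I)) :=
  {x | ∃ i k, x = inr (FreeGroup.of i) * inl (D.j i true k) * (inr (FreeGroup.of i))⁻¹ *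
    (inl (D.j i false k))⁻¹}

/-- the multiple HNN extension -/
def HNN : Type := Monoid.Coprod G (FreeGroup I) ⧸ Subgroup.normalClosure (hnnRel D)

instance : Group (HNN D) :=
  inferInstanceAs (Group (Monoid.Coprod G (FreeGroup I) ⧸ Subgroup.normalClosure (hnnRel D)))

/-- the projection -/
def hnnMk : Monoid.Coprod G (FreeGroup I) →* HNN D :=
  QuotientGroup.mk' (Subgroup.normalClosure (hnnRel D))

/-- the base -/
def hnnOf : G →* HNN D := (hnnMk D).comp inl

/-- the stable letters -/
def hnnT (i : I) : HNN D := hnnMk D (inr (FreeGroup.of i))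

theorem hnn_isHNN : IsHNN D (hnnOf D) (hnnT D) where
  rel i k := by
    have h : hnnMk D (inr (FreeGroup.of i) * inl (D.j i true k) * (inr (FreeGroup.of i))⁻¹ *
        (inl (D.j i false k))⁻¹) = 1 := by
      refine (QuotientGroup.eq_one_iff _).2 (Subgroup.subset_normalClosure ⟨i, k, rfl⟩)
    simp only [map_mul, map_inv] at h
    rw [mul_inv_eq_one, mul_inv_eq_iff_eq_mul] at h
    exact h
  gen := by
    rw [eq_top_iff]
    rintro x -
    obtain ⟨y, rfl⟩ : ∃ y, hnnMk D y = x := QuotientGroup.mk'_surjective _ x
    induction y using Monoid.Coprod.induction_on with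
    | inl g => exact Subgroup.subset_closure (Or.inl ⟨g, rfl⟩)
    | inr f =>
      induction f using FreeGroup.induction_on with
      | C1 => simp
      | of i => exact Subgroup.subset_closure (Or.inr ⟨i, rfl⟩)
      | inv_of i hi =>
        rw [map_inv, map_inv]; exact Subgroup.inv_mem _ hi
      | mul a b ha hb => rw [map_mul, map_mul]; exact Subgroup.mul_mem _ ha hb
    | mul a b ha hb => rw [map_mul]; exact Subgroup.mul_mem _ ha hb
  lift H _ f x hx := by
    have hk : ∀ y ∈ Subgroup.normalClosure (hnnRel D),
        (Coprod.lift f (FreeGroup.lift x)) y = 1 := by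
      intro y hy
      have : Subgroup.normalClosure (hnnRel D) ≤ (Coprod.lift f (FreeGroup.lift x)).ker := by
        refine Subgroup.normalClosure_le_normal ?_
        rintro _ ⟨i, k, rfl⟩
        change _ ∈ (Coprod.lift f (FreeGroup.lift x)).ker
        rw [MonoidHom.mem_ker]
        simp [hx i k]
      exact this hy
    refine ⟨QuotientGroup.lift (Subgroup.normalClosure (hnnRel D))
      (Coprod.lift f (FreeGroup.lift x)) hk, ?_, ?_⟩
    · intro g
      change (Coprod.lift f (FreeGroup.lift x)) (inl g) = f g
      simp
    · intro i
      change (Coprod.lift f (FreeGroup.lift x)) (inr (FreeGroup.of i)) = x i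
      simp

end existence

end Pool.Agent.W382.Iso
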