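import Mathlib
import Pool.Agent.W382.Iso.HNN2
import Pool.Agent.W382.Iso.FG

set_option autoImplicit false

/-! The rules, the base group, and the conjugates of the marker. -/

namespace Pool.Agent.W382.Iso

open SemidirectProduct

/-- partial bijections of `St × FreeGroup Y` -/
structure Rules (St Y : Type) where
  I : Type
  T : I → Type
  e : ∀ i, T i → Y
  he : ∀ i, Function.Injective (e i)
  s : I → Bool → St
  n : ∀ i, Bool → T i → ℕ
  hn : ∀ i b y, 0 < n i b y
  a : I → Bool → FreeGroup Y
  c : I → Bool → FreeGroup Y

namespace Rules

variable {St Y : Type} (R : Rules St Y)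

/-- the embedding of the parameter group -/
def ι (i : R.I) (b : Bool) : FreeGroup (R.T i) →* FreeGroup Y :=
  (MulAut.conj (R.c i b)⁻¹).toMonoidHom.comp (pw (R.e i) (R.n i b))

theorem ι_apply (i : R.I) (b : Bool) (h : FreeGroup (R.T i)) :
    R.ι i b h = (R.c i b)⁻¹ * pw (R.e i) (R.n i b) h * R.c i b := by
  simp [ι]

theorem ι_injective (i : R.I) (b : Bool) : Function.Injective (R.ι i b) := by
  intro x y h
  rw [ι_apply, ι_apply] at h
  exact pw_injective (R.he i) (R.hn i b) (mul_left_cancel (mul_right_cancel h))

/-- the nodes of a rule -/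
def node (i : R.I) (b : Bool) (h : FreeGroup (R.T i)) : St × FreeGroup Y :=
  (R.s i b, R.a i b * pw (R.e i) (R.n i b) h * R.c i b)

/-- one step -/
def Step (x y : St × FreeGroup Y) : Prop := ∃ i h, x = R.node i true h ∧ y = R.node i false h

/-- the equivalence relation generated by the rules -/
def Rel : St × FreeGroup Y → St × FreeGroup Y → Prop := Relation.EqvGen R.Step

/-- the map of letters -/
def sg (i : R.I) (b : Bool) : Bool → Option St := fun u => if u then some (R.s i b) else none

/-- the shift -/
def gg (i : R.I) (b : Bool) : Bool → FreeGroup Y := fun u => if u then R.a i b * R.c i b else 1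

/-- the embeddings -/
def jj (i : R.I) (b : Bool) : BG Bool (FreeGroup (R.T i)) →* BG (Option St) (FreeGroup Y) :=
  bgMap (R.sg i b) (R.gg i b) (R.ι i b)

theorem sg_injective (i : R.I) (b : Bool) : Function.Injective (R.sg i b) := by
  intro u v h
  cases u <;> cases v <;> simp_all [sg]

theorem jj_injective (i : R.I) (b : Bool) : Function.Injective (R.jj i b) :=
  bgMap_injective (R.sg_injective i b) (R.ι_injective i b)

theorem jj_false (i : R.I) (b : Bool) : R.jj i b (el false 1) = el none 1 := by
  simp [jj, sg, gg]

theorem jj_true (i : R.I) (b : Bool) (h : FreeGroup (R.T i)) :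
    R.jj i b (el true h) = el (some (R.node i b h).1) (R.node i b h).2 := by
  simp only [jj, bgMap_el, sg, gg, if_true, node, ι_apply]
  congr 1
  group

theorem jj_inr (i : R.I) (b : Bool) (h : FreeGroup (R.T i)) :
    R.jj i b (inr h) = inr (R.ι i b h) := by
  simp [jj]

end Rules

section U

variable {St Y : Type}

/-- the marker, possibly multiplied by a configuration -/
def U : Option (St × FreeGroup Y) → BG (Option St) (FreeGroup Y)
  | none => el none 1
  | some w => el none 1 * el (some w.1) w.2

/-- the left component of a conjugate -/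
def W (z : FreeGroup Y) : Option (St × FreeGroup Y) → FreeGroup (Option St × FreeGroup Y)
  | none => FreeGroup.of (none, z⁻¹)
  | some w => FreeGroup.of (none, z⁻¹) * FreeGroup.of (some w.1, w.2 * z⁻¹)

theorem conj_U (g : BG (Option St) (FreeGroup Y)) (u : Option (St × FreeGroup Y)) :
    g * U u * g⁻¹ = inl (g.left * W g.right u * g.left⁻¹) := by
  have h1 : g = inl g.left * inr g.right := by
    ext <;> simp
  have h2 : (inr g.right : BG (Option St) (FreeGroup Y)) * U u * (inr g.right)⁻¹ =
      inl (W g.right u) := by
    cases u with
    | none => rw [U, inr_conj_el]; simp [W, el]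
    | some w =>
      have h3 : (inr g.right : BG (Option St) (FreeGroup Y)) * (el none 1 * el (some w.1) w.2) *
        (inr g.right)⁻¹ = ((inr g.right : BG (Option St) (FreeGroup Y)) * el none 1 *
          (inr g.right)⁻¹) * ((inr g.right : BG (Option St) (FreeGroup Y)) * el (some w.1) w.2 *
          (inr g.right)⁻¹) := by group
      rw [U, h3, inr_conj_el, inr_conj_el]
      simp [W, el]
  have h3 : g * U u * g⁻¹ = (inl g.left * inr g.right) * U u * (inl g.left * inr g.right)⁻¹ := by
    rw [← h1]
  have h4 : (inl g.left * inr g.right) * U u * (inl g.left * inr g.right)⁻¹ =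
      inl g.left * (inr g.right * U u * (inr g.right)⁻¹) * (inl g.left)⁻¹ := by group
  rw [h3, h4, h2]
  simp

theorem U_inl (u : Option (St × FreeGroup Y)) :
    (U u : BG (Option St) (FreeGroup Y)) = inl (W 1 u) := by
  cases u <;> simp [U, W, el]

/-- the exponent sum of the marker -/
def chi : BG (Option St) (FreeGroup Y) →* Multiplicative ℤ :=
  bgLift 1 (fun o => match o with
    | none => Multiplicative.ofAdd 1
    | some _ => 1)

theorem chi_U (u : Option (St × FreeGroup Y)) : chi (U u) = Multiplicative.ofAdd 1 := by
  cases u <;> simp [U, chi]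

theorem U_conj_eq {g : BG (Option St) (FreeGroup Y)} {w : St × FreeGroup Y}
    {u : Option (St × FreeGroup Y)} (h : U (some w) = g * U u * g⁻¹) : u = some w := by
  classical
  rw [conj_U, U_inl] at h
  have h1 := inl_injective h
  simp only [W, inv_one, mul_one] at h1
  have h2 := congrArg (cnt (some w.1, w.2)) h1
  have h3 := congrArg (cnt (none, (1 : FreeGroup Y))) h1
  rw [cnt_conj, map_mul, cnt_of_self] at h2 h3
  rw [cnt_of_ne (by simp)] at h2 h3
  cases u with
  | none =>
    exfalso
    simp only [W] at h2
    rw [cnt_of_ne (by simp)] at h2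
    simp only [one_mul] at h2
    exact ofAdd_one_ne h2
  | some w' =>
    simp only [W, map_mul] at h2 h3
    rw [cnt_of_ne (a := (none, (1 : FreeGroup Y))) (b := (some w'.1, w'.2 * g.right⁻¹))
      (by simp), mul_one, mul_one] at h3
    have h4 : g.right = 1 := by
      by_contra hne
      rw [cnt_of_ne (by simpa using hne)] at h3
      exact ofAdd_one_ne h3
    rw [cnt_of_ne (b := (none, g.right⁻¹)) (by simp), one_mul, one_mul, h4] at h2
    simp only [inv_one, mul_one] at h2
    by_contra hne
    rw [cnt_of_ne (b := (some w'.1, w'.2))] at h2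
    · exact ofAdd_one_ne h2
    · intro h5
      have h6 : some w'.1 = some w.1 := (Prod.mk.inj h5).1
      have h7 : w'.2 = w.2 := (Prod.mk.inj h5).2
      exact hne (congrArg some (Prod.ext (Option.some.inj h6) h7))

variable (R : Rules St Y)

/-- conjugates of the marker in the source of a rule -/
theorem claim (i : R.I) (b : Bool) (x : BG Bool (FreeGroup (R.T i)))
    (g : BG (Option St) (FreeGroup Y)) (u : Option (St × FreeGroup Y))
    (h : R.jj i b x = g * U u * g⁻¹) :
    ∃ x' k : BG Bool (FreeGroup (R.T i)), x = x' * k * x'⁻¹ ∧
      ((u = none ∧ k = el false 1) ∨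
        ∃ y, u = some (R.node i b y) ∧ k = el false 1 * el true y) := by
  classical
  rw [conj_U] at h
  let m : Bool × FreeGroup (R.T i) → Option St × FreeGroup Y :=
    fun p => (R.sg i b p.1, R.gg i b p.1 * R.ι i b p.2)
  have hl : FreeGroup.map m x.left = g.left * W g.right u * g.left⁻¹ := by
    have := congrArg SemidirectProduct.left h
    simpa [Rules.jj, bgMap, m] using this
  have hr : x.right = 1 := by
    have := congrArg SemidirectProduct.right h
    simp only [Rules.jj, bgMap, SemidirectProduct.map_right, SemidirectProduct.right_inl] at this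
    exact R.ι_injective i b (by rw [this, map_one])
  have hm : Function.Injective m := by
    rintro ⟨p, w⟩ ⟨p', w'⟩ h
    have h1 : R.sg i b p = R.sg i b p' := congrArg Prod.fst h
    have h2 := R.sg_injective i b h1
    subst h2
    have h3 : R.gg i b p * R.ι i b w = R.gg i b p * R.ι i b w' := congrArg Prod.snd h
    rw [R.ι_injective i b (mul_left_cancel h3)]
  -- the retraction
  let ρ : FreeGroup (Option St × FreeGroup Y) →* FreeGroup (Bool × FreeGroup (R.T i)) :=
    FreeGroup.lift (fun a => if h : ∃ e, m e = a then FreeGroup.of h.choose else 1)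
  have hρ1 : ∀ e, ρ (FreeGroup.of (m e)) = FreeGroup.of e := by
    intro e
    have h1 : ∃ e', m e' = m e := ⟨e, rfl⟩
    simp only [ρ, FreeGroup.lift_apply_of]
    rw [dif_pos h1]
    congr 1
    exact hm h1.choose_spec
  have hρ : ∀ w, ρ (FreeGroup.map m w) = w := by
    intro w
    have h1 : ρ.comp (FreeGroup.map m) = MonoidHom.id _ := by
      ext e
      simp [hρ1]
    exact DFunLike.congr_fun h1 w
  -- letters occurring with nonzero exponent sum are in the range
  have hcnt : ∀ a, cnt a (W g.right u) ≠ 1 → ∃ e, m e = a := by
    intro a ha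
    by_contra hne
    push Not at hne
    apply ha
    rw [← cnt_conj a g.left, ← hl, cnt_map hne]
  have hx : x = inl x.left := by
    ext <;> simp [hr]
  have hx2 : x.left = ρ g.left * ρ (W g.right u) * (ρ g.left)⁻¹ := by
    rw [← hρ x.left, hl]; simp
  cases u with
  | none =>
    obtain ⟨⟨p, h1⟩, he⟩ := hcnt (none, g.right⁻¹) (by
      simp only [W]
      rw [cnt_of_self]; exact ofAdd_one_ne)
    cases p with
    | true => simp [m, Rules.sg] at he
    | false =>
      have h2 : ρ (W g.right (none : Option (St × FreeGroup Y))) = FreeGroup.of (false, h1) := by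
        simp only [W]
        rw [← he, hρ1]
      refine ⟨inl (ρ g.left) * inr h1⁻¹, el false 1, ?_, Or.inl ⟨rfl, rfl⟩⟩
      have h3 := inr_conj_el (B := Bool) h1⁻¹ false 1
      have h4 : inl (ρ g.left) * inr h1⁻¹ * el false 1 * (inl (ρ g.left) * inr h1⁻¹)⁻¹ =
          (inl (ρ g.left) * (inr h1⁻¹ * el false 1 * (inr h1⁻¹)⁻¹) * (inl (ρ g.left))⁻¹ :
            BG Bool (FreeGroup (R.T i))) := by group
      rw [h4, h3, hx, hx2, h2]
      simp [el]
  | some w =>
    obtain ⟨⟨p, h1⟩, he⟩ := hcnt (none, g.right⁻¹) (by
      simp only [W]
      rw [map_mul, cnt_of_self, cnt_of_ne (by simp), mul_one]; exact ofAdd_one_ne)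
    obtain ⟨⟨p', h2⟩, he'⟩ := hcnt (some w.1, w.2 * g.right⁻¹) (by
      simp only [W]
      rw [map_mul, cnt_of_self, cnt_of_ne (by simp), one_mul]; exact ofAdd_one_ne)
    cases p with
    | true => simp [m, Rules.sg] at he
    | false =>
      cases p' with
      | false => simp [m, Rules.sg] at he'
      | true =>
        have h3 : ρ (W g.right (some w)) = FreeGroup.of (false, h1) * FreeGroup.of (true, h2) := by
          simp only [W]
          rw [← he, ← he', map_mul, hρ1, hρ1]
        have e1 : g.right⁻¹ = R.ι i b h1 := by
          have := congrArg Prod.snd he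
          simpa [m, Rules.gg] using this.symm
        have e2 : R.s i b = w.1 := by
          have := congrArg Prod.fst he'
          simpa [m, Rules.sg] using this
        have e3 : w.2 * g.right⁻¹ = R.a i b * R.c i b * R.ι i b h2 := by
          have := congrArg Prod.snd he'
          simpa [m, Rules.gg] using this.symm
        refine ⟨inl (ρ g.left) * inr h1⁻¹, el false 1 * el true (h2 * h1⁻¹), ?_,
          Or.inr ⟨h2 * h1⁻¹, ?_, rfl⟩⟩
        · have h4 := inr_conj_el (B := Bool) h1⁻¹ false 1
          have h5 := inr_conj_el (B := Bool) h1⁻¹ true (h2 * h1⁻¹)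
          have h6 : inl (ρ g.left) * inr h1⁻¹ * (el false 1 * el true (h2 * h1⁻¹)) *
              (inl (ρ g.left) * inr h1⁻¹)⁻¹ =
              (inl (ρ g.left) * ((inr h1⁻¹ * el false 1 * (inr h1⁻¹)⁻¹) *
                (inr h1⁻¹ * el true (h2 * h1⁻¹) * (inr h1⁻¹)⁻¹)) * (inl (ρ g.left))⁻¹ :
                BG Bool (FreeGroup (R.T i))) := by group
          rw [h6, h4, h5, hx, hx2, h3]
          simp [el]
        · have h7 : w = R.node i b (h2 * h1⁻¹) := by
            refine Prod.ext e2.symm ?_
            simp only [Rules.node]
            have h8 : R.a i b * pw (R.e i) (R.n i b) (h2 * h1⁻¹) * R.c i b =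
                R.a i b * R.c i b * R.ι i b (h2 * h1⁻¹) := by
              rw [Rules.ι_apply]; group
            rw [h8, map_mul, map_inv, ← e1, ← mul_assoc, ← e3]
            group
          rw [← h7]

/-- the data of the group `E` -/
def dataE (z : St × FreeGroup Y) : Data (BG (Option St) (FreeGroup Y)) (Option R.I) where
  K o := match o with
    | none => Multiplicative ℤ
    | some i => BG Bool (FreeGroup (R.T i))
  grp o := match o with
    | none => inferInstanceAs (Group (Multiplicative ℤ))
    | some i => inferInstanceAs (Group (BG Bool (FreeGroup (R.T i))))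
  j o b := match o with
    | none => zpowersHom _ (if b then U none else U (some z))
    | some i => R.jj i b
  inj o b := match o with
    | none => by
      change Function.Injective (zpowersHom (BG (Option St) (FreeGroup Y))
          (if b then U none else U (some z)))
      have h : Function.Injective (chi.comp (zpowersHom (BG (Option St) (FreeGroup Y))
          (if b then U none else U (some z)))) := by
        intro x y hxy
        simp only [MonoidHom.comp_apply, zpowersHom_apply, map_zpow] at hxy
        have h1 : chi (if b then U none else U (some z) : BG (Option St) (FreeGroup Y)) =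
          Multiplicative.ofAdd 1 := by
          cases b
          · exact chi_U (some z)
          · exact chi_U none
        rw [h1, ← ofAdd_zsmul, ← ofAdd_zsmul] at hxy
        have h2 := Multiplicative.ofAdd.injective hxy
        simp only [smul_eq_mul, mul_one] at h2
        exact Multiplicative.toAdd.injective h2
      exact Function.Injective.of_comp (f := chi) h
    | some i => R.jj_injective i b

theorem conj_p {Γ : Type} [Group Γ] [Countable Y] [Countable St] {z w : St × FreeGroup Y}
    {of : BG (Option St) (FreeGroup Y) →* Γ} {t : Option R.I → Γ} (h : IsHNN (dataE R z) of t)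
    {γ : Γ} (hγ : γ * of (U none) * γ⁻¹ = of (U (some w))) : R.Rel z w := by
  classical
  have hc : Countable (BG (Option St) (FreeGroup Y)) := by
    have : Function.Injective (fun x : BG (Option St) (FreeGroup Y) => (x.left, x.right)) := by
      intro x y hxy
      exact SemidirectProduct.ext (congrArg Prod.fst hxy) (congrArg Prod.snd hxy)
    have i1 : Countable (FreeGroup Y) := by
      have : Function.Surjective (FreeGroup.mk : List (Y × Bool) → FreeGroup Y) := Quot.mk_surjective
      exact this.countable
    have i2 : Countable (FreeGroup (Option St × FreeGroup Y)) := by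
      have : Function.Surjective (FreeGroup.mk : List ((Option St × FreeGroup Y) × Bool) →
        FreeGroup (Option St × FreeGroup Y)) := Quot.mk_surjective
      exact this.countable
    exact this.countable
  have key := conj_induct h (fun v _ => ∃ g u, v = g * U u * g⁻¹ ∧
      (u = none ∨ ∃ w', u = some w' ∧ R.Rel z w')) ?_ ?_ (u := U none) (v := U (some w))
      ⟨1, none, by simp, Or.inl rfl⟩ hγ
  · obtain ⟨g, u, h1, h2⟩ := key
    have h3 := U_conj_eq h1
    rcases h2 with h2 | ⟨w', h2, h4⟩
    · rw [h2] at h3; simp at h3
    · rw [h2] at h3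
      rw [← Option.some.inj h3]; exact h4
  · rintro g u γ ⟨g', u', rfl, h1⟩
    exact ⟨g * g', u', by group, h1⟩
  · rintro ⟨o, b⟩ k γ' ⟨g, u, h1, h2⟩
    cases o with
    | none =>
      -- the exponent is one
      let k0 : Multiplicative ℤ := k
      have h3 : k0 = Multiplicative.ofAdd 1 := by
        have h4 := congrArg chi h1
        have h5 : chi (g * U u * g⁻¹) = Multiplicative.ofAdd 1 := by
          rw [map_mul, map_mul, chi_U]; simp
        rw [h5] at h4
        have h6 : (dataE R z).j none b k =
          (if b then U none else U (some z)) ^ (Multiplicative.toAdd k0) := rfl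
        change chi ((dataE R z).j none b k) = _ at h4
        rw [h6, map_zpow] at h4
        have h7 : chi (if b then U none else U (some z) : BG (Option St) (FreeGroup Y)) =
          Multiplicative.ofAdd 1 := by
          cases b
          · exact chi_U (some z)
          · exact chi_U none
        rw [h7, ← ofAdd_zsmul] at h4
        have h8 := Multiplicative.ofAdd.injective h4
        simp only [smul_eq_mul, mul_one] at h8
        rw [← h8]; rfl
      have h9 : (dataE R z).j none (!b) k = if (!b) then U none else U (some z) := by
        have h6 : (dataE R z).j none (!b) k =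
          (if (!b) then U none else U (some z)) ^ (Multiplicative.toAdd k0) :=
            rfl
        rw [h6, h3]
        simp
      change ∃ g u, (dataE R z).j none (!b) k = g * U u * g⁻¹ ∧ _
      rw [h9]
      cases b
      · exact ⟨1, none, by simp, Or.inl rfl⟩
      · exact ⟨1, some z, by simp, Or.inr ⟨z, rfl, Relation.EqvGen.refl _⟩⟩
    | some i =>
      obtain ⟨x', k', hx, hk⟩ := claim R i b k g u h1
      have h3 : (dataE R z).j (some i) (!b) k = R.jj i (!b) x' * R.jj i (!b) k' *
          (R.jj i (!b) x')⁻¹ := by
        change R.jj i (!b) k = _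
        rw [hx]; simp
      refine ⟨R.jj i (!b) x', ?_⟩
      rcases hk with ⟨hu, hk⟩ | ⟨y, hu, hk⟩
      · refine ⟨none, ?_, Or.inl rfl⟩
        change (dataE R z).j (some i) (!b) k = _
        rw [h3, hk, Rules.jj_false]; rfl
      · refine ⟨some (R.node i (!b) y), ?_, Or.inr ⟨_, rfl, ?_⟩⟩
        · change (dataE R z).j (some i) (!b) k = _
          rw [h3, hk, map_mul, Rules.jj_false, Rules.jj_true]; rfl
        · rcases h2 with h2 | ⟨w', h2, h4⟩
          · rw [h2] at hu; simp at hu
          · rw [h2] at hu
            have h5 := Option.some.inj hu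
            subst h5
            refine Relation.EqvGen.trans _ _ _ h4 ?_
            cases b
            · exact Relation.EqvGen.symm _ _ (Relation.EqvGen.rel _ _ ⟨i, y, rfl, rfl⟩)
            · exact Relation.EqvGen.rel _ _ ⟨i, y, rfl, rfl⟩

end U

end Pool.Agent.W382.Iso
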