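import Mathlib
import Pool.Agent.W382.Iso.Base

set_option autoImplicit false

/-! The torsion gadget. -/

namespace Pool.Agent.W382.Iso

open SemidirectProduct

section ext

variable {G : Type} [Group G] {I : Type} {D : Data G I} {Γ : Type} [Group Γ]
    {of : G →* Γ} {t : I → Γ}

theorem IsHNN.hom_ext (h : IsHNN D of t) {H : Type} [Group H] {f g : Γ →* H}
    (h1 : ∀ x, f (of x) = g (of x)) (h2 : ∀ i, f (t i) = g (t i)) : f = g := by
  refine MonoidHom.eq_of_eqOn_dense (s := Set.range of ∪ Set.range t) h.gen ?_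
  rintro _ (⟨x, rfl⟩ | ⟨i, rfl⟩)
  · exact h1 x
  · exact h2 i

theorem IsHNN.equiv (h : IsHNN D of t) {Γ' : Type} [Group Γ'] {of' : G →* Γ'} {t' : I → Γ'}
    (h' : IsHNN D of' t') : Nonempty (Γ ≃* Γ') := by
  obtain ⟨F, hF1, hF2⟩ := h.lift Γ' of' t' h'.rel
  obtain ⟨F', hF1', hF2'⟩ := h'.lift Γ of t h.rel
  refine ⟨MonoidHom.toMulEquiv F F' ?_ ?_⟩
  · exact h.hom_ext (by simp [hF1, hF1']) (by simp [hF2, hF2'])
  · exact h'.hom_ext (by simp [hF1, hF1']) (by simp [hF2, hF2'])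

/-- transport of the data along an injective homomorphism -/
def Data.map {G' : Type} [Group G'] (D : Data G I) (κ : G →* G') (hκ : Function.Injective κ) :
    Data G' I where
  K := D.K
  grp := D.grp
  j i b := κ.comp (D.j i b)
  inj i b := hκ.comp (D.inj i b)

theorem IsHNN.countable [Countable G] [Countable I] (h : IsHNN D of t) : Countable Γ := by
  have h1 : Function.Surjective (fun p : G × List ((I × Bool) × G) => of p.1 * pr of t p.2) := by
    intro γ
    obtain ⟨g, w, -, hw⟩ := exists_red h γ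
    exact ⟨(g, w), hw.symm⟩
  exact h1.countable

end ext

section Q

/-- the parameters of the torsion gadget: distinct primes at least 5 -/
structure Primes (A : Type) [Fintype A] where
  p : A → ℕ
  prime : ∀ a, (p a).Prime
  five : ∀ a, 5 ≤ p a
  inj : Function.Injective p

variable {A : Type} [Fintype A] (ϖ : Primes A)

/-- the order of the finite cyclic group -/
def Primes.m : ℕ := ∏ a, ϖ.p a

theorem Primes.m_pos : 0 < ϖ.m := Finset.prod_pos fun a _ => (ϖ.prime a).pos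

theorem Primes.dvd (a : A) : ϖ.p a ∣ ϖ.m := Finset.dvd_prod_of_mem _ (Finset.mem_univ a)

/-- the finite cyclic group -/
abbrev Primes.Q : Type := Multiplicative (ZMod ϖ.m)

/-- its generator -/
def Primes.beta : ϖ.Q := Multiplicative.ofAdd 1

theorem Primes.exists_pow (q : ϖ.Q) : ∃ k : ℕ, q = ϖ.beta ^ k := by
  have : NeZero ϖ.m := ⟨ϖ.m_pos.ne'⟩
  refine ⟨(Multiplicative.toAdd q).val, ?_⟩
  unfold Primes.beta
  rw [← ofAdd_nsmul]
  simp only [nsmul_eq_mul, mul_one, ZMod.natCast_val, ZMod.cast_id', id_eq]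
  rfl

theorem Primes.beta_pow_eq_one (k : ℕ) : ϖ.beta ^ k = 1 ↔ ϖ.m ∣ k := by
  unfold Primes.beta
  rw [← ofAdd_nsmul, ofAdd_eq_one]
  simp only [nsmul_eq_mul, mul_one]
  exact ZMod.natCast_eq_zero_iff k ϖ.m

theorem Primes.pow_m (q : ϖ.Q) : q ^ ϖ.m = 1 := by
  obtain ⟨k, rfl⟩ := ϖ.exists_pow q
  rw [← pow_mul, ϖ.beta_pow_eq_one]
  exact dvd_mul_left _ _

/-- homomorphisms out of the cyclic group -/
theorem Primes.exists_hom {M : Type} [Group M] (x : M) (hx : x ^ ϖ.m = 1) :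
    ∃ φ : ϖ.Q →* M, φ ϖ.beta = x := by
  let f : ℤ →+ Additive M := (zmultiplesHom (Additive M)) (Additive.ofMul x)
  have hf : f (ϖ.m : ℤ) = 0 := by
    simp only [f, zmultiplesHom_apply, natCast_zsmul]
    rw [← ofMul_pow, hx]; rfl
  let g : ZMod ϖ.m →+ Additive M := ZMod.lift ϖ.m ⟨f, hf⟩
  have h1 : g 1 = Additive.ofMul x := by
    have := ZMod.lift_coe ϖ.m ⟨f, hf⟩ 1
    simpa [f] using this
  refine ⟨{ toFun := fun q => Additive.toMul (g (Multiplicative.toAdd q))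
            map_one' := by
              change Additive.toMul (g 0) = 1
              rw [map_zero]; rfl
            map_mul' := fun a b => by
              change Additive.toMul (g (Multiplicative.toAdd a + Multiplicative.toAdd b)) = _
              rw [map_add]; rfl }, ?_⟩
  change Additive.toMul (g 1) = x
  rw [h1]; rfl

theorem Primes.Q_hom_ext {M : Type} [Group M] {f g : ϖ.Q →* M} (h : f ϖ.beta = g ϖ.beta) :
    f = g := by
  refine MonoidHom.ext fun q => ?_
  obtain ⟨k, rfl⟩ := ϖ.exists_pow q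
  rw [map_pow, map_pow, h]

/-- the generator of the subgroup of order `ϖ.p a` -/
def Primes.bt (a : A) : ϖ.Q := ϖ.beta ^ (ϖ.m / ϖ.p a)

/-- the subgroup of order `ϖ.p a` -/
def Primes.S (a : A) : Subgroup ϖ.Q := Subgroup.zpowers (ϖ.bt a)

theorem Primes.bt_pow (a : A) : ϖ.bt a ^ ϖ.p a = 1 := by
  unfold Primes.bt
  rw [← pow_mul, Nat.div_mul_cancel (ϖ.dvd a), ϖ.beta_pow_eq_one]

theorem Primes.mem_S_iff (a : A) (q : ϖ.Q) : q ∈ ϖ.S a ↔ q ^ ϖ.p a = 1 := by
  constructor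
  · rintro ⟨k, rfl⟩
    simp only
    rw [← zpow_natCast, ← zpow_mul, mul_comm, zpow_mul, zpow_natCast, ϖ.bt_pow, one_zpow]
  · intro h
    obtain ⟨k, rfl⟩ := ϖ.exists_pow q
    rw [← pow_mul, ϖ.beta_pow_eq_one] at h
    have h1 : ϖ.m / ϖ.p a ∣ k := by
      obtain ⟨c, hc⟩ := h
      have h2 := ϖ.dvd a
      refine ⟨c, ?_⟩
      have h3 : ϖ.p a * k = ϖ.p a * (ϖ.m / ϖ.p a * c) := by
        rw [← mul_assoc, Nat.mul_div_cancel' h2, ← hc, mul_comm]
      exact Nat.eq_of_mul_eq_mul_left (ϖ.prime a).pos h3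
    obtain ⟨c, rfl⟩ := h1
    refine ⟨c, ?_⟩
    simp only [zpow_natCast]
    unfold Primes.bt
    rw [← pow_mul]

theorem Primes.S_inter {a b : A} {q : ϖ.Q} (ha : q ∈ ϖ.S a) (hb : q ∈ ϖ.S b) (hq : q ≠ 1) :
    a = b := by
  rw [ϖ.mem_S_iff] at ha hb
  by_contra hne
  have h1 : Nat.Coprime (ϖ.p a) (ϖ.p b) :=
    (Nat.coprime_primes (ϖ.prime a) (ϖ.prime b)).2 (fun h => hne (ϖ.inj h))
  have h2 : orderOf q ∣ 1 := by
    rw [← h1]
    exact Nat.dvd_gcd (orderOf_dvd_of_pow_eq_one ha) (orderOf_dvd_of_pow_eq_one hb)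
  exact hq (orderOf_eq_one_iff.1 (Nat.dvd_one.1 h2))

/-- powers coprime to the prime do not vanish -/
theorem Primes.pow_ne_one {a : A} {q : ϖ.Q} (ha : q ∈ ϖ.S a) (hq : q ≠ 1) {k : ℕ}
    (hk : ¬ ϖ.p a ∣ k) : q ^ k ≠ 1 := by
  rw [ϖ.mem_S_iff] at ha
  intro h
  have h1 : Nat.Coprime (ϖ.p a) k := (Nat.Prime.coprime_iff_not_dvd (ϖ.prime a)).2 hk
  have h2 : orderOf q ∣ 1 := by
    rw [← h1]
    exact Nat.dvd_gcd (orderOf_dvd_of_pow_eq_one ha) (orderOf_dvd_of_pow_eq_one h)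
  exact hq (orderOf_eq_one_iff.1 (Nat.dvd_one.1 h2))

theorem Primes.not_dvd_two_pow (a : A) (k : ℕ) : ¬ ϖ.p a ∣ 2 ^ k := by
  intro h
  have h1 := (ϖ.prime a).dvd_of_dvd_pow h
  have h2 := Nat.le_of_dvd (by norm_num) h1
  have := ϖ.five a
  omega

theorem Primes.not_dvd_three (a : A) (k : ℕ) : ¬ ϖ.p a ∣ 3 * 2 ^ k := by
  intro h
  rcases ((ϖ.prime a).dvd_mul).1 h with h1 | h1
  · have h2 := Nat.le_of_dvd (by norm_num) h1
    have := ϖ.five a
    omega
  · exact ϖ.not_dvd_two_pow a k h1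

/-- the data of the gadget -/
def dataV : Data ϖ.Q A where
  K a := ϖ.S a
  grp a := inferInstance
  j a b := if b then (ϖ.S a).subtype else (powMonoidHom 2).comp (ϖ.S a).subtype
  inj a b := by
    cases b
    · simp only [Bool.false_eq_true, if_false]
      rw [injective_iff_map_eq_one]
      intro x hx
      by_contra hne
      have h1 : (x : ϖ.Q) ≠ 1 := by
        intro h; exact hne (Subtype.ext h)
      have h2 := ϖ.pow_ne_one x.2 h1 (k := 2) (by simpa using ϖ.not_dvd_two_pow a 1)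
      exact h2 hx
    · simp only [if_true]
      exact Subtype.val_injective

theorem dataV_true (a : A) (k : ϖ.S a) : (dataV ϖ).j a true k = (k : ϖ.Q) := rfl

theorem dataV_false (a : A) (k : ϖ.S a) : (dataV ϖ).j a false k = (k : ϖ.Q) ^ 2 := rfl

end Q

end Pool.Agent.W382.Iso
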