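import Mathlib
import Pool.Agent.W382.Iso.Gadget

set_option autoImplicit false
set_option linter.unusedSectionVars false
set_option linter.unusedVariables false

/-! Rigidity: isomorphisms between the groups `P x` and `P y` and the rules. -/

namespace Pool.Agent.W382.Iso

open SemidirectProduct

section V

variable {St Y : Type} [Fintype St] [Fintype Y] (ϖ : Primes (Y ⊕ Option St))

/-- the vertex group -/
abbrev VV : Type := HNN (dataV ϖ)

/-- the torsion subgroup -/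
def vq : ϖ.Q →* VV ϖ := hnnOf (dataV ϖ)

/-- the generators -/
def vt : Y ⊕ Option St → VV ϖ := hnnT (dataV ϖ)

theorem v_isHNN : IsHNN (dataV ϖ) (vq ϖ) (vt ϖ) := hnn_isHNN _

instance : Countable ϖ.Q := by
  have : NeZero ϖ.m := ⟨ϖ.m_pos.ne'⟩
  exact inferInstanceAs (Countable (ZMod ϖ.m))

instance : Finite ϖ.Q := by
  have : NeZero ϖ.m := ⟨ϖ.m_pos.ne'⟩
  exact inferInstanceAs (Finite (ZMod ϖ.m))

instance : Countable (VV ϖ) := (v_isHNN ϖ).countable

theorem vq_injective : Function.Injective (vq ϖ) := of_injective (v_isHNN ϖ)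

/-- the embedding of the base group -/
def kap : BG (Option St) (FreeGroup Y) →* VV ϖ :=
  bgLift (FreeGroup.lift fun y => vt ϖ (Sum.inl y)) (fun o => vt ϖ (Sum.inr o))

/-- the images of the generators -/
def ee : Y ⊕ Option St → BG (Option St) (FreeGroup Y)
  | Sum.inl y => inr (FreeGroup.of y)
  | Sum.inr o => el o 1

theorem kap_ee (g : Y ⊕ Option St) : kap ϖ (ee g) = vt ϖ g := by
  cases g <;> simp [kap, ee]

theorem exists_rho : ∃ ρ : VV ϖ →* BG (Option St) (FreeGroup Y),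
    (∀ q, ρ (vq ϖ q) = 1) ∧ ∀ g, ρ (vt ϖ g) = ee g := by
  refine (v_isHNN ϖ).lift _ 1 ee ?_
  intro i k
  simp

/-- the retraction -/
noncomputable def rho : VV ϖ →* BG (Option St) (FreeGroup Y) := (exists_rho ϖ).choose

@[simp] theorem rho_vq (q : ϖ.Q) : rho ϖ (vq ϖ q) = 1 := (exists_rho ϖ).choose_spec.1 q

@[simp] theorem rho_vt (g : Y ⊕ Option St) : rho ϖ (vt ϖ g) = ee g :=
  (exists_rho ϖ).choose_spec.2 g

theorem ee_hom_ext {M : Type} [Group M] {f g : BG (Option St) (FreeGroup Y) →* M}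
    (h : ∀ a, f (ee a) = g (ee a)) : f = g := by
  refine bg_hom_ext (fun b => h (Sum.inr b)) ?_
  have h1 : f.comp inr = g.comp inr := by
    ext y
    exact h (Sum.inl y)
  exact fun v => DFunLike.congr_fun h1 v

theorem rho_kap (x : BG (Option St) (FreeGroup Y)) : rho ϖ (kap ϖ x) = x := by
  have h : (rho ϖ).comp (kap ϖ) = MonoidHom.id _ := by
    refine ee_hom_ext fun a => ?_
    simp [kap_ee]
  exact DFunLike.congr_fun h x

theorem kap_injective : Function.Injective (kap ϖ) :=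
  Function.LeftInverse.injective (rho_kap ϖ)

/-- total exponent -/
def tot : BG (Option St) (FreeGroup Y) →* Multiplicative ℤ :=
  bgLift (FreeGroup.lift fun _ => Multiplicative.ofAdd 1) (fun _ => Multiplicative.ofAdd 1)

theorem tot_ee (g : Y ⊕ Option St) :
    tot (ee g : BG (Option St) (FreeGroup Y)) = Multiplicative.ofAdd 1 := by
  cases g <;> simp [tot, ee]

theorem ee_zpow {g : Y ⊕ Option St} {n : ℤ}
    (h : (ee g : BG (Option St) (FreeGroup Y)) ^ n = ee g) : n = 1 := by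
  have h1 := congrArg tot h
  rw [map_zpow, tot_ee, ← ofAdd_zsmul] at h1
  have h2 := Multiplicative.ofAdd.injective h1
  simpa using h2

instance countableBG {B : Type} {X : Type} [Countable B] [Countable X] :
    Countable (BG B (FreeGroup X)) := by
  have : Function.Injective (fun x : BG B (FreeGroup X) => (x.left, x.right)) := by
    intro x y hxy
    exact SemidirectProduct.ext (congrArg Prod.fst hxy) (congrArg Prod.snd hxy)
  have i1 : Countable (FreeGroup X) := by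
    have : Function.Surjective (FreeGroup.mk : List (X × Bool) → FreeGroup X) := Quot.mk_surjective
    exact this.countable
  have i2 : Countable (FreeGroup (B × FreeGroup X)) := by
    have : Function.Surjective (FreeGroup.mk : List ((B × FreeGroup X) × Bool) →
      FreeGroup (B × FreeGroup X)) := Quot.mk_surjective
    exact this.countable
  exact this.countable

variable (R : Rules St Y)

/-- the data of `P z` -/
def dataP (z : St × FreeGroup Y) : Data (VV ϖ) (Option R.I) :=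
  (dataE R z).map (kap ϖ) (kap_injective ϖ)

variable {R} {ϖ}
variable {z : St × FreeGroup Y} {Γ : Type} [Group Γ] {of : VV ϖ →* Γ} {t : Option R.I → Γ}

theorem exists_pi (h : IsHNN (dataP ϖ R z) of t) :
    ∃ π : Γ →* HNN (dataE R z), (∀ v, π (of v) = hnnOf (dataE R z) (rho ϖ v)) ∧
      ∀ o, π (t o) = hnnT (dataE R z) o := by
  refine h.lift _ ((hnnOf (dataE R z)).comp (rho ϖ)) (hnnT (dataE R z)) ?_
  intro o k
  have h1 := (hnn_isHNN (dataE R z)).rel o k
  have h2 : ∀ b, rho ϖ ((dataP ϖ R z).j o b k) = (dataE R z).j o b k := fun b => rho_kap ϖ _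
  simp only [MonoidHom.comp_apply]
  rw [h2, h2]
  exact h1

theorem exists_sig (h : IsHNN (dataP ϖ R z) of t) :
    ∃ σ : HNN (dataE R z) →* Γ, (∀ x, σ (hnnOf (dataE R z) x) = of (kap ϖ x)) ∧
      ∀ o, σ (hnnT (dataE R z) o) = t o :=
  (hnn_isHNN (dataE R z)).lift _ (of.comp (kap ϖ)) t (fun o k => h.rel o k)

theorem factor (h : IsHNN (dataP ϖ R z) of t) {M : Type} [Group M] (Ψ : Γ →* M)
    (hΨ : ∀ q, Ψ (of (vq ϖ q)) = 1) (v : VV ϖ) : Ψ (of v) = Ψ (of (kap ϖ (rho ϖ v))) := by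
  have h1 : Ψ.comp of = (Ψ.comp of).comp ((kap ϖ).comp (rho ϖ)) := by
    refine (v_isHNN ϖ).hom_ext ?_ ?_
    · intro q
      simp [hΨ]
    · intro g
      simp [kap_ee]
  exact DFunLike.congr_fun h1 v

/-- conjugations of torsion elements happen in the vertex group -/
theorem conj_base (h : IsHNN (dataP ϖ R z) of t) {u w : ϖ.Q} (hu : u ≠ 1) {γ : Γ}
    (hγ : γ * of (vq ϖ u) * γ⁻¹ = of (vq ϖ w)) :
    ∃ v, γ = of v ∧ v * vq ϖ u * v⁻¹ = vq ϖ w := by
  have key := conj_induct h (fun v γ' => ∃ v0, γ' = of v0 ∧ v = v0 * vq ϖ u * v0⁻¹) ?_ ?_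
    (u := vq ϖ u) (v := vq ϖ w) (γ := γ) ⟨1, by simp, by simp⟩ hγ
  · obtain ⟨v0, h1, h2⟩ := key
    exact ⟨v0, h1, h2.symm⟩
  · rintro g v γ' ⟨v0, rfl, rfl⟩
    exact ⟨g * v0, by simp, by group⟩
  · rintro ⟨o, b⟩ k γ' ⟨v0, rfl, h1⟩
    exfalso
    have h2 : rho ϖ ((dataP ϖ R z).j o b k) = (dataE R z).j o b k := rho_kap ϖ _
    have h3 := congrArg (rho ϖ) h1
    simp only [map_mul, rho_vq, mul_one, map_inv, mul_inv_cancel] at h3
    rw [h2] at h3
    have h4 : (dataP ϖ R z).j o b k = 1 := by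
      change kap ϖ ((dataE R z).j o b k) = 1
      rw [h3, map_one]
    change (dataP ϖ R z).j o b k = _ at h1
    rw [h4] at h1
    have h5 : vq ϖ u = 1 := by
      have : vq ϖ u = v0⁻¹ * (v0 * vq ϖ u * v0⁻¹) * v0 := by group
      rw [this, ← h1]; simp
    rw [← map_one (vq ϖ)] at h5
    exact hu (vq_injective ϖ h5)

/-- conjugations of torsion elements in the vertex group -/
theorem conj_V {g : Y ⊕ Option St} {u w : ϖ.Q} (hS : u ∈ ϖ.S g) (hu : u ≠ 1) {v : VV ϖ}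
    (hv : v * vq ϖ u * v⁻¹ = vq ϖ w) :
    ∃ (n : ℤ) (a b : ℕ), rho ϖ v = ee g ^ n ∧ n = a - b ∧ w ∈ ϖ.S g ∧
      w ^ 2 ^ b = u ^ 2 ^ a := by
  refine conj_induct (v_isHNN ϖ) (fun q v' => ∃ (n : ℤ) (a b : ℕ), rho ϖ v' = ee g ^ n ∧
    n = a - b ∧ q ∈ ϖ.S g ∧ q ^ 2 ^ b = u ^ 2 ^ a) ?_ ?_ (u := u) (v := w) (γ := v)
    ⟨0, 0, 0, by simp, by simp, hS, by simp⟩ hv
  · rintro q' q v' ⟨n, a, b, h1, h2, h3, h4⟩
    have h5 : q' * q * q'⁻¹ = q := by
      rw [mul_comm q' q]; simp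
    rw [h5]
    exact ⟨n, a, b, by simp [h1], h2, h3, h4⟩
  · rintro ⟨g', bit⟩ k v' ⟨n, a, b, h1, h2, h3, h4⟩
    let kk : ϖ.S g' := k
    have hne : (dataV ϖ).j g' bit k ≠ 1 := by
      intro h5
      change (dataV ϖ).j g' bit k ^ 2 ^ b = _ at h4
      rw [h5, one_pow] at h4
      exact ϖ.pow_ne_one hS hu (ϖ.not_dvd_two_pow g a) h4.symm
    have hk : (kk : ϖ.Q) ∈ ϖ.S g' := kk.2
    cases bit
    · have h5 : ((kk : ϖ.Q)) ^ 2 ∈ ϖ.S g := h3
      have h6 : ((kk : ϖ.Q)) ^ 2 ∈ ϖ.S g' := (ϖ.S g').pow_mem hk 2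
      have h7 := ϖ.S_inter h5 h6 hne
      subst h7
      refine ⟨n - 1, a, b + 1, ?_, ?_, hk, ?_⟩
      · simp only [tt, Bool.false_eq_true, if_false, map_mul, map_inv, rho_vt, h1]
        rw [sub_eq_neg_add, zpow_add, zpow_neg_one]
      · rw [h2]; push_cast; ring
      · change (kk : ϖ.Q) ^ 2 ^ (b + 1) = _
        rw [← h4]
        change _ = ((kk : ϖ.Q) ^ 2) ^ 2 ^ b
        rw [← pow_mul, pow_succ']
    · have h5 : ((kk : ϖ.Q)) ∈ ϖ.S g := h3
      have h7 := ϖ.S_inter h5 hk hne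
      subst h7
      refine ⟨n + 1, a + 1, b, ?_, ?_, (ϖ.S g).pow_mem hk 2, ?_⟩
      · simp only [tt, if_true, map_mul, rho_vt, h1]
        rw [add_comm, zpow_add, zpow_one]
      · rw [h2]; push_cast; ring
      · change ((kk : ϖ.Q) ^ 2) ^ 2 ^ b = _
        have h8 : (kk : ϖ.Q) ^ 2 ^ b = u ^ 2 ^ a := h4
        rw [pow_right_comm, h8, ← pow_mul, pow_succ]

theorem conj_sq {g : Y ⊕ Option St} {u : ϖ.Q} (hS : u ∈ ϖ.S g) (hu : u ≠ 1) {v : VV ϖ}
    (hv : v * vq ϖ u * v⁻¹ = vq ϖ (u ^ 2)) : ∃ n : ℤ, rho ϖ v = ee g ^ n ∧ n ≠ -1 := by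
  obtain ⟨n, a, b, h1, h2, -, h4⟩ := conj_V hS hu hv
  refine ⟨n, h1, ?_⟩
  rintro rfl
  have h5 : b = a + 1 := by omega
  subst h5
  have h6 : u ^ (3 * 2 ^ a) = 1 := by
    have h7 : u ^ (3 * 2 ^ a) * u ^ 2 ^ a = 1 * u ^ 2 ^ a := by
      rw [one_mul, ← pow_add]
      rw [← h4, ← pow_mul]
      congr 1
      ring
    exact mul_right_cancel h7
  exact ϖ.pow_ne_one hS hu (ϖ.not_dvd_three g a) h6

end V

end Pool.Agent.W382.Iso
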