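import Mathlib
import Pool.Agent.W382.Iso.Pin

set_option autoImplicit false
set_option linter.unusedSectionVars false
set_option linter.unusedVariables false

/-! Isomorphisms between the groups `P x` and `P y` and the rules. -/

namespace Pool.Agent.W382.Iso

open SemidirectProduct

section V

variable {St Y : Type} [Fintype St] [Fintype Y] {ϖ : Primes (Y ⊕ Option St)} {R : Rules St Y}

theorem Primes.bt_ne_one {A : Type} [Fintype A] (ϖ : Primes A) (a : A) : ϖ.bt a ≠ 1 := by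
  unfold Primes.bt
  rw [Ne, ϖ.beta_pow_eq_one]
  intro h
  have h1 : 0 < ϖ.m / ϖ.p a := Nat.div_pos (Nat.le_of_dvd ϖ.m_pos (ϖ.dvd a)) (ϖ.prime a).pos
  have h2 := Nat.le_of_dvd h1 h
  have h3 : ϖ.m / ϖ.p a < ϖ.m := Nat.div_lt_self ϖ.m_pos (ϖ.prime a).one_lt
  omega

variable {x y : St × FreeGroup Y} {Γ Δ : Type} [Group Γ] [Group Δ] {ofx : VV ϖ →* Γ}
  {tx : Option R.I → Γ} {ofy : VV ϖ →* Δ} {ty : Option R.I → Δ}

theorem adjust (hx : IsHNN (dataP ϖ R x) ofx tx) (hy : IsHNN (dataP ϖ R y) ofy ty)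
    (φ : Γ ≃* Δ) : ∃ (ψ : Γ ≃* Δ) (α : ϖ.Q →* ϖ.Q), Function.Bijective α ∧
      ∀ q, ψ (ofx (vq ϖ q)) = ofy (vq ϖ (α q)) := by
  have h1 : (φ (ofx (vq ϖ ϖ.beta))) ^ ϖ.m = 1 := by
    rw [← map_pow, ← map_pow, ← map_pow, ϖ.pow_m]; simp
  obtain ⟨δ, v, h2, h3⟩ := torsion' hy ϖ.m_pos h1
  obtain ⟨ε, q0, h4, h5⟩ := torsion' (v_isHNN ϖ) ϖ.m_pos h3
  obtain ⟨α, hα⟩ := ϖ.exists_hom q0 (ϖ.pow_m q0)
  let ψ : Γ ≃* Δ := φ.trans (MulAut.conj (δ * ofy ε)⁻¹)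
  have h6 : (ψ.toMonoidHom.comp (ofx.comp (vq ϖ))) = ofy.comp ((vq ϖ).comp α) := by
    refine ϖ.Q_hom_ext ?_
    simp only [MonoidHom.comp_apply, hα]
    change (δ * ofy ε)⁻¹ * φ (ofx (vq ϖ ϖ.beta)) * (δ * ofy ε)⁻¹⁻¹ = _
    rw [h2, h4]
    simp only [map_mul, map_inv]
    group
  have h7 : ∀ q, ψ (ofx (vq ϖ q)) = ofy (vq ϖ (α q)) := fun q => DFunLike.congr_fun h6 q
  have h8 : Function.Injective α := by
    intro a b hab
    have h9 : ψ (ofx (vq ϖ a)) = ψ (ofx (vq ϖ b)) := by rw [h7, h7, hab]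
    exact vq_injective ϖ (of_injective hx (ψ.injective h9))
  exact ⟨ψ, α, Finite.injective_iff_bijective.1 h8, h7⟩

theorem step_pin (hy : IsHNN (dataP ϖ R y) ofy ty) (ψ : Γ →* Δ)
    (α : ϖ.Q →* ϖ.Q) (hα : Function.Injective α)
    (hψ : ∀ q, ψ (ofx (vq ϖ q)) = ofy (vq ϖ (α q))) (g : Y ⊕ Option St) :
    ∃ (n : ℤ) (v : VV ϖ), ψ (ofx (vt ϖ g)) = ofy v ∧ rho ϖ v = ee g ^ n ∧ n ≠ -1 := by
  have hb : ϖ.bt g ∈ ϖ.S g := Subgroup.mem_zpowers _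
  have h1 : vt ϖ g * vq ϖ (ϖ.bt g) = vq ϖ (ϖ.bt g ^ 2) * vt ϖ g :=
    (v_isHNN ϖ).rel g (⟨ϖ.bt g, hb⟩ : ϖ.S g)
  have h2 := congrArg (fun v => ψ (ofx v)) h1
  simp only [map_mul, hψ] at h2
  rw [← mul_inv_eq_iff_eq_mul, map_pow α] at h2
  have hS : α (ϖ.bt g) ∈ ϖ.S g := by
    rw [ϖ.mem_S_iff, ← map_pow, ϖ.bt_pow, map_one]
  have hne : α (ϖ.bt g) ≠ 1 := by
    intro h
    rw [← map_one α] at h
    exact ϖ.bt_ne_one g (hα h)
  obtain ⟨v, h3, h4⟩ := conj_base hy hne h2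
  obtain ⟨n, h5, h6⟩ := conj_sq hS hne h4
  exact ⟨n, v, h3, h5, h6⟩

/-- rigidity -/
theorem rigid (hx : IsHNN (dataP ϖ R x) ofx tx) (hy : IsHNN (dataP ϖ R y) ofy ty)
    (φ : Γ ≃* Δ) : R.Rel x y := by
  obtain ⟨ψ, α, hα, hψ⟩ := adjust hx hy φ
  let ω : ϖ.Q ≃* ϖ.Q := MulEquiv.ofBijective α hα
  have hψ' : ∀ q, ψ.symm (ofy (vq ϖ q)) = ofx (vq ϖ (ω.symm q)) := by
    intro q
    rw [MulEquiv.symm_apply_eq, hψ]
    congr 2
    exact (ω.apply_symm_apply q).symm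
  obtain ⟨πx, hπx, hπx'⟩ := exists_pi hx
  obtain ⟨πy, hπy, hπy'⟩ := exists_pi hy
  have pin : ∀ g, πy (ψ (ofx (vt ϖ g))) = hnnOf (dataE R y) (ee g) := by
    intro g
    obtain ⟨n, v, h1, h2, h3⟩ := step_pin hy ψ.toMonoidHom α hα.1 hψ g
    obtain ⟨n', v', h1', h2', h3'⟩ := step_pin hx ψ.symm.toMonoidHom ω.symm.toMonoidHom
      ω.symm.injective hψ' g
    have h4 : πx (ψ.symm (ψ (ofx (vt ϖ g)))) = hnnOf (dataE R x) (ee g) := by
      rw [MulEquiv.symm_apply_apply, hπx, rho_vt]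
    change ψ (ofx (vt ϖ g)) = ofy v at h1
    change ψ.symm (ofy (vt ϖ g)) = ofx v' at h1'
    have h5 := factor hy (πx.comp ψ.symm.toMonoidHom) (by
      intro q
      change πx (ψ.symm (ofy (vq ϖ q))) = 1
      rw [hψ', hπx, rho_vq, map_one]) v
    change πx (ψ.symm (ofy v)) = πx (ψ.symm (ofy (kap ϖ (rho ϖ v)))) at h5
    rw [← h1, h4, h2, map_zpow, kap_ee, map_zpow, map_zpow, h1', map_zpow, hπx, h2',
      ← map_zpow, ← zpow_mul] at h5
    have h6 := of_injective (hnn_isHNN (dataE R x)) h5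
    have h7 := ee_zpow h6.symm
    have h8 : n = 1 := by
      rcases Int.eq_one_or_neg_one_of_mul_eq_one' h7 with h | h
      · exact h.2
      · exact absurd h.2 h3
    rw [h1, hπy, h2, h8, zpow_one]
  have hF : (πy.comp (ψ.toMonoidHom.comp (ofx.comp (kap ϖ)))) = hnnOf (dataE R y) := by
    refine ee_hom_ext fun g => ?_
    simp only [MonoidHom.comp_apply, kap_ee]
    exact pin g
  have hF' : ∀ u, πy (ψ (ofx (kap ϖ u))) = hnnOf (dataE R y) u :=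
    fun u => DFunLike.congr_fun hF u
  have h1 : tx none * ofx (kap ϖ (U none)) = ofx (kap ϖ (U (some x))) * tx none := by
    have := hx.rel none (Multiplicative.ofAdd (1 : ℤ))
    have h2 : ∀ b, (dataP ϖ R x).j none b (Multiplicative.ofAdd (1 : ℤ)) =
        kap ϖ (if b then U none else U (some x)) := by
      intro b
      change kap ϖ (zpowersHom _ (if b then U none else U (some x)) (Multiplicative.ofAdd (1 : ℤ)))
        = _
      simp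
    rw [h2, h2] at this
    simpa using this
  have h2 := congrArg (fun v => πy (ψ v)) h1
  simp only [map_mul, hF'] at h2
  rw [← mul_inv_eq_iff_eq_mul] at h2
  have h3 := conj_p R (hnn_isHNN (dataE R y)) h2
  exact Relation.EqvGen.symm _ _ h3

end V

end Pool.Agent.W382.Iso
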