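import Mathlib
import Pool.Agent.W382.Iso.Rigid

set_option autoImplicit false
set_option linter.unusedSectionVars false
set_option linter.unusedVariables false

/-! Related configurations give isomorphic groups. -/

namespace Pool.Agent.W382.Iso

open SemidirectProduct

section V

variable {St Y : Type} [Fintype St] [Fintype Y] {ϖ : Primes (Y ⊕ Option St)} {R : Rules St Y}

theorem dataP_none (z : St × FreeGroup Y) (b : Bool) (k : ℤ) :
    (dataP ϖ R z).j none b (Multiplicative.ofAdd k) =
      kap ϖ (if b then U none else U (some z)) ^ k := by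
  change kap ϖ (zpowersHom _ (if b then U none else U (some z)) (Multiplicative.ofAdd k)) = _
  rw [zpowersHom_apply, toAdd_ofAdd, map_zpow]

/-- the relations for all letters from the relations for generators -/
theorem rel_none {z : St × FreeGroup Y} {M : Type} [Group M] {f : VV ϖ →* M} {x : M}
    (h : x * f (kap ϖ (U none)) = f (kap ϖ (U (some z))) * x) (k : (dataP ϖ R z).K none) :
    x * f ((dataP ϖ R z).j none true k) = f ((dataP ϖ R z).j none false k) * x := by
  have h1 : SemiconjBy x (f (kap ϖ (U none))) (f (kap ϖ (U (some z)))) := h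
  have key : ∀ n : ℤ, x * f ((dataP ϖ R z).j none true (Multiplicative.ofAdd n)) =
      f ((dataP ϖ R z).j none false (Multiplicative.ofAdd n)) * x := by
    intro n
    have h2 := h1.zpow_right n
    have h3 := dataP_none (ϖ := ϖ) (R := R) z true n
    have h4 := dataP_none (ϖ := ϖ) (R := R) z false n
    simp only [if_true] at h3
    simp only [Bool.false_eq_true, if_false] at h4
    rw [h3, h4, map_zpow, map_zpow]
    exact h2
  exact key k

theorem rel_none' {z : St × FreeGroup Y} {Γ : Type} [Group Γ] {of : VV ϖ →* Γ}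
    {t : Option R.I → Γ} (h : IsHNN (dataP ϖ R z) of t) :
    t none * of (kap ϖ (U none)) = of (kap ϖ (U (some z))) * t none := by
  have h1 := h.rel none (Multiplicative.ofAdd (1 : ℤ))
  rw [dataP_none, dataP_none] at h1
  simpa using h1

theorem rel_word {a b : St × FreeGroup Y} (hab : R.Rel a b) :
    ∃ A : FreeGroup R.I, ∀ (z : St × FreeGroup Y) (Γ : Type) [Group Γ] (of : VV ϖ →* Γ)
      (t : Option R.I → Γ), IsHNN (dataP ϖ R z) of t →
      FreeGroup.lift (fun i => t (some i)) A * of (kap ϖ (U (some a))) =
        of (kap ϖ (U (some b))) * FreeGroup.lift (fun i => t (some i)) A := by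
  induction hab with
  | rel a b hab =>
    obtain ⟨i, y, rfl, rfl⟩ := hab
    refine ⟨FreeGroup.of i, ?_⟩
    intro z Γ _ of t h
    rw [FreeGroup.lift_apply_of]
    have h1 := h.rel (some i) (show BG Bool (FreeGroup (R.T i)) from el false 1 * el true y)
    have h2 : ∀ b, (dataP ϖ R z).j (some i) b
        (show BG Bool (FreeGroup (R.T i)) from el false 1 * el true y) =
        kap ϖ (U (some (R.node i b y))) := by
      intro b
      change kap ϖ (R.jj i b (el false 1 * el true y)) = _
      rw [map_mul (R.jj i b), Rules.jj_false, Rules.jj_true]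
      rfl
    rw [h2, h2] at h1
    exact h1
  | refl a => exact ⟨1, fun z Γ _ of t h => by simp⟩
  | symm a b _ ih =>
    obtain ⟨A, hA⟩ := ih
    refine ⟨A⁻¹, fun z Γ _ of t h => ?_⟩
    have h1 := hA z Γ of t h
    rw [map_inv, inv_mul_eq_iff_eq_mul, ← mul_assoc, h1]
    simp
  | trans a b c _ _ ih1 ih2 =>
    obtain ⟨A, hA⟩ := ih1
    obtain ⟨B, hB⟩ := ih2
    refine ⟨B * A, fun z Γ _ of t h => ?_⟩
    have h1 := hA z Γ of t h
    have h2 := hB z Γ of t h
    rw [map_mul, mul_assoc, h1, ← mul_assoc, h2, mul_assoc]

variable {x y : St × FreeGroup Y} {Γ Δ : Type} [Group Γ] [Group Δ] {ofx : VV ϖ →* Γ}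
  {tx : Option R.I → Γ} {ofy : VV ϖ →* Δ} {ty : Option R.I → Δ}

theorem iso_of_rel (hx : IsHNN (dataP ϖ R x) ofx tx) (hy : IsHNN (dataP ϖ R y) ofy ty)
    (h : R.Rel x y) : Nonempty (Γ ≃* Δ) := by
  obtain ⟨A, hA⟩ := rel_word (ϖ := ϖ) h
  have hAx := hA x Γ ofx tx hx
  have hAy := hA y Δ ofy ty hy
  have hnx := rel_none' hx
  have hny := rel_none' hy
  obtain ⟨F, hF1, hF2⟩ := hx.lift Δ ofy (fun o => match o with
    | none => (FreeGroup.lift (fun i => ty (some i)) A)⁻¹ * ty none
    | some i => ty (some i)) (by
      intro o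
      cases o with
      | none =>
        refine rel_none ?_
        rw [mul_assoc, hny, ← mul_assoc, ← mul_assoc]
        congr 1
        rw [inv_mul_eq_iff_eq_mul, ← mul_assoc, hAy]
        simp
      | some i => exact hy.rel (some i))
  obtain ⟨F', hF1', hF2'⟩ := hy.lift Γ ofx (fun o => match o with
    | none => (FreeGroup.lift (fun i => tx (some i)) A) * tx none
    | some i => tx (some i)) (by
      intro o
      cases o with
      | none =>
        refine rel_none ?_
        rw [mul_assoc, hnx, ← mul_assoc, ← mul_assoc, hAx]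
      | some i => exact hx.rel (some i))
  have e1 : F (FreeGroup.lift (fun i => tx (some i)) A) =
      FreeGroup.lift (fun i => ty (some i)) A := by
    have : F.comp (FreeGroup.lift (fun i => tx (some i))) =
        FreeGroup.lift (fun i => ty (some i)) := by
      ext i
      simp [hF2]
    exact DFunLike.congr_fun this A
  have e2 : F' (FreeGroup.lift (fun i => ty (some i)) A) =
      FreeGroup.lift (fun i => tx (some i)) A := by
    have : F'.comp (FreeGroup.lift (fun i => ty (some i))) =
        FreeGroup.lift (fun i => tx (some i)) := by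
      ext i
      simp [hF2']
    exact DFunLike.congr_fun this A
  refine ⟨MonoidHom.toMulEquiv F F' ?_ ?_⟩
  · refine hx.hom_ext (by simp [hF1, hF1']) ?_
    intro o
    cases o with
    | none => simp [hF2, e2, hF2']
    | some i => simp [hF2, hF2']
  · refine hy.hom_ext (by simp [hF1, hF1']) ?_
    intro o
    cases o with
    | none => simp [hF2, e1, hF2']
    | some i => simp [hF2, hF2']

/-- the group `P x` determines and is determined by the class of `x` -/
theorem iso_iff (hx : IsHNN (dataP ϖ R x) ofx tx) (hy : IsHNN (dataP ϖ R y) ofy ty) :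
    Nonempty (Γ ≃* Δ) ↔ R.Rel x y :=
  ⟨fun ⟨φ⟩ => rigid hx hy φ, iso_of_rel hx hy⟩

end V

end Pool.Agent.W382.Iso
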