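import Mathlib
import Pool.Agent.W382.Iso.Conv

set_option autoImplicit false
set_option linter.unusedSectionVars false
set_option linter.unusedVariables false

/-! Presentations of the groups. -/

namespace Pool.Agent.W382.Iso

open SemidirectProduct

section

variable {St Y : Type} [Fintype St] [Fintype Y] (ϖ : Primes (Y ⊕ Option St)) (R : Rules St Y)

/-- the generators -/
abbrev GG : Type := Option (Y ⊕ Option St) ⊕ Option R.I

/-- the torsion generator -/
def gb : FreeGroup (GG R) := FreeGroup.of (Sum.inl none)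

/-- the generators of the vertex group -/
def gf (a : Y ⊕ Option St) : FreeGroup (GG R) := FreeGroup.of (Sum.inl (some a))

/-- the letters of the rules -/
def gr (o : Option R.I) : FreeGroup (GG R) := FreeGroup.of (Sum.inr o)

/-- the base group in the free group -/
def kz : BG (Option St) (FreeGroup Y) →* FreeGroup (GG R) :=
  bgLift (FreeGroup.lift fun y => gf R (Sum.inl y)) (fun o => gf R (Sum.inr o))

theorem kz_ee (a : Y ⊕ Option St) : kz R (ee a) = gf R a := by
  cases a <;> simp [kz, ee]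

/-- generators of the parameter groups -/
def kk {T : Type} : T ⊕ Bool → BG Bool (FreeGroup T)
  | Sum.inl y => inr (FreeGroup.of y)
  | Sum.inr b => el b 1

theorem kk_hom_ext {T : Type} {M : Type} [Group M] {f g : BG Bool (FreeGroup T) →* M}
    (h : ∀ a, f (kk a) = g (kk a)) : f = g := by
  refine bg_hom_ext (fun b => h (Sum.inr b)) ?_
  have h1 : f.comp inr = g.comp inr := by
    ext y
    exact h (Sum.inl y)
  exact fun v => DFunLike.congr_fun h1 v

/-- the fixed relators -/
def rel0 : Set (FreeGroup (GG R)) :=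
  {gb R ^ ϖ.m} ∪
  (Set.range (fun a => gf R a * gb R ^ (ϖ.m / ϖ.p a) * (gf R a)⁻¹ *
    (gb R ^ (ϖ.m / ϖ.p a * 2))⁻¹) ∪
  Set.range (fun x : (i : R.I) × (R.T i ⊕ Bool) => gr R (some x.1) *
    kz R (R.jj x.1 true (kk x.2)) * (gr R (some x.1))⁻¹ * (kz R (R.jj x.1 false (kk x.2)))⁻¹))

/-- the last relator -/
def last (z : St × FreeGroup Y) : FreeGroup (GG R) :=
  gr R none * kz R (U none) * (gr R none)⁻¹ * (kz R (U (some z)))⁻¹

/-- the relators -/
def rels (z : St × FreeGroup Y) : Set (FreeGroup (GG R)) := insert (last R z) (rel0 ϖ R)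

theorem rel0_finite [Finite R.I] [∀ i, Finite (R.T i)] : (rel0 ϖ R).Finite := by
  refine Set.Finite.union (Set.finite_singleton _) (Set.Finite.union (Set.finite_range _)
    (Set.finite_range _))

variable {ϖ R} {z : St × FreeGroup Y}

theorem pres_of {G : Type} [Group G] (F : FreeGroup (GG R) →* G)
    (hF : ∀ r ∈ rels ϖ R z, F r = 1) : ∃ of : VV ϖ →* G,
    of (vq ϖ ϖ.beta) = F (gb R) ∧ ∀ a, of (vt ϖ a) = F (gf R a) := by
  have h1 : F (gb R) ^ ϖ.m = 1 := by
    rw [← map_pow]
    exact hF _ (Set.mem_insert_of_mem _ (Or.inl rfl))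
  obtain ⟨θ, hθ⟩ := ϖ.exists_hom _ h1
  have h2 : ∀ a, SemiconjBy (F (gf R a)) (θ (ϖ.bt a)) (θ (ϖ.bt a ^ 2)) := by
    intro a
    have h3 := hF _ (Set.mem_insert_of_mem _ (Or.inr (Or.inl ⟨a, rfl⟩)))
    simp only [map_mul, map_inv, map_pow] at h3
    rw [mul_inv_eq_one, mul_inv_eq_iff_eq_mul] at h3
    unfold SemiconjBy Primes.bt
    rw [← pow_mul, map_pow, map_pow, hθ]
    exact h3
  obtain ⟨of, hof1, hof2⟩ := (v_isHNN ϖ).lift G θ (fun a => F (gf R a)) (by
    intro a k
    let k' : ϖ.S a := k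
    obtain ⟨n, hn⟩ := k'.2
    have h3 := (h2 a).zpow_right n
    have e1 : (dataV ϖ).j a true k = ϖ.bt a ^ n := hn.symm
    have e2 : (dataV ϖ).j a false k = (ϖ.bt a ^ 2) ^ n := by
      change (k' : ϖ.Q) ^ 2 = _
      rw [← hn]
      simp only
      rw [← zpow_natCast, ← zpow_natCast, ← zpow_mul, ← zpow_mul, mul_comm]
    rw [e1, e2, map_zpow, map_zpow]
    exact h3)
  refine ⟨of, ?_, hof2⟩
  rw [hof1, hθ]

theorem pres_kap {G : Type} [Group G] {F : FreeGroup (GG R) →* G} {of : VV ϖ →* G}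
    (h : ∀ a, of (vt ϖ a) = F (gf R a)) (u : BG (Option St) (FreeGroup Y)) :
    of (kap ϖ u) = F (kz R u) := by
  have h1 : of.comp (kap ϖ) = F.comp (kz R) := by
    refine ee_hom_ext fun a => ?_
    simp only [MonoidHom.comp_apply, kap_ee, kz_ee, h]
  exact DFunLike.congr_fun h1 u

theorem pres_isHNN (z : St × FreeGroup Y) :
    ∃ (of : VV ϖ →* PresentedGroup (rels ϖ R z)) (t : Option R.I → PresentedGroup (rels ϖ R z)),
      IsHNN (dataP ϖ R z) of t := by
  let F : FreeGroup (GG R) →* PresentedGroup (rels ϖ R z) := PresentedGroup.mk _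
  have hF : ∀ r ∈ rels ϖ R z, F r = 1 := fun r hr => PresentedGroup.one_of_mem hr
  obtain ⟨of, hof1, hof2⟩ := pres_of F hF
  have hk := pres_kap hof2
  refine ⟨of, fun o => F (gr R o), ?_⟩
  constructor
  · intro o
    cases o with
    | none =>
      refine rel_none ?_
      rw [hk, hk]
      have h3 := hF _ (Set.mem_insert _ _)
      unfold last at h3
      simp only [map_mul, map_inv] at h3
      rw [mul_inv_eq_one, mul_inv_eq_iff_eq_mul] at h3
      exact h3
    | some i =>
      have h4 : (MulAut.conj (F (gr R (some i)))).toMonoidHom.comp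
          (of.comp ((kap ϖ).comp (R.jj i true))) = of.comp ((kap ϖ).comp (R.jj i false)) := by
        refine kk_hom_ext fun a => ?_
        change F (gr R (some i)) * of (kap ϖ (R.jj i true (kk a))) * (F (gr R (some i)))⁻¹ =
          of (kap ϖ (R.jj i false (kk a)))
        rw [hk, hk]
        have h3 := hF _ (Set.mem_insert_of_mem _ (Or.inr (Or.inr ⟨⟨i, a⟩, rfl⟩)))
        simp only [map_mul, map_inv] at h3
        rwa [mul_inv_eq_one] at h3
      intro k
      have h5 : F (gr R (some i)) * of (kap ϖ (R.jj i true k)) * (F (gr R (some i)))⁻¹ =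
          of (kap ϖ (R.jj i false k)) := DFunLike.congr_fun h4 k
      rw [mul_inv_eq_iff_eq_mul] at h5
      exact h5
  · rw [eq_top_iff, ← PresentedGroup.closure_range_of (rels ϖ R z), Subgroup.closure_le]
    rintro _ ⟨g, rfl⟩
    rcases g with (_ | a) | o
    · exact Subgroup.subset_closure (Or.inl ⟨_, hof1⟩)
    · exact Subgroup.subset_closure (Or.inl ⟨_, hof2 a⟩)
    · exact Subgroup.subset_closure (Or.inr ⟨o, rfl⟩)
  · intro H _ f x hx
    let gens : GG R → H := fun g => match g with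
      | Sum.inl none => f (vq ϖ ϖ.beta)
      | Sum.inl (some a) => f (vt ϖ a)
      | Sum.inr o => x o
    let F0 : FreeGroup (GG R) →* H := FreeGroup.lift gens
    have g1 : F0 (gb R) = f (vq ϖ ϖ.beta) := FreeGroup.lift_apply_of
    have g2 : ∀ a, F0 (gf R a) = f (vt ϖ a) := fun a => FreeGroup.lift_apply_of
    have g3 : ∀ o, F0 (gr R o) = x o := fun o => FreeGroup.lift_apply_of
    have hk0 : ∀ u, f (kap ϖ u) = F0 (kz R u) := pres_kap (fun a => (g2 a).symm)
    have hrel : ∀ r ∈ rels ϖ R z, F0 r = 1 := by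
      rintro r (rfl | rfl | ⟨a, rfl⟩ | ⟨⟨i, a⟩, rfl⟩)
      · unfold last
        simp only [map_mul, map_inv, ← hk0, g3]
        rw [mul_inv_eq_one, mul_inv_eq_iff_eq_mul]
        have h1 := hx none (Multiplicative.ofAdd (1 : ℤ))
        rw [dataP_none, dataP_none] at h1
        simpa using h1
      · rw [map_pow, g1, ← map_pow, ← map_pow, ϖ.pow_m]
        simp
      · simp only [map_mul, map_inv, map_pow, g1, g2]
        rw [mul_inv_eq_one, mul_inv_eq_iff_eq_mul, ← map_pow, ← map_pow, ← map_pow, ← map_pow,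
          ← map_mul, ← map_mul]
        have hb : ϖ.bt a ∈ ϖ.S a := Subgroup.mem_zpowers _
        have h1 : vt ϖ a * vq ϖ (ϖ.bt a) = vq ϖ (ϖ.bt a ^ 2) * vt ϖ a :=
          (v_isHNN ϖ).rel a (⟨ϖ.bt a, hb⟩ : ϖ.S a)
        unfold Primes.bt at h1
        rw [← pow_mul] at h1
        rw [h1]
      · simp only [map_mul, map_inv, ← hk0, g3]
        rw [mul_inv_eq_one, mul_inv_eq_iff_eq_mul]
        exact hx (some i) (kk a)
    let Φ : PresentedGroup (rels ϖ R z) →* H := PresentedGroup.toGroup hrel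
    have hΦ : ∀ w, Φ (F w) = F0 w := fun w => rfl
    refine ⟨Φ, ?_, ?_⟩
    · have h1 : Φ.comp of = f := by
        refine (v_isHNN ϖ).hom_ext ?_ ?_
        · have h2 : (Φ.comp of).comp (vq ϖ) = f.comp (vq ϖ) := by
            refine ϖ.Q_hom_ext ?_
            simp only [MonoidHom.comp_apply]
            rw [hof1, hΦ, g1]
          exact fun q => DFunLike.congr_fun h2 q
        · intro a
          simp only [MonoidHom.comp_apply]
          rw [hof2, hΦ, g2]
      exact fun g => DFunLike.congr_fun h1 g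
    · intro o
      rw [hΦ, g3]

/-- the presented groups and the relation -/
theorem pres_iff (x y : St × FreeGroup Y) :
    Nonempty (PresentedGroup (rels ϖ R x) ≃* PresentedGroup (rels ϖ R y)) ↔ R.Rel x y := by
  obtain ⟨ofx, tx, hx⟩ := pres_isHNN (ϖ := ϖ) (R := R) x
  obtain ⟨ofy, ty, hy⟩ := pres_isHNN (ϖ := ϖ) (R := R) y
  exact iso_iff hx hy

end

end Pool.Agent.W382.Iso
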