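import Mathlib
import Pool.Agent.H665Simp.SrcLib
import Pool.Agent.H665Simp.P_trNat_bval

set_option autoImplicit false
set_option linter.unusedSectionVars false
set_option linter.unusedVariables false

/-! A Turing machine computing a function. -/

namespace Pool.Agent.W382.Iso

open Turing Turing.PartrecToTM2 Turing
open Pool.Agent.H665Simp (sym)

/-- the tape symbols -/
abbrev Sy : Type := TM2to1.Γ' K' (fun _ => Γ')

/-- the tape of a number -/
noncomputable def tp (n : ℕ) : List Sy :=
  sym true .cons :: (trNat n).reverse.map (sym false)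

theorem tp_eq (n : ℕ) : TM2to1.trInit (Γ := fun _ => Γ') K'.main (trList [n]) = tp n := by
  have h1 : (trList [n]).reverse = Γ'.cons :: (trNat n).reverse := by simp
  unfold TM2to1.trInit
  rw [h1]
  rfl

theorem exists_prog (F : ℕ → ℕ) (hF : Computable F) :
    ∃ c : ToPartrec.Code, ∀ n, c.eval [n] = Part.some [F n] := by
  have hf : Partrec (fun n : ℕ => (Part.some (F n) : Part ℕ)) := hF.partrec
  have hf' := Nat.Partrec'.part_iff₁.2 hf
  obtain ⟨c, hc⟩ := ToPartrec.Code.exists_code hf'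
  refine ⟨c, fun n => ?_⟩
  have h1 := hc ⟨[n], rfl⟩
  have h2 : c.eval [n] = pure <$> (Part.some (F n) : Part ℕ) := h1
  rw [h2]
  exact Part.map_some _ _

theorem trCfg_tape {a : TM2.Cfg (fun _ : K' => Γ') Turing.PartrecToTM2.Λ' (Option Γ')}
    {b : TM1.Cfg Sy (TM2to1.Λ' K' (fun _ => Γ') Turing.PartrecToTM2.Λ' (Option Γ')) (Option Γ')}
    (h : TM2to1.TrCfg a b) : (a.l = none → b.l = none) ∧ b.var = a.var ∧
      ∃ L : ListBlank (∀ k : K', Option Γ'),
      (∀ k, L.map (proj k) = ListBlank.mk ((a.stk k).map some).reverse) ∧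
      b.Tape = Tape.mk' ∅ (TM2to1.addBottom L) := by
  obtain ⟨L, hL⟩ := h
  exact ⟨fun h => by simpa using h, rfl, L, hL, rfl⟩

theorem tape_unique {L L' : ListBlank (∀ k : K', Option Γ')}
    (h : ∀ k, L.map (proj (Γ := fun _ : K' => Option Γ') k) = L'.map (proj (Γ := fun _ : K' => Option Γ') k)) :
    L = L' := by
  refine ListBlank.ext fun i => ?_
  funext k
  have h1 := congrArg (fun l => ListBlank.nth l i) (h k)
  simp only [ListBlank.nth_map] at h1
  exact h1

/-- the machine -/
theorem machine (F : ℕ → ℕ) (hF : Computable F) :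
    ∃ (Λ : Type) (_ : Inhabited Λ) (_ : Finite Λ) (M : TM0.Machine Sy Λ) (qf : Λ),
      (∀ a, M qf a = none) ∧
      ∀ n, StateTransition.Reaches (TM0.step M) (TM0.init (tp n)) ⟨qf, Tape.mk₁ (tp (F n))⟩ := by
  classical
  obtain ⟨c, hc⟩ := exists_prog F hF
  let inst : Inhabited Turing.PartrecToTM2.Λ' :=
    ⟨Turing.PartrecToTM2.trNormal c Turing.PartrecToTM2.Cont'.halt⟩
  let M2 := Turing.PartrecToTM2.tr
  let M1 := Turing.TM2to1.tr M2
  let M0 := Turing.TM1to0.tr M1
  have s2 : @Turing.TM2.Supports _ _ _ _ inst M2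
      (Turing.PartrecToTM2.codeSupp c Turing.PartrecToTM2.Cont'.halt) :=
    Turing.PartrecToTM2.tr_supports c Turing.PartrecToTM2.Cont'.halt
  have s1 := Turing.TM2to1.tr_supports M2 s2
  have s0 := Turing.TM1to0.tr_supports M1 s1
  -- the run of the tape machine with infinitely many states
  let q0 : TM1to0.Λ' M1 := (none, none)
  have run : ∀ n, StateTransition.Reaches (TM0.step M0) (TM0.init (tp n))
      ⟨q0, Tape.mk₁ (tp (F n))⟩ := by
    intro n
    have h2 := Turing.PartrecToTM2.tr_eval c [n]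
    rw [hc] at h2
    have h2' : Turing.PartrecToTM2.halt [F n] ∈ StateTransition.eval
        (Turing.TM2.step Turing.PartrecToTM2.tr) (Turing.PartrecToTM2.init c [n]) := by
      rw [h2]
      exact (Part.mem_map_iff _).2 ⟨[F n], Part.mem_some _, rfl⟩
    have e1 : ∀ m, (Turing.TM2.init Turing.PartrecToTM2.K'.main
        (Turing.PartrecToTM2.trList [m]) :
        Turing.TM2.Cfg (fun _ : Turing.PartrecToTM2.K' => Turing.PartrecToTM2.Γ')
          Turing.PartrecToTM2.Λ'
          (Option Turing.PartrecToTM2.Γ')) = Turing.PartrecToTM2.init c [m] := by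
      intro m
      unfold Turing.TM2.init Turing.PartrecToTM2.init
      congr 1
      funext k
      cases k <;> rfl
    have hi := fun m => (Turing.TM2to1.trCfg_init (K := Turing.PartrecToTM2.K')
      (Γ := fun _ => Turing.PartrecToTM2.Γ')
      (Λ := Turing.PartrecToTM2.Λ') (σ := Option Turing.PartrecToTM2.Γ')
      Turing.PartrecToTM2.K'.main (Turing.PartrecToTM2.trList [m]))
    rw [← e1] at h2'
    obtain ⟨b1, hb1, hb1'⟩ := StateTransition.tr_eval (Turing.TM2to1.tr_respects M2) (hi n) h2'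
    obtain ⟨h3, h4, L, hL, hT⟩ := trCfg_tape hb1
    obtain ⟨-, -, L', hL', hT'⟩ := trCfg_tape (hi (F n))
    have h5 : L = L' := by
      refine tape_unique fun k => ?_
      have hL1 := hL k
      have hL2 := hL' k
      rw [e1] at hL2
      rw [hL1, hL2]
      rfl
    subst h5
    have h6 : b1 = ⟨none, none, Tape.mk₁ (tp (F n))⟩ := by
      obtain ⟨l, v, T⟩ := b1
      have e2 : l = none := h3 rfl
      have e3 : v = none := h4
      have e4 : T = Tape.mk₁ (tp (F n)) := by
        have e5 : T = Tape.mk' ∅ (TM2to1.addBottom L) := hT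
        rw [e5, ← hT']
        have e6 := tp_eq (F n)
        rw [← e6]
        rfl
      rw [e2, e3, e4]
    obtain ⟨b0, hb0, hb0'⟩ := StateTransition.tr_eval (Turing.TM1to0.tr_respects M1)
      (a₁ := Turing.TM1.init (Turing.TM2to1.trInit Turing.PartrecToTM2.K'.main
        (Turing.PartrecToTM2.trList [n]))) rfl hb1'
    have h7 := (StateTransition.mem_eval.1 hb0').1
    rw [tp_eq] at h7
    rw [h6] at hb0
    rw [← hb0] at h7
    exact h7
  -- restriction to finitely many states
  set SS : Set (TM1to0.Λ' M1) := ↑(TM1to0.trStmts M1 (TM2to1.trSupp M2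
    (codeSupp c Cont'.halt))) with hSS
  have hfin : SS.Finite := Finset.finite_toSet _
  have : Finite SS := hfin
  let _ : Inhabited SS := ⟨⟨default, s0.1⟩⟩
  let f₁ : PointedMap Sy Sy := ⟨id, rfl⟩
  let g₁ : PointedMap (TM1to0.Λ' M1) SS := ⟨fun q => if h : q ∈ SS then ⟨q, h⟩ else default, by
    simp [s0.1]; rfl⟩
  let M' : TM0.Machine Sy SS := M0.map f₁ f₁ g₁ Subtype.val
  have hg : ∀ q ∈ SS, (g₁ q).val = q := by
    intro q hq
    change (if h : q ∈ SS then (⟨q, h⟩ : SS) else default).val = q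
    simp [hq]
  have hf : Function.RightInverse f₁ f₁ := fun a => rfl
  have hresp := TM0.Machine.map_respects M0 f₁ f₁ g₁ Subtype.val s0 hf hg
  have key : ∀ n, q0 ∈ SS ∧ StateTransition.Reaches (TM0.step M') (TM0.init (tp n))
      ⟨g₁ q0, Tape.mk₁ (tp (F n))⟩ := by
    intro n
    obtain ⟨b, ⟨hb1, hb2⟩, hb3⟩ := StateTransition.tr_reaches hresp (a₁ := TM0.init (tp n))
      (a₂ := TM0.init (tp n)) ⟨s0.1, by
        have h := TM0.map_init f₁ g₁ (tp n)
        rw [h]
        congr 1
        exact List.map_id _⟩ (run n)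
    refine ⟨hb1, ?_⟩
    have h8 : b = ⟨g₁ q0, Tape.mk₁ (tp (F n))⟩ := by
      rw [← hb2]
      change (⟨g₁ q0, (Tape.mk₁ (tp (F n))).map f₁⟩ : TM0.Cfg Sy SS) = _
      congr 1
      rw [Tape.map_mk₁]
      congr 1
      exact List.map_id _
    rw [← h8]
    exact hb3
  refine ⟨SS, inferInstance, inferInstance, M', g₁ q0, ?_, fun n => (key n).2⟩
  intro a
  have h9 := hg q0 (key 0).1
  change (M0 (g₁ q0).val (f₁ a)).map _ = none
  rw [h9]
  rfl

end Pool.Agent.W382.Iso
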