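import Mathlib
import Pool.Agent.W382.Iso.Base

set_option autoImplicit false
set_option linter.unusedSectionVars false
set_option linter.unusedVariables false

/-! Affine systems with two integer counters. -/

namespace Pool.Agent.W382.Iso

/-- affine rules on two integer counters; `dom i u` says whether the counter `u` is free in the
rule `i` -/
structure Two (St : Type) where
  I : Type
  dom : I → Bool → Bool
  s : I → Bool → St
  n : I → Bool → Bool → ℕ
  hn : ∀ i b u, 0 < n i b u
  a : I → Bool → Bool → ℤ

namespace Two

variable {St : Type} (S : Two St)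

/-- the node of a rule -/
def nd (i : S.I) (b : Bool) (p : Bool → ℤ) : St × (Bool → ℤ) :=
  (S.s i b, fun u => S.a i b u + S.n i b u * p u)

/-- one step -/
def Step (x y : St × (Bool → ℤ)) : Prop :=
  ∃ (i : S.I) (p : Bool → ℤ), (∀ u, S.dom i u = false → p u = 0) ∧
    x = S.nd i true p ∧ y = S.nd i false p

/-- the generated equivalence relation -/
def Rel : St × (Bool → ℤ) → St × (Bool → ℤ) → Prop := Relation.EqvGen S.Step

/-- the rules on words -/
def rules : Rules St Bool where
  I := S.I
  T i := {u : Bool // S.dom i u = true}
  e i := Subtype.val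
  he i := Subtype.val_injective
  s := S.s
  n i b y := S.n i b y.val
  hn i b y := S.hn i b y.val
  a i b := FreeGroup.of false ^ S.a i b false
  c i b := FreeGroup.of true ^ S.a i b true

/-- exponent sums -/
noncomputable def ex (u : Bool) (v : FreeGroup Bool) : ℤ := Multiplicative.toAdd (cnt u v)

/-- the projection to the counters -/
noncomputable def proj (x : St × FreeGroup Bool) : St × (Bool → ℤ) := (x.1, fun u => ex u x.2)

/-- the configuration of the counters -/
def emb (x : St × (Bool → ℤ)) : St × FreeGroup Bool :=
  (x.1, FreeGroup.of false ^ x.2 false * FreeGroup.of true ^ x.2 true)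

theorem ex_mul (u : Bool) (v w : FreeGroup Bool) : ex u (v * w) = ex u v + ex u w := by
  simp [ex]

theorem ex_zpow (u : Bool) (v : FreeGroup Bool) (k : ℤ) : ex u (v ^ k) = k * ex u v := by
  simp [ex]

theorem ex_of (u w : Bool) : ex u (FreeGroup.of w) = if w = u then 1 else 0 := by
  unfold ex
  split_ifs with h
  · subst h; rw [cnt_of_self]; rfl
  · rw [cnt_of_ne h]; rfl

theorem proj_emb (x : St × (Bool → ℤ)) : proj (emb x) = x := by
  obtain ⟨q, p⟩ := x
  refine Prod.ext rfl ?_
  funext u
  simp only [proj, emb, ex_mul, ex_zpow, ex_of]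
  cases u <;> simp

/-- exponents of the parameters -/
def pex (i : S.I) (u : Bool) : FreeGroup {u : Bool // S.dom i u = true} →* Multiplicative ℤ :=
  FreeGroup.lift (fun t => if t.val = u then Multiplicative.ofAdd 1 else 1)

theorem pex_dom (i : S.I) (u : Bool) (hu : S.dom i u = false)
    (h : FreeGroup {u : Bool // S.dom i u = true}) : S.pex i u h = 1 := by
  have : S.pex i u = 1 := by
    ext t
    have h1 : t.val ≠ u := by
      intro h2
      have h3 := t.2
      rw [h2, hu] at h3
      exact absurd h3 (by simp)
    simp [pex, h1]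
  rw [this]; rfl

theorem ex_pw (i : S.I) (b : Bool) (u : Bool) (h : FreeGroup {u : Bool // S.dom i u = true}) :
    ex u (pw (Subtype.val) (fun y : {u : Bool // S.dom i u = true} => S.n i b y.val) h) =
      S.n i b u * Multiplicative.toAdd (S.pex i u h) := by
  have h1 : (cnt u).comp (pw (Subtype.val)
      (fun y : {u : Bool // S.dom i u = true} => S.n i b y.val)) =
      (powMonoidHom (S.n i b u)).comp (S.pex i u) := by
    ext t
    simp only [MonoidHom.comp_apply, pw_of, map_pow, powMonoidHom_apply]
    by_cases ht : t.val = u
    · subst ht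
      rw [cnt_of_self]
      simp [pex]
    · rw [cnt_of_ne ht]
      simp [pex, ht]
  have h2 := DFunLike.congr_fun h1 h
  unfold ex
  simp only [MonoidHom.comp_apply, powMonoidHom_apply] at h2
  rw [h2]
  simp

theorem proj_node (i : S.I) (b : Bool) (w : FreeGroup {u : Bool // S.dom i u = true}) :
    proj (S.rules.node i b w) = S.nd i b (fun u => Multiplicative.toAdd (S.pex i u w)) := by
  refine Prod.ext rfl ?_
  funext u
  change ex u (FreeGroup.of false ^ S.a i b false * (pw (Subtype.val)
    (fun y : {u : Bool // S.dom i u = true} => S.n i b y.val) w) *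
      FreeGroup.of true ^ S.a i b true) = _
  rw [ex_mul, ex_mul, ex_zpow, ex_zpow, ex_of, ex_of, ex_pw]
  cases u <;> simp [nd] <;> ring

theorem proj_step {x y : St × FreeGroup Bool} (h : S.rules.Step x y) :
    S.Step (proj x) (proj y) := by
  obtain ⟨i, w, rfl, rfl⟩ := h
  refine ⟨i, fun u => Multiplicative.toAdd (S.pex i u w), ?_, S.proj_node i true w,
    S.proj_node i false w⟩
  intro u hu
  have h1 := S.pex_dom i u hu w
  exact congrArg Multiplicative.toAdd h1

/-- the parameter of given exponents -/
def par (i : S.I) (p : Bool → ℤ) : FreeGroup {u : Bool // S.dom i u = true} :=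
  (if h : S.dom i false = true then FreeGroup.of ⟨false, h⟩ ^ p false else 1) *
  (if h : S.dom i true = true then FreeGroup.of ⟨true, h⟩ ^ p true else 1)

theorem node_par (i : S.I) (b : Bool) (p : Bool → ℤ) (hp : ∀ u, S.dom i u = false → p u = 0) :
    S.rules.node i b (S.par i p) = emb (S.nd i b p) := by
  refine Prod.ext rfl ?_
  change FreeGroup.of false ^ S.a i b false * (pw (Subtype.val)
      (fun y : {u : Bool // S.dom i u = true} => S.n i b y.val) (S.par i p)) *
        FreeGroup.of true ^ S.a i b true =
    FreeGroup.of false ^ (S.a i b false + S.n i b false * p false) *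
      FreeGroup.of true ^ (S.a i b true + S.n i b true * p true)
  have h1 : ∀ u, (pw (Subtype.val) (fun y : {u : Bool // S.dom i u = true} => S.n i b y.val))
      (if h : S.dom i u = true then FreeGroup.of ⟨u, h⟩ ^ p u else 1) =
      (FreeGroup.of u ^ (S.n i b u * p u) : FreeGroup Bool) := by
    intro u
    by_cases h : S.dom i u = true
    · rw [dif_pos h, map_zpow, pw_of, zpow_mul, zpow_natCast]
    · rw [dif_neg h, map_one, hp u (by simpa using h)]
      simp
  unfold par
  rw [map_mul, h1, h1, zpow_add, add_comm (S.a i b true), zpow_add]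
  simp only [mul_assoc]

theorem rel_iff (x y : St × (Bool → ℤ)) : S.rules.Rel (emb x) (emb y) ↔ S.Rel x y := by
  constructor
  · intro h
    have key : ∀ a b, S.rules.Rel a b → S.Rel (proj a) (proj b) := by
      intro a b hab
      induction hab with
      | rel a b hab => exact Relation.EqvGen.rel _ _ (S.proj_step hab)
      | refl a => exact Relation.EqvGen.refl _
      | symm a b _ ih => exact Relation.EqvGen.symm _ _ ih
      | trans a b c _ _ ih1 ih2 => exact Relation.EqvGen.trans _ _ _ ih1 ih2
    have := key _ _ h
    rwa [proj_emb, proj_emb] at this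
  · intro h
    induction h with
    | rel a b hab =>
      obtain ⟨i, p, hp, rfl, rfl⟩ := hab
      exact Relation.EqvGen.rel _ _ ⟨i, S.par i p, (S.node_par i true p hp).symm,
        (S.node_par i false p hp).symm⟩
    | refl a => exact Relation.EqvGen.refl _
    | symm a b _ ih => exact Relation.EqvGen.symm _ _ ih
    | trans a b c _ _ ih1 ih2 => exact Relation.EqvGen.trans _ _ _ ih1 ih2

end Two

end Pool.Agent.W382.Iso
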