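import Mathlib
import Pool.Agent.W382.Iso.Two
import Pool.Agent.W382.Iso.Mach

set_option autoImplicit false
set_option linter.unusedSectionVars false
set_option linter.unusedVariables false

/-! The counter system of a Turing machine. -/

namespace Pool.Agent.W382.Iso

open Turing
open Pool.Agent.H665Simp (kap bas del fa fb Rep RepT act rep_act kap_lt kap_inj kap_default del_kap
  enc rep_enc rep_zero bval)

/-- indices of the rules -/
inductive Ix (Λ : Type) (B : ℕ) : Type
  | z (b : Bool) : Ix Λ B
  | c (b : Bool) : Ix Λ B
  | x : Ix Λ B
  | m (q : Λ) (r : Bool → Fin B) : Ix Λ B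

/-- the code of an index -/
def Ix.code {Λ : Type} {B : ℕ} : Ix Λ B → Option (Bool ⊕ Bool ⊕ (Λ × (Bool → Fin B)))
  | .z b => some (Sum.inl b)
  | .c b => some (Sum.inr (Sum.inl b))
  | .x => none
  | .m q r => some (Sum.inr (Sum.inr (q, r)))

theorem Ix.code_injective {Λ : Type} {B : ℕ} : Function.Injective (Ix.code (Λ := Λ) (B := B)) := by
  intro i j h
  cases i <;> cases j <;> simp_all [Ix.code]

instance {Λ : Type} [Finite Λ] {B : ℕ} : Finite (Ix Λ B) :=
  Finite.of_injective _ Ix.code_injective

theorem bas_pos (Γ : Type) [Fintype Γ] : 0 < bas Γ := by unfold bas; omega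

section

variable {Γ Λ : Type} [Inhabited Γ] [Fintype Γ] [DecidableEq Γ] [Inhabited Λ]
  (M : TM0.Machine Γ Λ) (kc k1 : ℕ) (K : Bool → ℕ)

/-- the number of a bit -/
def dg (b : Bool) : ℕ := if b then 2 else 1

/-- the rules -/
noncomputable def two : Two (Option (Option Λ)) where
  I := Ix Λ (bas Γ)
  dom i u := match i with
    | .z _ => !u
    | .c _ => true
    | .x => u
    | .m _ _ => true
  s i b := match i with
    | .z _ => if b then none else some none
    | .c _ => some none
    | .x => if b then some none else some (some default)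
    | .m q r => if b then some (some q) else
        match M q (del (r true : ℕ)) with
        | none => some (some q)
        | some p => some (some p.1)
  n i b u := match i with
    | .z _ => 1
    | .c _ => if b then (if u then 1 else 3) else (if u then bas Γ else 1)
    | .x => if b then 1 else (if u then bas Γ * bas Γ else 1)
    | .m q r => if b then bas Γ else
        match M q (del (r true : ℕ)) with
        | none => bas Γ
        | some p => fa p.2 u
  hn i b u := by
    have hB := bas_pos Γ
    cases i with
    | z _ => exact one_pos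
    | c _ => cases b <;> cases u <;> simp [hB]
    | x => cases b <;> cases u <;> simp [hB]
    | m q r =>
      cases b
      · simp only [Bool.false_eq_true, if_false]
        split
        · exact hB
        · rename_i p hp
          unfold fa
          split <;> positivity
      · simpa using hB
  a i b u := match i with
    | .z d => if b then 0 else (if u then (K d : ℤ) else 0)
    | .c d => if b then (if u then 0 else (dg d : ℤ)) else (if u then (K d : ℤ) else 0)
    | .x => if b then 0 else (if u then (kc : ℤ) + bas Γ * k1 else 0)
    | .m q r => if b then ((r u : ℕ) : ℤ) else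
        match M q (del (r true : ℕ)) with
        | none => ((r u : ℕ) : ℤ)
        | some p => (fb p.2 r u : ℤ)

/-- residues -/
def red (Γ : Type) [Fintype Γ] (p : Bool → ℤ) : Bool → Fin (bas Γ) := fun u =>
  ⟨(p u % (bas Γ : ℤ)).toNat, by
    have h := bas_pos Γ
    have h1 := Int.emod_nonneg (p u) (b := (bas Γ : ℤ)) (by omega)
    have h2 := Int.emod_lt_of_pos (p u) (b := (bas Γ : ℤ)) (by omega)
    omega⟩

theorem red_val (p : Bool → ℤ) (u : Bool) : ((red Γ p u : ℕ) : ℤ) = p u % (bas Γ : ℤ) := by
  have h := bas_pos Γ
  have h1 := Int.emod_nonneg (p u) (b := (bas Γ : ℤ)) (by omega)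
  simp [red, h1]

theorem red_add (r : Bool → Fin (bas Γ)) (p : Bool → ℤ) :
    red Γ (fun u => ((r u : ℕ) : ℤ) + bas Γ * p u) = r := by
  funext u
  apply Fin.ext
  have h1 := red_val (Γ := Γ) (fun u => ((r u : ℕ) : ℤ) + bas Γ * p u) u
  have h2 : (((r u : ℕ) : ℤ) + bas Γ * p u) % (bas Γ : ℤ) = ((r u : ℕ) : ℤ) := by
    rw [Int.add_mul_emod_self_left]
    have := (r u).2
    exact Int.emod_eq_of_lt (by omega) (by omega)
  rw [h2] at h1
  exact_mod_cast h1

theorem div_add (r : Bool → Fin (bas Γ)) (p : Bool → ℤ) (u : Bool) :
    (((r u : ℕ) : ℤ) + bas Γ * p u) / (bas Γ : ℤ) = p u := by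
  have h := bas_pos Γ
  rw [Int.add_mul_ediv_left _ _ (by omega)]
  have := (r u).2
  rw [Int.ediv_eq_zero_of_lt (by omega) (by omega)]
  omega

/-- the deterministic steps -/
noncomputable def nx : Option (Option Λ) × (Bool → ℤ) → Option (Option (Option Λ) × (Bool → ℤ))
  | (none, _) => none
  | (some none, p) =>
    if p false = 0 then some (some (some default),
      fun u => if u then kc + bas Γ * k1 + bas Γ * bas Γ * p true else 0)
    else if p false % 3 = 1 then some (some none,
      fun u => if u then K false + bas Γ * p true else p false / 3)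
    else if p false % 3 = 2 then some (some none,
      fun u => if u then K true + bas Γ * p true else p false / 3)
    else none
  | (some (some q), p) =>
    (M q (del (red Γ p true : ℕ))).map (fun t => (some (some t.1),
      fun u => fb t.2 (red Γ p) u + fa t.2 u * (p u / bas Γ)))

/-- a configuration -/
def cf (q : Option (Option Λ)) (x y : ℤ) : Option (Option Λ) × (Bool → ℤ) :=
  (q, fun u => if u then y else x)

theorem nd_z (d : Bool) (p : Bool → ℤ) : (two M kc k1 K).nd (Ix.z d) true p =
    cf none (p false) (p true) := by
  refine Prod.ext rfl ?_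
  funext u
  cases u <;> simp [Two.nd, two, cf]

theorem nd_z' (d : Bool) (p : Bool → ℤ) : (two M kc k1 K).nd (Ix.z d) false p =
    cf (some none) (p false) (K d + p true) := by
  refine Prod.ext rfl ?_
  funext u
  cases u <;> simp [Two.nd, two, cf]

theorem nd_c (d : Bool) (p : Bool → ℤ) : (two M kc k1 K).nd (Ix.c d) true p =
    cf (some none) (dg d + 3 * p false) (p true) := by
  refine Prod.ext rfl ?_
  funext u
  cases u <;> simp [Two.nd, two, cf]

theorem nd_c' (d : Bool) (p : Bool → ℤ) : (two M kc k1 K).nd (Ix.c d) false p =
    cf (some none) (p false) (K d + bas Γ * p true) := by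
  refine Prod.ext rfl ?_
  funext u
  cases u <;> simp [Two.nd, two, cf]

theorem nd_x (p : Bool → ℤ) : (two M kc k1 K).nd Ix.x true p =
    cf (some none) (p false) (p true) := by
  refine Prod.ext rfl ?_
  funext u
  cases u <;> simp [Two.nd, two, cf]

theorem nd_x' (p : Bool → ℤ) : (two M kc k1 K).nd Ix.x false p =
    cf (some (some default)) (p false) (kc + bas Γ * k1 + bas Γ * bas Γ * p true) := by
  refine Prod.ext rfl ?_
  funext u
  cases u <;> simp [Two.nd, two, cf]

theorem nd_m (q : Λ) (r : Bool → Fin (bas Γ)) (p : Bool → ℤ) :
    (two M kc k1 K).nd (Ix.m q r) true p =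
      (some (some q), fun u => ((r u : ℕ) : ℤ) + bas Γ * p u) := by
  refine Prod.ext rfl ?_
  funext u
  simp [Two.nd, two]

theorem nd_m_none (q : Λ) (r : Bool → Fin (bas Γ)) (p : Bool → ℤ)
    (h : M q (del (r true : ℕ)) = none) :
    (two M kc k1 K).nd (Ix.m q r) false p =
      (some (some q), fun u => ((r u : ℕ) : ℤ) + bas Γ * p u) := by
  refine Prod.ext ?_ ?_
  · simp [Two.nd, two, h]
  · funext u
    simp [Two.nd, two, h]

theorem nd_m_some (q : Λ) (r : Bool → Fin (bas Γ)) (p : Bool → ℤ) (t : Λ × TM0.Stmt Γ)
    (h : M q (del (r true : ℕ)) = some t) :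
    (two M kc k1 K).nd (Ix.m q r) false p =
      (some (some t.1), fun u => (fb t.2 r u : ℤ) + fa t.2 u * p u) := by
  refine Prod.ext ?_ ?_
  · simp [Two.nd, two, h]
  · funext u
    simp [Two.nd, two, h]

theorem nx_c (x y : ℤ) : nx M kc k1 K (cf (some none) x y) =
    if x = 0 then some (cf (some (some default)) 0 (kc + bas Γ * k1 + bas Γ * bas Γ * y))
    else if x % 3 = 1 then some (cf (some none) (x / 3) (K false + bas Γ * y))
    else if x % 3 = 2 then some (cf (some none) (x / 3) (K true + bas Γ * y))
    else none := rfl

theorem nx_m (q : Λ) (p : Bool → ℤ) : nx M kc k1 K (some (some q), p) =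
    (M q (del (red Γ p true : ℕ))).map (fun t => (some (some t.1),
      fun u => fb t.2 (red Γ p) u + fa t.2 u * (p u / bas Γ))) := rfl

/-- rules other than the first are steps or trivial -/
theorem nx_nd (i : Ix Λ (bas Γ)) (hi : ∀ b, i ≠ Ix.z b) (p : Bool → ℤ)
    (hp : ∀ u, (two M kc k1 K).dom i u = false → p u = 0) :
    nx M kc k1 K ((two M kc k1 K).nd i true p) = some ((two M kc k1 K).nd i false p) ∨
      (two M kc k1 K).nd i true p = (two M kc k1 K).nd i false p := by
  cases i with
  | z b => exact absurd rfl (hi b)
  | c d =>
    left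
    rw [nd_c, nd_c', nx_c]
    cases d
    · simp only [dg, Bool.false_eq_true, if_false]
      push_cast
      rw [if_neg (by omega), if_pos (by omega)]
      congr 2
      omega
    · simp only [dg, if_true]
      push_cast
      rw [if_neg (by omega), if_neg (by omega), if_pos (by omega)]
      congr 2
      omega
  | x =>
    left
    have h1 : p false = 0 := hp false rfl
    rw [nd_x, nd_x', nx_c, h1, if_pos rfl]
  | m q r =>
    cases h : M q (del (r true : ℕ)) with
    | none =>
      right
      rw [nd_m, nd_m_none M kc k1 K q r p h]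
    | some t =>
      left
      rw [nd_m, nd_m_some M kc k1 K q r p t h, nx_m, red_add, h]
      simp only [Option.map_some, Option.some.injEq]
      congr 1
      funext u
      rw [div_add]

/-- a step is given by a rule -/
theorem step_of_nx {x y : Option (Option Λ) × (Bool → ℤ)} (h : nx M kc k1 K x = some y) :
    (two M kc k1 K).Step x y := by
  obtain ⟨q, p⟩ := x
  rcases q with _ | _ | q
  · simp [nx] at h
  · have hp : ((some none, p) : Option (Option Λ) × (Bool → ℤ)) =
        cf (some none) (p false) (p true) := by
      refine Prod.ext rfl ?_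
      funext u
      cases u <;> simp [cf]
    rw [hp] at h ⊢
    rw [nx_c] at h
    split_ifs at h with h1 h2 h3
    · refine ⟨Ix.x, fun u => if u then p true else 0, ?_, ?_, ?_⟩
      · intro u hu
        cases u
        · rfl
        · exact absurd hu (by simp [two])
      · rw [nd_x]; simp [h1]
      · rw [nd_x', ← Option.some.inj h]; simp
    · refine ⟨Ix.c false, fun u => if u then p true else p false / 3, ?_, ?_, ?_⟩
      · intro u hu
        exact absurd hu (by simp [two])
      · rw [nd_c]
        simp only [dg, Bool.false_eq_true, if_false, if_true]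
        congr 1
        push_cast
        omega
      · rw [nd_c', ← Option.some.inj h]; simp
    · refine ⟨Ix.c true, fun u => if u then p true else p false / 3, ?_, ?_, ?_⟩
      · intro u hu
        exact absurd hu (by simp [two])
      · rw [nd_c]
        simp only [dg, Bool.false_eq_true, if_false, if_true]
        congr 1
        push_cast
        omega
      · rw [nd_c', ← Option.some.inj h]; simp
  · rw [nx_m] at h
    cases hM : M q (del (red Γ p true : ℕ)) with
    | none => rw [hM] at h; simp at h
    | some t =>
      rw [hM] at h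
      simp only [Option.map_some, Option.some.injEq] at h
      refine ⟨Ix.m q (red Γ p), fun u => p u / bas Γ, ?_, ?_, ?_⟩
      · intro u hu
        exact absurd hu (by simp [two])
      · rw [nd_m]
        refine Prod.ext rfl ?_
        funext u
        simp only [red_val]
        exact (Int.emod_add_mul_ediv _ _).symm
      · rw [nd_m_some M kc k1 K q _ _ t hM, ← h]

end

end Pool.Agent.W382.Iso
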