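import Mathlib
import Pool.Agent.W382.Iso.Count

set_option autoImplicit false
set_option linter.unusedSectionVars false
set_option linter.unusedVariables false

/-! The labels of the configurations. -/

namespace Pool.Agent.W382.Iso

open Turing StateTransition
open Pool.Agent.H665Simp (kap bas del fa fb Rep RepT act rep_act kap_lt kap_inj kap_default del_kap
  enc rep_enc rep_zero bval)

section

variable {σ : Type} {f : σ → Option σ}

theorem reaches_next {a a' b : σ} (h : f a = some a') (hb : f b = none) (hab : Reaches f a b) :
    Reaches f a' b := by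
  rcases Relation.ReflTransGen.cases_head hab with h1 | ⟨c, h1, h2⟩
  · subst h1
    rw [h] at hb
    exact absurd hb (by simp)
  · have h3 : f a = some c := h1
    rw [h] at h3
    rw [Option.some.inj h3]
    exact h2

theorem reaches_terminal {a b c : σ} (hb : f b = none) (hc : f c = none) (h1 : Reaches f a b)
    (h2 : Reaches f a c) : b = c := by
  rcases reaches_total h1 h2 with h | h
  · rcases Relation.ReflTransGen.cases_head h with h3 | ⟨d, h3, h4⟩
    · exact h3
    · have h5 : f b = some d := h3
      rw [hb] at h5
      exact absurd h5 (by simp)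
  · rcases Relation.ReflTransGen.cases_head h with h3 | ⟨d, h3, h4⟩
    · exact h3.symm
    · have h5 : f c = some d := h3
      rw [hc] at h5
      exact absurd h5 (by simp)

end

section

variable {Γ Λ : Type} [Inhabited Γ] [Fintype Γ] [DecidableEq Γ] [Inhabited Λ]
  (M : TM0.Machine Γ Λ) (kc k1 : ℕ) (K : Bool → ℕ)

/-- the number of a list of bits -/
def cl (l : List Bool) : ℤ := l.foldr (fun b v => dg b + 3 * v) 0

theorem cl_nonneg (l : List Bool) : 0 ≤ cl l := by
  induction l with
  | nil => exact le_rfl
  | cons b l ih =>
    have : cl (b :: l) = dg b + 3 * cl l := rfl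
    rw [this]
    positivity

theorem nx_cl (b : Bool) (l : List Bool) (y : ℤ) :
    nx M kc k1 K (cf (some none) (cl (b :: l)) y) =
      some (cf (some none) (cl l) (K b + bas Γ * y)) := by
  have h1 : cl (b :: l) = dg b + 3 * cl l := rfl
  rw [nx_c, h1]
  cases b
  · simp only [dg, Bool.false_eq_true, if_false]
    push_cast
    rw [if_neg (by omega), if_pos (by omega)]
    congr 2
    omega
  · simp only [dg, if_true]
    push_cast
    rw [if_neg (by omega), if_neg (by omega), if_pos (by omega)]
    congr 2
    omega

theorem reach_cl (l : List Bool) (y : ℕ) :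
    Reaches (nx M kc k1 K) (cf (some none) (cl l) y)
      (cf (some (some default)) 0 ((kc + bas Γ * (k1 + bas Γ *
        (l.foldl (fun v b => bas Γ * v + K b) y)) : ℕ) : ℤ)) := by
  induction l generalizing y with
  | nil =>
    refine Relation.ReflTransGen.single ?_
    change nx M kc k1 K (cf (some none) 0 y) = _
    rw [nx_c, if_pos rfl]
    congr 2
    simp only [List.foldl_nil]
    push_cast
    ring
  | cons b l ih =>
    have h := ih (bas Γ * y + K b)
    refine Relation.ReflTransGen.head ?_ h
    change nx M kc k1 K _ = _
    rw [nx_cl]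
    congr 2
    push_cast
    ring

variable (qf : Λ) (hqf : ∀ a, M qf a = none) (e : ℕ → ℕ) (he : Function.Injective e)

/-- the configuration of a number -/
def cc (qf : Λ) (e : ℕ → ℕ) (m : ℕ) : Option (Option Λ) × (Bool → ℤ) :=
  cf (some (some qf)) 0 (e m)

include hqf in
theorem nx_cc (m : ℕ) : nx M kc k1 K (cc qf e m) = none := by
  unfold cc cf
  rw [nx_m, hqf]; rfl

include he in
theorem cc_injective : Function.Injective (cc qf e) := by
  intro a b h
  have h1 := congrFun (congrArg Prod.snd h) true
  simp only [cc, cf, if_true] at h1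
  exact he (by exact_mod_cast h1)

/-- only numbers of lists reach the machine -/
theorem cl_of_reaches {m : ℕ} {x y : ℤ}
    (h : Reaches (nx M kc k1 K) (cf (some none) x y) (cc qf e m)) : ∃ l, x = cl l := by
  have key : ∀ u, Reaches (nx M kc k1 K) u (cc qf e m) → ∀ x y, u = cf (some none) x y →
      ∃ l, x = cl l := by
    intro u hu
    induction hu using Relation.ReflTransGen.head_induction_on with
    | refl =>
      intro x y hxy
      have := congrArg Prod.fst hxy
      simp [cc, cf] at this
    | head hstep _ ih =>
      rename_i c a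
      intro x y hxy
      subst hxy
      have h1 : nx M kc k1 K (cf (some none) x y) = some c := hstep
      rw [nx_c] at h1
      split_ifs at h1 with h2 h3 h4
      · exact ⟨[], h2⟩
      · obtain ⟨l, hl⟩ := ih _ _ (Option.some.inj h1).symm
        refine ⟨false :: l, ?_⟩
        have h5 : cl (false :: l) = 1 + 3 * cl l := rfl
        rw [h5, ← hl]
        omega
      · obtain ⟨l, hl⟩ := ih _ _ (Option.some.inj h1).symm
        refine ⟨true :: l, ?_⟩
        have h5 : cl (true :: l) = 2 + 3 * cl l := rfl
        rw [h5, ← hl]
        omega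
  exact key _ h x y rfl

/-- the labels -/
def lab (R : ℕ → ℕ → Prop) (u : Option (Option Λ) × (Bool → ℤ)) : Set ℕ :=
  {k | ∃ m, Reaches (nx M kc k1 K) u (cc qf e m) ∧ R m k}

include hqf in
theorem lab_next {R : ℕ → ℕ → Prop} {u v : Option (Option Λ) × (Bool → ℤ)}
    (h : nx M kc k1 K u = some v) : lab M kc k1 K qf e R u = lab M kc k1 K qf e R v := by
  ext k
  constructor
  · rintro ⟨m, h1, h2⟩
    exact ⟨m, reaches_next h (nx_cc M kc k1 K qf hqf e m) h1, h2⟩
  · rintro ⟨m, h1, h2⟩
    exact ⟨m, Relation.ReflTransGen.head h h1, h2⟩

include hqf he in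
theorem lab_of_reaches {R : ℕ → ℕ → Prop} {u : Option (Option Λ) × (Bool → ℤ)} {m : ℕ}
    (h : Reaches (nx M kc k1 K) u (cc qf e m)) : lab M kc k1 K qf e R u = {k | R m k} := by
  ext k
  constructor
  · rintro ⟨m', h1, h2⟩
    have h3 := reaches_terminal (nx_cc M kc k1 K qf hqf e m) (nx_cc M kc k1 K qf hqf e m') h h1
    have h4 := cc_injective qf e he h3
    subst h4
    exact h2
  · intro h2
    exact ⟨m, h, h2⟩

theorem rel_of_reaches {u v : Option (Option Λ) × (Bool → ℤ)} (h : Reaches (nx M kc k1 K) u v) :
    (two M kc k1 K).Rel u v := by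
  induction h with
  | refl => exact Relation.EqvGen.refl _
  | tail _ h ih =>
    exact Relation.EqvGen.trans _ _ _ ih (Relation.EqvGen.rel _ _ (step_of_nx M kc k1 K h))

include hqf he in
/-- the system generates the equivalence relation -/
theorem rel_cc {R : ℕ → ℕ → Prop} (hR : Equivalence R) (G : Bool → List Bool → ℕ)
    (hG : ∀ b l, Reaches (nx M kc k1 K) (cf (some none) (cl l) (K b)) (cc qf e (G b l)))
    (h1 : ∀ l, R (G false l) (G true l))
    (h2 : ∀ m n, R m n → ∃ l, G false l = m ∧ G true l = n) (m n : ℕ) :
    (two M kc k1 K).Rel (cc qf e m) (cc qf e n) ↔ R m n := by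
  constructor
  · intro h
    let L : Option (Option Λ) × (Bool → ℤ) → Set ℕ := fun u => match u.1 with
      | none => lab M kc k1 K qf e R (cf (some none) (u.2 false) (K false))
      | some _ => lab M kc k1 K qf e R u
    have hK : ∀ (x : ℤ) (d : Bool), lab M kc k1 K qf e R (cf (some none) x (K false)) =
        lab M kc k1 K qf e R (cf (some none) x (K d)) := by
      intro x d
      cases d
      · rfl
      · by_cases hx : ∃ l, x = cl l
        · obtain ⟨l, rfl⟩ := hx
          rw [lab_of_reaches M kc k1 K qf hqf e he (hG false l),
            lab_of_reaches M kc k1 K qf hqf e he (hG true l)]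
          ext k
          exact ⟨fun h => hR.trans (hR.symm (h1 l)) h, fun h => hR.trans (h1 l) h⟩
        · ext k
          constructor
          · rintro ⟨m, h3, h4⟩
            exact absurd (cl_of_reaches M kc k1 K qf e h3) hx
          · rintro ⟨m, h3, h4⟩
            exact absurd (cl_of_reaches M kc k1 K qf e h3) hx
    have hstep : ∀ u v, (two M kc k1 K).Step u v → L u = L v := by
      rintro u v ⟨i, p, hp, rfl, rfl⟩
      change Ix Λ (bas Γ) at i
      by_cases hi : ∃ d, i = Ix.z d
      · obtain ⟨d, rfl⟩ := hi
        have h3 : p true = 0 := hp true rfl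
        rw [nd_z, nd_z', h3, add_zero]
        exact hK _ d
      · push Not at hi
        have hs : ∀ b, ∃ q, ((two M kc k1 K).nd i b p).1 = some q := by
          intro b
          cases i with
          | z d => exact absurd rfl (hi d)
          | c d => exact ⟨_, rfl⟩
          | x =>
            cases b
            · exact ⟨_, rfl⟩
            · exact ⟨_, rfl⟩
          | m q r =>
            cases b
            · cases h : M q (del (r true : ℕ)) with
              | none => rw [nd_m_none M kc k1 K q r p h]; exact ⟨_, rfl⟩
              | some t => rw [nd_m_some M kc k1 K q r p t h]; exact ⟨_, rfl⟩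
            · exact ⟨_, rfl⟩
        have hL : ∀ b, L ((two M kc k1 K).nd i b p) =
            lab M kc k1 K qf e R ((two M kc k1 K).nd i b p) := by
          intro b
          obtain ⟨q, hq⟩ := hs b
          simp only [L]
          rw [hq]
        rw [hL, hL]
        rcases nx_nd M kc k1 K i hi p hp with h3 | h3
        · exact lab_next M kc k1 K qf hqf e h3
        · rw [h3]
    have key : ∀ u v, (two M kc k1 K).Rel u v → L u = L v := by
      intro u v huv
      induction huv with
      | rel a b hab => exact hstep a b hab
      | refl a => rfl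
      | symm a b _ ih => exact ih.symm
      | trans a b c _ _ ih1 ih2 => exact ih1.trans ih2
    have h3 : L (cc qf e m) = L (cc qf e n) := key _ _ h
    have h4 : ∀ k, L (cc qf e k) = {j | R k j} := fun k =>
      lab_of_reaches M kc k1 K qf hqf e he Relation.ReflTransGen.refl
    rw [h4, h4] at h3
    have h5 : n ∈ {j | R n j} := hR.refl n
    rw [← h3] at h5
    exact h5
  · intro h
    obtain ⟨l, rfl, rfl⟩ := h2 m n h
    have hz : ∀ d, (two M kc k1 K).Rel (cf none (cl l) 0) (cf (some none) (cl l) (K d)) := by
      intro d
      refine Relation.EqvGen.rel _ _ ⟨Ix.z d, fun u => if u then 0 else cl l, ?_, ?_, ?_⟩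
      · intro u hu
        cases u
        · exact absurd hu (by simp [two])
        · rfl
      · rw [nd_z]; rfl
      · rw [nd_z']; simp
    have h3 := fun d => Relation.EqvGen.trans _ _ _ (hz d) (rel_of_reaches M kc k1 K (hG d l))
    exact Relation.EqvGen.trans _ _ _ (Relation.EqvGen.symm _ _ (h3 false)) (h3 true)

end

end Pool.Agent.W382.Iso
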