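import Mathlib
import Pool.Agent.W382.Iso.Lab
import Pool.Agent.Helper227.SOne

set_option autoImplicit false
set_option linter.unusedSectionVars false
set_option linter.unusedVariables false

/-! Systems generating a given recursively enumerable equivalence relation. -/

namespace Pool.Agent.W382.Iso

open Turing StateTransition
open Pool.Agent.H665Simp (kap bas del fa fb Rep RepT rep_act kap_lt kap_inj kap_default del_kap
  enc rep_enc rep_zero bval sym)
open Turing.PartrecToTM2 (trNat)

section

variable {Γ Λ : Type} [Inhabited Γ] [Fintype Γ] [DecidableEq Γ] [Inhabited Λ]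
  (M : TM0.Machine Γ Λ) (kc k1 : ℕ) (K : Bool → ℕ)

theorem sim_step {c c' : TM0.Cfg Γ Λ} (h : TM0.step M c = some c') {n : Bool → ℕ}
    (hn : RepT n c.Tape) : ∃ n', RepT n' c'.Tape ∧
      nx M kc k1 K (some (some c.q), fun u => (n u : ℤ)) =
        some (some (some c'.q), fun u => (n' u : ℤ)) := by
  obtain ⟨q, T⟩ := c
  change RepT n T at hn
  have h0 : TM0.step M ⟨q, T⟩ = (M q T.1).map fun p =>
    ⟨p.1, Pool.Agent.H665Simp.act p.2 T⟩ := rfl
  rw [h0] at h
  cases hM : M q T.1 with
  | none => rw [hM] at h; simp at h
  | some t =>
    rw [hM] at h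
    simp only [Option.map_some, Option.some.injEq] at h
    subst h
    have hr : ∀ j, ((red Γ (fun u => (n u : ℤ)) j : ℕ)) = n j % bas Γ := by
      intro j
      have := red_val (Γ := Γ) (fun u => (n u : ℤ)) j
      have h2 : ((n j : ℤ) % (bas Γ : ℤ)) = ((n j % bas Γ : ℕ) : ℤ) := by push_cast; rfl
      rw [h2] at this
      exact_mod_cast this
    have hh := hn.1.head
    rw [Pool.Agent.H665Simp.head_right₀] at hh
    refine ⟨fun j => fa t.2 j * (n j / bas Γ) + fb t.2 (red Γ (fun u => (n u : ℤ))) j,
      rep_act t.2 T n hn _ hr, ?_⟩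
    rw [nx_m, hr, hh, del_kap, hM]
    simp only [Option.map_some, Option.some.injEq]
    congr 1
    funext u
    push_cast
    ring

theorem sim {c c' : TM0.Cfg Γ Λ} (h : Reaches (TM0.step M) c c') {n : Bool → ℕ}
    (hn : RepT n c.Tape) : ∃ n', RepT n' c'.Tape ∧
      Reaches (nx M kc k1 K) (some (some c.q), fun u => (n u : ℤ))
        (some (some c'.q), fun u => (n' u : ℤ)) := by
  induction h with
  | refl => exact ⟨n, hn, Relation.ReflTransGen.refl⟩
  | tail _ h ih =>
    obtain ⟨n', h1, h2⟩ := ih
    obtain ⟨n'', h3, h4⟩ := sim_step M kc k1 K h h1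
    exact ⟨n'', h3, h2.tail h4⟩

theorem rep_unique (hB : 2 ≤ bas Γ) {l : ListBlank Γ} {x y : ℕ} (hx : Rep x l) (hy : Rep y l) :
    x = y := by
  have key : ∀ N, ∀ x y : ℕ, x ≤ N → y ≤ N → (∀ i, x / bas Γ ^ i % bas Γ = y / bas Γ ^ i % bas Γ) →
      x = y := by
    intro N
    induction N with
    | zero => intro x y hx hy _; omega
    | succ N ih =>
      intro x y hx hy h
      have h0 := h 0
      simp only [pow_zero, Nat.div_one] at h0
      have h1 : x / bas Γ = y / bas Γ := by
        refine ih _ _ ?_ ?_ ?_
        · have : x / bas Γ ≤ x / 2 := Nat.div_le_div_left hB (by norm_num)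
          omega
        · have : y / bas Γ ≤ y / 2 := Nat.div_le_div_left hB (by norm_num)
          omega
        · intro i
          have := h (i + 1)
          rw [pow_succ', ← Nat.div_div_eq_div_mul, ← Nat.div_div_eq_div_mul] at this
          exact this
      rw [← Nat.div_add_mod x (bas Γ), ← Nat.div_add_mod y (bas Γ), h0, h1]
  refine key (max x y) x y (le_max_left _ _) (le_max_right _ _) fun i => ?_
  rw [hx i, hy i]

theorem enc_inj {l l' : List Γ} (hl : ∀ a ∈ l, a ≠ default) (hl' : ∀ a ∈ l', a ≠ default)
    (h : enc l = enc l') : l = l' := by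
  have hk : ∀ a : Γ, a ≠ default → 0 < kap a := by
    intro a ha
    rcases Nat.eq_zero_or_pos (kap a) with h | h
    · rw [← kap_default (Γ := Γ)] at h
      exact absurd (kap_inj h) ha
    · exact h
  induction l generalizing l' with
  | nil =>
    cases l' with
    | nil => rfl
    | cons b l' =>
      exfalso
      have h1 := hk b (hl' b (by simp))
      simp only [enc] at h
      omega
  | cons a l ih =>
    cases l' with
    | nil =>
      exfalso
      have h1 := hk a (hl a (by simp))
      simp only [enc] at h
      omega
    | cons b l' =>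
      simp only [enc] at h
      have ha := kap_lt a
      have hb := kap_lt b
      have h1 : kap a = kap b := by
        have := congrArg (· % bas Γ) h
        simpa [Nat.add_mul_mod_self_left, Nat.mod_eq_of_lt ha, Nat.mod_eq_of_lt hb] using this
      rw [h1] at h
      have h2 : enc l = enc l' := Nat.eq_of_mul_eq_mul_left (bas_pos Γ) (by omega)
      rw [kap_inj h1, ih (fun x hx => hl x (by simp [hx])) (fun x hx => hl' x (by simp [hx])) h2]

end

theorem trNat_injective : Function.Injective trNat := by
  have key : ∀ m n : ℕ, trNat m = trNat n → m = n := by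
    intro m
    induction m using Nat.strong_induction_on with
    | _ m ih =>
      intro n h
      rcases Nat.eq_zero_or_pos m with hm | hm
      · subst hm
        rcases Nat.eq_zero_or_pos n with hn | hn
        · exact hn.symm
        · rw [Pool.Agent.H665Simp.trNat_bval_rec n (by omega)] at h
          simp at h
      · rcases Nat.eq_zero_or_pos n with hn | hn
        · subst hn
          rw [Pool.Agent.H665Simp.trNat_bval_rec m (by omega)] at h
          simp at h
        · rw [Pool.Agent.H665Simp.trNat_bval_rec n (by omega),
            Pool.Agent.H665Simp.trNat_bval_rec m (by omega)] at h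
          have h1 := (List.cons.inj h).1
          have h2 := ih (m / 2) (by omega) (n / 2) (List.cons.inj h).2
          split_ifs at h1 <;> omega
  exact fun m n => key m n

/-- enumeration of the relation -/
theorem exists_enum (R : ℕ → ℕ → Prop) (hR : Equivalence R)
    (hre : REPred fun p : ℕ × ℕ => R p.1 p.2) :
    ∃ g : ℕ → ℕ × ℕ, Computable g ∧ (∀ k, R (g k).1 (g k).2) ∧
      ∀ m n, R m n → ∃ k, g k = (m, n) := by
  classical
  obtain ⟨q, hq, -, he⟩ := Pool.Agent.Helper227.S1.of_re hre
  refine ⟨fun k => if q (k.unpair.1.unpair) k.unpair.2 then k.unpair.1.unpair else (0, 0),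
    ?_, ?_, ?_⟩
  · apply Primrec.to_comp
    have h1 : Primrec (fun k : ℕ => k.unpair.1.unpair) :=
      Primrec.unpair.comp (Primrec.fst.comp Primrec.unpair)
    have h2 : Primrec (fun k : ℕ => k.unpair.2) := Primrec.snd.comp Primrec.unpair
    exact Primrec.ite (hq.comp h1 h2) h1 (Primrec.const (0, 0))
  · intro k
    dsimp only
    split_ifs with h
    · exact (he _).2 ⟨_, h⟩
    · exact hR.refl 0
  · intro m n hmn
    obtain ⟨j, hj⟩ := (he (m, n)).1 hmn
    refine ⟨Nat.pair (Nat.pair m n) j, ?_⟩
    simp [hj]

/-- a system for the relation -/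
theorem exists_system (R : ℕ → ℕ → Prop) (hR : Equivalence R)
    (hre : REPred fun p : ℕ × ℕ => R p.1 p.2) :
    ∃ (St : Type) (_ : Finite St) (S : Two St) (_ : Finite S.I) (q : St) (e : ℕ → ℕ),
      Computable e ∧ ∀ m n, S.Rel (q, fun u => if u then (e m : ℤ) else 0)
        (q, fun u => if u then (e n : ℤ) else 0) ↔ R m n := by
  classical
  obtain ⟨g, hg, hg1, hg2⟩ := exists_enum R hR hre
  let F : ℕ → ℕ := fun n => bif n.bodd then (g (n / 2 - 1)).2 else (g (n / 2 - 1)).1
  have hF : Computable F := by
    have h1 : Computable (fun n : ℕ => g (n / 2 - 1)) :=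
      hg.comp (Primrec.pred.comp (Primrec.nat_div.comp Primrec.id (Primrec.const 2))).to_comp
    exact Computable.cond Primrec.nat_bodd.to_comp (Computable.snd.comp h1)
      (Computable.fst.comp h1)
  obtain ⟨Λ, i1, i2, M, qf, hqf, hM⟩ := machine F hF
  have fK : Finite PartrecToTM2.K' := by
    refine Finite.of_injective (fun k : PartrecToTM2.K' => match k with
      | .main => (0 : Fin 4) | .rev => 1 | .aux => 2 | .stack => 3) ?_
    intro a b h
    cases a <;> cases b <;> simp_all
  have fG : Finite Sy :=
    inferInstanceAs (Finite (Bool × (PartrecToTM2.K' → Option PartrecToTM2.Γ')))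
  let _ : Fintype Sy := Fintype.ofFinite _
  have hB : 2 ≤ bas Sy := by
    unfold bas
    have h3 : 0 < Fintype.card Sy := Fintype.card_pos
    omega
  let bt : Bool → PartrecToTM2.Γ' := fun b => if b then .bit1 else .bit0
  let kc : ℕ := kap (sym true .cons)
  let k1 : ℕ := kap (sym false .bit1)
  let K : Bool → ℕ := fun b => kap (sym false (bt b))
  let e : ℕ → ℕ := fun n => enc (tp n)
  have hne : ∀ b a, sym b a ≠ default := by
    intro b a h
    have := congrFun (congrArg Prod.snd h) PartrecToTM2.K'.main
    simp only [sym, Function.update_self] at this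
    exact absurd this (by
      intro h
      exact absurd h (Option.some_ne_none a))
  have htp : ∀ n, ∀ a ∈ tp n, a ≠ default := by
    intro n a ha
    unfold tp at ha
    rcases List.mem_cons.1 ha with h | h
    · rw [h]; exact hne _ _
    · obtain ⟨x, -, rfl⟩ := List.mem_map.1 h
      exact hne _ _
  have hsym : Function.Injective (sym false) := by
    intro a b h
    have := congrFun (congrArg Prod.snd h) PartrecToTM2.K'.main
    simpa [sym] using this
  have he : Function.Injective e := by
    intro m n h
    have h1 := enc_inj (htp m) (htp n) h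
    unfold tp at h1
    have h2 := (List.cons.inj h1).2
    have h3 := (List.map_injective_iff.2 hsym) h2
    exact trNat_injective (List.reverse_injective h3)
  have hfold : ∀ (l : List Bool) (rest : List Sy),
      enc ((l.map bt).reverse.map (sym false) ++ rest) =
      l.foldl (fun v b => bas Sy * v + K b) (enc rest) := by
    intro l
    induction l with
    | nil => intro rest; rfl
    | cons b l ih =>
      intro rest
      simp only [List.map_cons, List.reverse_cons, List.map_append, List.append_assoc,
        List.foldl_cons, List.map_nil, List.cons_append, List.nil_append]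
      rw [ih]
      congr 1
      simp only [enc, K]
      ring
  have hstart : ∀ b l, e (bval (b :: l)) = kc + bas Sy * (k1 + bas Sy *
      (l.foldl (fun v b => bas Sy * v + K b) (K b))) := by
    intro b l
    have h1 := Pool.Agent.H665Simp.trNat_bval (b :: l)
    have h2 : (b :: l).map (fun b => if b then PartrecToTM2.Γ'.bit1 else PartrecToTM2.Γ'.bit0) =
        (b :: l).map bt := rfl
    rw [h2] at h1
    simp only [e, tp]
    rw [h1]
    simp only [List.reverse_append, List.reverse_cons, List.reverse_nil, List.nil_append,
        List.cons_append, enc]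
    have h3 := hfold (b :: l) []
    rw [List.append_nil] at h3
    rw [List.map_cons]
    simp only [enc]
    rw [h3]
    have h4 : (b :: l).foldl (fun v b => bas Sy * v + K b) (enc ([] : List Sy)) =
        l.foldl (fun v b => bas Sy * v + K b) (K b) := by
      rw [List.foldl_cons]
      simp only [enc, mul_zero, zero_add]
    rw [h4]
  have hrun : ∀ n, Reaches (nx M kc k1 K) (cf (some (some default)) 0 ((e n : ℕ) : ℤ))
      (cc qf e (F n)) := by
    intro n
    have h0 : RepT (fun u : Bool => if u then e n else 0) (TM0.init (Λ := Λ) (tp n)).Tape := by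
      constructor
      · have h1 := rep_enc (tp n)
        have h2 : (Tape.mk₁ (tp n)).right₀ = ListBlank.mk (tp n) := by
          unfold Tape.mk₁ Tape.mk₂
          rw [Tape.mk'_right₀]
        simp only [TM0.init, h2]
        exact h1
      · exact rep_zero
    obtain ⟨n', h1, h2⟩ := sim M kc k1 K (hM n) h0
    have h3 : n' true = e (F n) := by
      refine rep_unique hB h1.1 ?_
      have h1 := rep_enc (tp (F n))
      have h2 : (Tape.mk₁ (tp (F n))).right₀ = ListBlank.mk (tp (F n)) := by
        unfold Tape.mk₁ Tape.mk₂
        rw [Tape.mk'_right₀]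
      simp only [h2]
      exact h1
    have h4 : n' false = 0 := rep_unique (Γ := Sy) hB h1.2 rep_zero
    have h5 : ((some (some (TM0.init (Λ := Λ) (tp n)).q), fun u : Bool =>
        ((if u then e n else 0 : ℕ) : ℤ)) : Option (Option Λ) × (Bool → ℤ)) =
        cf (some (some default)) 0 ((e n : ℕ) : ℤ) := by
      refine Prod.ext rfl ?_
      funext u
      cases u <;> simp [cf]
    have h6 : ((some (some qf), fun u : Bool => ((n' u : ℕ) : ℤ)) :
        Option (Option Λ) × (Bool → ℤ)) = cc qf e (F n) := by
      refine Prod.ext rfl ?_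
      funext u
      cases u
      · simp [cc, cf, h4]
      · simp [cc, cf, h3]
    rw [← h5, ← h6]
    exact h2
  have hcomp : Computable e := by
    have h1 := Pool.Agent.H665Simp.digits_computable (fun a => kap (sym false a))
    have h2 : Computable (fun n : ℕ => ((trNat n).map (fun a => kap (sym false a))).reverse) :=
      Primrec.list_reverse.to_comp.comp h1
    have h3 := (Pool.Agent.H665Simp.foldr_computable (bas Sy)).comp h2
    have h4 : Computable (fun x : ℕ => kap (sym true .cons) + (bas Sy) * x) :=
      (Primrec.nat_add.comp (Primrec.const _)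
        (Primrec.nat_mul.comp (Primrec.const _) Primrec.id)).to_comp
    refine (h4.comp h3).of_eq ?_
    intro n
    have e1 : ∀ l : List PartrecToTM2.Γ', enc (l.map (sym false)) =
        (l.map (fun a => kap (sym false a))).foldr (fun d acc => d + (bas Sy) * acc) 0 := by
      intro l
      induction l with
      | nil => rfl
      | cons a l ih =>
        simp only [List.map_cons, enc, List.foldr_cons, ih]
    simp only [e, tp, enc]
    rw [e1, List.map_reverse]
  have hbv : ∀ b l, bval (b :: l) = (if b then 1 else 0) + 2 * bval l := fun b l => rfl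
  have hFf : ∀ l, F (bval (false :: l)) = (g (bval l - 1)).1 := by
    intro l
    have h1 : bval (false :: l) = 2 * bval l := by rw [hbv]; simp
    simp only [F, h1]
    have h2 : (2 * bval l).bodd = false := by simp
    have h3 : 2 * bval l / 2 = bval l := by omega
    rw [h2, h3]; rfl
  have hFt : ∀ l, F (bval (true :: l)) = (g (bval l - 1)).2 := by
    intro l
    have h1 : bval (true :: l) = 1 + 2 * bval l := by rw [hbv]; simp
    simp only [F, h1]
    have h2 : (1 + 2 * bval l).bodd = true := by simp
    have h3 : (1 + 2 * bval l) / 2 = bval l := by omega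
    rw [h2, h3]; rfl
  have hmain := rel_cc M kc k1 K qf hqf e he hR (fun b l => F (bval (b :: l))) (by
      intro b l
      refine Relation.ReflTransGen.trans (reach_cl M kc k1 K l (K b)) ?_
      rw [← hstart]
      exact hrun _) (by
      intro l
      rw [hFf, hFt]
      exact hg1 _) (by
      intro m n hmn
      obtain ⟨k, hk⟩ := hg2 m n hmn
      obtain ⟨l, hl⟩ := Pool.Agent.H665Simp.bval_surj k
      refine ⟨l, ?_, ?_⟩
      · rw [hFf, hl, Nat.add_sub_cancel, hk]
      · rw [hFt, hl, Nat.add_sub_cancel, hk])
  refine ⟨Option (Option Λ), inferInstance, two M kc k1 K,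
    inferInstanceAs (Finite (Ix Λ (bas Sy))), some (some qf), e, hcomp, ?_⟩
  intro m n
  rw [← hmain m n]
  rfl

end Pool.Agent.W382.Iso
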