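import Mathlib
import Pool.Agent.W382.Iso.Pres
import Pool.Agent.W382.Iso.Sim

set_option autoImplicit false
set_option linter.unusedSectionVars false
set_option linter.unusedVariables false

/-! The reduction. -/

namespace Pool.Agent.W382.Iso

open SemidirectProduct

theorem exists_primes (A : Type) [Fintype A] : Nonempty (Primes A) := by
  classical
  have hinf : {p : ℕ | p.Prime ∧ 5 ≤ p}.Infinite := by
    rw [Set.infinite_iff_exists_gt]
    intro n
    obtain ⟨p, hp1, hp2⟩ := Nat.exists_infinite_primes (n + 5)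
    exact ⟨p, ⟨hp2, by omega⟩, by omega⟩
  let f := hinf.natEmbedding
  let g : A → ℕ := fun a => (Fintype.equivFin A a : ℕ)
  have hg : Function.Injective g := fun a b h =>
    (Fintype.equivFin A).injective (Fin.ext h)
  exact ⟨{ p := fun a => (f (g a) : ℕ)
           prime := fun a => (f (g a)).2.1
           five := fun a => (f (g a)).2.2
           inj := fun a b h => hg (f.injective (Subtype.ext h)) }⟩

/-- the group of a code -/
abbrev CG (a : ℕ × List (List (ℕ × Bool))) : Type :=
  PresentedGroup {g : FreeGroup (Fin a.1) | ∃ w ∈ a.2, g = FreeGroup.mk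
    (w.filterMap (fun q => if h : q.1 < a.1 then some ((⟨q.1, h⟩ : Fin a.1), q.2) else none))}

section

variable {St : Type} [Fintype St] (ϖ : Primes (Bool ⊕ Option St)) (R : Rules St Bool)

/-- the last relator as a word -/
def lastW (q : St) (k : ℕ) : List (GG R × Bool) :=
  [(Sum.inr none, true), (Sum.inl (some (Sum.inr none)), true), (Sum.inr none, false)] ++
    List.replicate k (Sum.inl (some (Sum.inl true)), false) ++
    [(Sum.inl (some (Sum.inr (some q))), false)] ++
    List.replicate k (Sum.inl (some (Sum.inl true)), true) ++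
    [(Sum.inl (some (Sum.inr none)), false)]

theorem mk_lastW (q : St) (k : ℕ) :
    FreeGroup.mk (lastW R q k) = last R (q, FreeGroup.of true ^ k) := by
  unfold lastW last U
  simp only [← FreeGroup.mul_mk, mk_replicate]
  have h1 : kz R (el none 1) = gf R (Sum.inr none) := by simp [kz]
  have h2 : kz R (el (some q) (FreeGroup.of true ^ k)) = (gf R (Sum.inl true) ^ k)⁻¹ *
      gf R (Sum.inr (some q)) * gf R (Sum.inl true) ^ k := by simp [kz]
  rw [map_mul, h1, h2]
  have e1 : FreeGroup.mk [((Sum.inr none : GG R), true),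
      ((Sum.inl (some (Sum.inr none)) : GG R), true), ((Sum.inr none : GG R), false)] =
      gr R none * gf R (Sum.inr none) * (gr R none)⁻¹ := rfl
  have e2 : FreeGroup.mk [((Sum.inl (some (Sum.inl true)) : GG R), false)] =
    (gf R (Sum.inl true))⁻¹ := rfl
  have e3 : FreeGroup.mk [((Sum.inl (some (Sum.inl true)) : GG R), true)] =
    gf R (Sum.inl true) := rfl
  have e4 : FreeGroup.mk [((Sum.inl (some (Sum.inr (some q))) : GG R), false)] =
    (gf R (Sum.inr (some q)))⁻¹ := rfl
  have e5 : FreeGroup.mk [((Sum.inl (some (Sum.inr none)) : GG R), false)] =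
    (gf R (Sum.inr none))⁻¹ := rfl
  rw [e1, e2, e3, e4, e5]
  simp only [mul_inv_rev, inv_inv, inv_pow, mul_assoc]

/-- words over numbers -/
def wn {N : ℕ} {X : Type} (e0 : X ≃ Fin N) (L : List (X × Bool)) : List (ℕ × Bool) :=
  L.map (fun q => ((e0 q.1 : ℕ), q.2))

theorem mk_wn {N : ℕ} {X : Type} (e0 : X ≃ Fin N) (L : List (X × Bool)) :
    FreeGroup.mk ((wn e0 L).filterMap
      (fun q => if h : q.1 < N then some ((⟨q.1, h⟩ : Fin N), q.2) else none)) =
    FreeGroup.freeGroupCongr e0 (FreeGroup.mk L) := by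
  have h1 : (wn e0 L).filterMap
      (fun q => if h : q.1 < N then some ((⟨q.1, h⟩ : Fin N), q.2) else none) =
      L.map (fun q => (e0 q.1, q.2)) := by
    induction L with
    | nil => rfl
    | cons x L ih =>
      have h2 : wn e0 (x :: L) = ((e0 x.1 : ℕ), x.2) :: wn e0 L := rfl
      rw [h2, List.filterMap_cons, ih]
      simp
  rw [h1]
  rfl

theorem code_rels [Finite R.I] [∀ i, Finite (R.T i)] {N : ℕ} (e0 : GG R ≃ Fin N) :
    ∃ L0 : List (List (ℕ × Bool)), ∀ (q : St) (k : ℕ),
      {g : FreeGroup (Fin N) | ∃ w ∈ wn e0 (lastW R q k) :: L0, g = FreeGroup.mk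
        (w.filterMap (fun q => if h : q.1 < N then some ((⟨q.1, h⟩ : Fin N), q.2) else none))} =
      FreeGroup.freeGroupCongr e0 '' rels ϖ R (q, FreeGroup.of true ^ k) := by
  classical
  refine ⟨((rel0_finite ϖ R).toFinset.toList).map (fun g => wn e0 g.toWord), fun q k => ?_⟩
  ext g
  simp only [Set.mem_setOf_eq, Set.mem_image, List.mem_cons, List.mem_map, Finset.mem_toList,
    Set.Finite.mem_toFinset, rels, Set.mem_insert_iff]
  constructor
  · rintro ⟨w, (rfl | ⟨x, hx, rfl⟩), rfl⟩
    · exact ⟨_, Or.inl rfl, by rw [mk_wn, mk_lastW]⟩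
    · exact ⟨x, Or.inr hx, by rw [mk_wn, FreeGroup.mk_toWord]⟩
  · rintro ⟨x, (rfl | hx), rfl⟩
    · exact ⟨_, Or.inl rfl, by rw [mk_wn, mk_lastW]⟩
    · exact ⟨_, Or.inr ⟨x, hx, rfl⟩, by rw [mk_wn, FreeGroup.mk_toWord]⟩

end

theorem primrec_replicate {α : Type} [Primcodable α] (c : α) :
    Primrec (fun k : ℕ => List.replicate k c) := by
  have h1 : Primrec (fun k : ℕ => (List.range k).map (fun _ => c)) :=
    Primrec.list_map Primrec.list_range (Primrec.const c).to₂
  refine h1.of_eq fun k => ?_
  simp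

/-- the reduction -/
theorem reduction (R : ℕ → ℕ → Prop) (hR : Equivalence R)
    (hre : REPred fun p : ℕ × ℕ => R p.1 p.2) :
    ∃ f : ℕ → ℕ × List (List (ℕ × Bool)), Computable f ∧
      ∀ x y, R x y ↔ Nonempty (CG (f x) ≃* CG (f y)) := by
  classical
  obtain ⟨St, i1, S, i2, q, e, he, hS⟩ := exists_system R hR hre
  let _ : Fintype St := Fintype.ofFinite _
  obtain ⟨ϖ⟩ := exists_primes (Bool ⊕ Option St)
  have i3 : Finite S.rules.I := i2
  have i4 : ∀ i, Finite (S.rules.T i) := fun i =>
    inferInstanceAs (Finite {u : Bool // S.dom i u = true})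
  obtain ⟨N, ⟨e0⟩⟩ := Finite.exists_equiv_fin (GG S.rules)
  obtain ⟨L0, hL0⟩ := code_rels ϖ S.rules e0
  refine ⟨fun m => (N, wn e0 (lastW S.rules q (e m)) :: L0), ?_, ?_⟩
  · have h1 : Primrec (fun k : ℕ => wn e0 (lastW S.rules q k)) := by
      have h2 : (fun k : ℕ => wn e0 (lastW S.rules q k)) = fun k =>
        wn e0 [(Sum.inr none, true), (Sum.inl (some (Sum.inr none)), true),
          (Sum.inr none, false)] ++
        List.replicate k ((e0 (Sum.inl (some (Sum.inl true))) : ℕ), false) ++
        wn e0 [(Sum.inl (some (Sum.inr (some q))), false)] ++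
        List.replicate k ((e0 (Sum.inl (some (Sum.inl true))) : ℕ), true) ++
        wn e0 [(Sum.inl (some (Sum.inr none)), false)] := by
        funext k
        unfold wn lastW
        simp only [List.map_append, List.map_replicate]
      rw [h2]
      exact Primrec.list_append.comp (Primrec.list_append.comp (Primrec.list_append.comp
        (Primrec.list_append.comp (Primrec.const _) (primrec_replicate _)) (Primrec.const _))
        (primrec_replicate _)) (Primrec.const _)
    exact (Computable.const N).pair (Primrec.list_cons.to_comp.comp (h1.to_comp.comp he)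
      (Computable.const L0))
  · intro x y
    have hz : ∀ m, (q, FreeGroup.of true ^ e m) =
        Two.emb (q, fun u : Bool => if u then (e m : ℤ) else 0) := by
      intro m
      refine Prod.ext rfl ?_
      simp [Two.emb]
    rw [← hS x y, ← S.rel_iff, ← hz, ← hz, ← pres_iff (ϖ := ϖ)]
    have hiso : ∀ m, Nonempty (PresentedGroup (rels ϖ S.rules (q, FreeGroup.of true ^ e m)) ≃*
        CG (N, wn e0 (lastW S.rules q (e m)) :: L0)) := by
      intro m
      have h1 := PresentedGroup.equivPresentedGroup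
        (rels ϖ S.rules (q, FreeGroup.of true ^ e m)) e0
      rw [← hL0] at h1
      exact ⟨h1⟩
    obtain ⟨a⟩ := hiso x
    obtain ⟨b⟩ := hiso y
    exact ⟨fun ⟨c⟩ => ⟨(a.symm.trans c).trans b⟩, fun ⟨c⟩ => ⟨(a.trans c).trans b.symm⟩⟩

end Pool.Agent.W382.Iso
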