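import Mathlib
import Pool.Agent.W382.Iso.Red
import Pool.Agent.Helper227.SOne

set_option autoImplicit false
set_option linter.unusedSectionVars false
set_option linter.unusedVariables false
set_option maxHeartbeats 1000000

/-! Isomorphism of finite presentations is recursively enumerable. -/

namespace Pool.Agent.W382.Iso

open Pool.Agent.Helper227

/-- words -/
abbrev Wd := List (ℕ × Bool)

/-- codes -/
abbrev Cd := ℕ × List Wd

/-- the relators of a code over all numbers -/
def rn (a : Cd) : Set (FreeGroup ℕ) :=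
  {g | (∃ w ∈ a.2, g = FreeGroup.mk w) ∨ ∃ i, a.1 ≤ i ∧ g = FreeGroup.of i}

/-- the group of a code over all numbers -/
abbrev CN (a : Cd) : Type := PresentedGroup (rn a)

/-- killing the large letters -/
def kil (n : ℕ) : FreeGroup ℕ →* FreeGroup (Fin n) :=
  FreeGroup.lift (fun i => if h : i < n then FreeGroup.of ⟨i, h⟩ else 1)

theorem kil_mk (n : ℕ) (w : Wd) : kil n (FreeGroup.mk w) = FreeGroup.mk
    (w.filterMap (fun q => if h : q.1 < n then some ((⟨q.1, h⟩ : Fin n), q.2) else none)) := by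
  induction w with
  | nil => exact map_one _
  | cons x w ih =>
    have h1 : FreeGroup.mk (x :: w) = FreeGroup.mk [x] * FreeGroup.mk w := by
      rw [FreeGroup.mul_mk]; rfl
    rw [h1, map_mul, ih, List.filterMap_cons]
    obtain ⟨i, b⟩ := x
    have h2 : kil n (FreeGroup.mk [(i, b)]) = if h : i < n then FreeGroup.mk [(⟨i, h⟩, b)] else 1 := by
      cases b
      · have : FreeGroup.mk [(i, false)] = (FreeGroup.of i)⁻¹ := rfl
        rw [this, map_inv, kil, FreeGroup.lift_apply_of]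
        split_ifs with h
        · rfl
        · simp
      · have : FreeGroup.mk [(i, true)] = (FreeGroup.of i) := rfl
        rw [this, kil, FreeGroup.lift_apply_of]
        rfl
    rw [h2]
    by_cases h : i < n
    · simp only [h, dif_pos]
      rw [FreeGroup.mul_mk]; rfl
    · simp [h]

theorem cn_iso (a : Cd) : Nonempty (CG a ≃* CN a) := by
  let ι : FreeGroup (Fin a.1) →* FreeGroup ℕ := FreeGroup.map Fin.val
  let π : FreeGroup ℕ →* CN a := PresentedGroup.mk _
  have h1 : ∀ x, π (ι (kil a.1 x)) = π x := by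
    intro x
    have : (π.comp ι).comp (kil a.1) = π := by
      ext i
      simp only [MonoidHom.comp_apply, kil, FreeGroup.lift_apply_of]
      split_ifs with h
      · simp [ι]
      · rw [map_one, map_one]
        exact (PresentedGroup.one_of_mem (Or.inr ⟨i, by omega, rfl⟩)).symm
    exact DFunLike.congr_fun this x
  let ρ : FreeGroup (Fin a.1) →* CG a := PresentedGroup.mk _
  have e1 : (FreeGroup.lift (fun i : Fin a.1 => π (FreeGroup.of i.val))) = π.comp ι := by
    ext i
    simp [ι]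
  have e2 : (FreeGroup.lift (fun i : ℕ => ρ (kil a.1 (FreeGroup.of i)))) = ρ.comp (kil a.1) := by
    ext i
    simp
  let F : CG a →* CN a := PresentedGroup.toGroup (f := fun i : Fin a.1 => π (FreeGroup.of i.val)) (by
    rintro r ⟨w, hw, rfl⟩
    rw [e1, ← kil_mk]
    change π (ι (kil a.1 _)) = 1
    rw [h1]
    exact PresentedGroup.one_of_mem (Or.inl ⟨w, hw, rfl⟩))
  let G : CN a →* CG a := PresentedGroup.toGroup (f := fun i : ℕ => ρ (kil a.1 (FreeGroup.of i))) (by
    rintro r (⟨w, hw, rfl⟩ | ⟨i, hi, rfl⟩)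
    · rw [e2]
      change ρ (kil a.1 _) = 1
      rw [kil_mk]
      exact PresentedGroup.one_of_mem ⟨w, hw, rfl⟩
    · rw [e2]
      change ρ (kil a.1 _) = 1
      rw [kil, FreeGroup.lift_apply_of, dif_neg (by omega), map_one])
  refine ⟨MonoidHom.toMulEquiv F G ?_ ?_⟩
  · ext i
    change G (F (PresentedGroup.of i)) = PresentedGroup.of i
    have : F (PresentedGroup.of i) = PresentedGroup.of i.val := PresentedGroup.toGroup.of _
    rw [this]
    have : G (PresentedGroup.of i.val) = ρ (kil a.1 (FreeGroup.of i.val)) :=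
      PresentedGroup.toGroup.of _
    rw [this, kil, FreeGroup.lift_apply_of, dif_pos i.2]
    rfl
  · ext i
    change F (G (PresentedGroup.of i)) = PresentedGroup.of i
    have : G (PresentedGroup.of i) = ρ (kil a.1 (FreeGroup.of i)) :=
      PresentedGroup.toGroup.of _
    rw [this]
    have h2 : ∀ x, F (ρ x) = π (ι x) := by
      intro x
      have : F.comp ρ = π.comp ι := by
        rw [← e1]
        rfl
      exact DFunLike.congr_fun this x
    rw [h2, h1]
    rfl

/-- trivial words -/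
def Tr (a : Cd) (w : Wd) : Prop := PresentedGroup.mk (rn a) (FreeGroup.mk w) = 1

/-- relators as words -/
def OKr (a : Cd) (r : Wd) : Prop :=
  (∃ w ∈ a.2, r = w) ∨ (∃ w ∈ a.2, r = FreeGroup.invRev w) ∨ ∃ q ∈ r, r = [q] ∧ a.1 ≤ q.1

/-- product of conjugates -/
def pc (l : List (Wd × Wd)) : Wd := l.flatMap (fun p => p.1 ++ (p.2 ++ FreeGroup.invRev p.1))

theorem okr_mk {a : Cd} {r : Wd} (h : OKr a r) : PresentedGroup.mk (rn a) (FreeGroup.mk r) = 1 := by
  rcases h with ⟨w, hw, rfl⟩ | ⟨w, hw, rfl⟩ | ⟨q, -, h1, h2⟩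
  · exact PresentedGroup.one_of_mem (Or.inl ⟨_, hw, rfl⟩)
  · rw [← FreeGroup.inv_mk, map_inv, inv_eq_one]
    exact PresentedGroup.one_of_mem (Or.inl ⟨_, hw, rfl⟩)
  · rw [h1]
    obtain ⟨i, b⟩ := q
    have h3 : PresentedGroup.mk (rn a) (FreeGroup.of i) = 1 :=
      PresentedGroup.one_of_mem (Or.inr ⟨i, h2, rfl⟩)
    cases b
    · have : FreeGroup.mk [(i, false)] = (FreeGroup.of i)⁻¹ := rfl
      rw [this, map_inv, h3, inv_one]
    · exact h3

theorem okr_inv {a : Cd} {r : Wd} (h : OKr a r) : OKr a (FreeGroup.invRev r) := by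
  rcases h with ⟨w, hw, rfl⟩ | ⟨w, hw, rfl⟩ | ⟨q, -, h1, h2⟩
  · exact Or.inr (Or.inl ⟨_, hw, rfl⟩)
  · exact Or.inl ⟨_, hw, FreeGroup.invRev_invRev⟩
  · refine Or.inr (Or.inr ⟨(q.1, !q.2), ?_, ?_, h2⟩)
    · rw [h1]; simp [FreeGroup.invRev]
    · rw [h1]; simp [FreeGroup.invRev]

theorem pc_cons (p : Wd × Wd) (l : List (Wd × Wd)) : FreeGroup.mk (pc (p :: l)) =
    FreeGroup.mk p.1 * FreeGroup.mk p.2 * (FreeGroup.mk p.1)⁻¹ * FreeGroup.mk (pc l) := by
  rw [FreeGroup.inv_mk, FreeGroup.mul_mk, FreeGroup.mul_mk, FreeGroup.mul_mk]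
  simp [pc]

theorem pc_append (l l' : List (Wd × Wd)) : FreeGroup.mk (pc (l ++ l')) =
    FreeGroup.mk (pc l) * FreeGroup.mk (pc l') := by
  rw [FreeGroup.mul_mk]
  simp [pc]

theorem tr_iff (a : Cd) (w : Wd) : Tr a w ↔ ∃ l : List (Wd × Wd), (∀ p ∈ l, OKr a p.2) ∧
    FreeGroup.mk w = FreeGroup.mk (pc l) := by
  constructor
  · intro h
    have h1 : FreeGroup.mk w ∈ Subgroup.normalClosure (rn a) := PresentedGroup.mk_eq_one_iff.1 h
    have key : ∀ x ∈ Subgroup.normalClosure (rn a), ∃ l : List (Wd × Wd), (∀ p ∈ l, OKr a p.2) ∧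
        x = FreeGroup.mk (pc l) := by
      intro x hx
      refine Subgroup.closure_induction (p := fun x _ => ∃ l : List (Wd × Wd),
        (∀ p ∈ l, OKr a p.2) ∧ x = FreeGroup.mk (pc l)) ?_ ?_ ?_ ?_ hx
      · intro x hx
        obtain ⟨r, hr, hc⟩ := Group.mem_conjugatesOfSet_iff.1 hx
        obtain ⟨c, rfl⟩ := isConj_iff.1 hc
        obtain ⟨cw, rfl⟩ : ∃ cw, FreeGroup.mk cw = c := ⟨c.toWord, FreeGroup.mk_toWord⟩
        obtain ⟨rw', hrw, rfl⟩ : ∃ rw', OKr a rw' ∧ FreeGroup.mk rw' = r := by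
          rcases hr with ⟨w, hw, rfl⟩ | ⟨i, hi, rfl⟩
          · exact ⟨w, Or.inl ⟨w, hw, rfl⟩, rfl⟩
          · exact ⟨[(i, true)], Or.inr (Or.inr ⟨(i, true), by simp, rfl, hi⟩), rfl⟩
        refine ⟨[(cw, rw')], by simpa using hrw, ?_⟩
        rw [pc_cons]
        have : FreeGroup.mk (pc []) = 1 := rfl
        rw [this, mul_one]
      · exact ⟨[], by simp, rfl⟩
      · rintro x y _ _ ⟨l, h1, rfl⟩ ⟨l', h2, rfl⟩
        refine ⟨l ++ l', ?_, (pc_append l l').symm⟩
        intro p hp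
        rcases List.mem_append.1 hp with h | h
        · exact h1 p h
        · exact h2 p h
      · rintro x hx' ⟨l, h1, rfl⟩
        clear hx'
        induction l with
        | nil => exact ⟨[], by simp, by simp [pc, ← FreeGroup.one_eq_mk]⟩
        | cons p l ih =>
          obtain ⟨l', h2, h3⟩ := ih (fun p hp => h1 p (by simp [hp]))
          refine ⟨l' ++ [(p.1, FreeGroup.invRev p.2)], ?_, ?_⟩
          · intro q hq
            rcases List.mem_append.1 hq with h | h
            · exact h2 q h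
            · rw [List.mem_singleton.1 h]
              exact okr_inv (h1 p (by simp))
          · rw [pc_append, ← h3, pc_cons, pc_cons]
            have : FreeGroup.mk (pc []) = 1 := rfl
            rw [this, ← FreeGroup.inv_mk]
            simp [mul_assoc]
    exact key _ h1
  · rintro ⟨l, h1, h2⟩
    unfold Tr
    rw [h2]
    clear h2
    induction l with
    | nil => exact map_one _
    | cons p l ih =>
      rw [pc_cons, map_mul, map_mul, map_mul, okr_mk (h1 p (by simp)),
        ih (fun p hp => h1 p (by simp [hp])), map_inv]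
      simp

/-- one step of free reduction -/
def rst (x : ℕ × Bool) (s : Wd) : Wd := if s.head? = some (x.1, !x.2) then s.tail else x :: s

theorem reduce_eq (w : Wd) : FreeGroup.reduce w = w.foldr rst [] := by
  induction w with
  | nil => rfl
  | cons x w ih =>
    rw [FreeGroup.reduce.cons, ih, List.foldr_cons]
    generalize w.foldr rst [] = s
    cases s with
    | nil => simp [rst]
    | cons y t =>
      simp only [rst, List.head?_cons, Option.some.injEq, List.tail_cons]
      by_cases h : y = (x.1, !x.2)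
      · subst h
        simp
      · rw [if_neg h, if_neg]
        rintro ⟨h1, h2⟩
        exact h (Prod.ext h1.symm (by rw [h2]; simp))

theorem primrec_rst : Primrec₂ rst := by
  refine Primrec.ite (PrimrecRel.comp Primrec.eq (Primrec.list_head?.comp Primrec.snd)
    (Primrec.option_some.comp ((Primrec.fst.comp Primrec.fst).pair
      (Primrec.not.comp (Primrec.snd.comp Primrec.fst))))) (Primrec.list_tail.comp Primrec.snd)
    (Primrec.list_cons.comp Primrec.fst Primrec.snd)

theorem primrec_reduce : Primrec (fun w : Wd => FreeGroup.reduce w) := by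
  have h : Primrec (fun w : Wd => w.foldr (fun x s => rst x s) []) :=
    Primrec.list_foldr (f := fun w : Wd => w) (g := fun _ => ([] : Wd))
      (h := fun _ (p : (ℕ × Bool) × Wd) => rst p.1 p.2) Primrec.id (Primrec.const [])
      (primrec_rst.comp (Primrec.fst.comp Primrec.snd) (Primrec.snd.comp Primrec.snd)).to₂
  exact h.of_eq fun w => (reduce_eq w).symm

theorem primrec_invRev : Primrec (fun w : Wd => FreeGroup.invRev w) := by
  unfold FreeGroup.invRev
  exact Primrec.list_reverse.comp (Primrec.list_map Primrec.id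
    ((Primrec.fst.comp Primrec.snd).pair (Primrec.not.comp (Primrec.snd.comp Primrec.snd))).to₂)

theorem primrec_pc : Primrec (fun l : List (Wd × Wd) => pc l) := by
  unfold pc
  exact Primrec.list_flatMap Primrec.id (Primrec.list_append.comp (Primrec.fst.comp Primrec.snd)
    (Primrec.list_append.comp (Primrec.snd.comp Primrec.snd)
      (primrec_invRev.comp (Primrec.fst.comp Primrec.snd)))).to₂

theorem prim_okr : PrimrecPred (fun x : Cd × Wd => OKr x.1 x.2) := by
  unfold OKr
  refine PrimrecPred.or ?_ (PrimrecPred.or ?_ ?_)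
  · exact PP.ex_mem (α := Cd × Wd) (f := fun x => x.1.2) (p := fun x w => x.2 = w)
      (PrimrecRel.comp Primrec.eq (Primrec.snd.comp Primrec.fst) Primrec.snd)
      (Primrec.snd.comp Primrec.fst)
  · exact PP.ex_mem (α := Cd × Wd) (f := fun x => x.1.2) (p := fun x w => x.2 = FreeGroup.invRev w)
      (PrimrecRel.comp Primrec.eq (Primrec.snd.comp Primrec.fst)
        (primrec_invRev.comp Primrec.snd))
      (Primrec.snd.comp Primrec.fst)
  · exact PP.ex_mem (α := Cd × Wd) (f := fun x => x.2) (p := fun x q => x.2 = [q] ∧ x.1.1 ≤ q.1)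
      (PrimrecPred.and (PrimrecRel.comp Primrec.eq (Primrec.snd.comp Primrec.fst)
        (Primrec.list_cons.comp Primrec.snd (Primrec.const [])))
        (PrimrecRel.comp Primrec.nat_le (Primrec.fst.comp (Primrec.fst.comp Primrec.fst))
          (Primrec.fst.comp Primrec.snd)))
      Primrec.snd

theorem s1_tr : S1 (fun x : Cd × Wd => Tr x.1 x.2) := by
  have h : S1 (fun x : Cd × Wd => ∃ l : List (Wd × Wd), (∀ p ∈ l, OKr x.1 p.2) ∧
      FreeGroup.reduce x.2 = FreeGroup.reduce (pc l)) := by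
    refine S1.ex (p := fun (x : Cd × Wd) (l : List (Wd × Wd)) => (∀ p ∈ l, OKr x.1 p.2) ∧
      FreeGroup.reduce x.2 = FreeGroup.reduce (pc l)) (S1.of_prim ?_)
    refine PrimrecPred.and ?_ ?_
    · exact PP.all_mem (α := (Cd × Wd) × List (Wd × Wd)) (f := fun x => x.2)
        (p := fun x p => OKr x.1.1 p.2)
        (prim_okr.comp ((Primrec.fst.comp (Primrec.fst.comp Primrec.fst)).pair
          (Primrec.snd.comp Primrec.snd))) Primrec.snd
    · exact PrimrecRel.comp Primrec.eq (primrec_reduce.comp (Primrec.snd.comp Primrec.fst))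
        (primrec_reduce.comp (primrec_pc.comp Primrec.snd))
  refine h.of_eq fun x => ?_
  rw [tr_iff]
  refine exists_congr fun l => and_congr_right fun _ => ?_
  exact ⟨fun h => FreeGroup.reduce.exact h, fun h => FreeGroup.reduce.sound h⟩

/-- substitution -/
def sbs (u : List Wd) (w : Wd) : Wd :=
  w.flatMap (fun q => if q.2 then u.getD q.1 [] else FreeGroup.invRev (u.getD q.1 []))

theorem mk_sbs (u : List Wd) (w : Wd) : FreeGroup.mk (sbs u w) =
    FreeGroup.lift (fun i => FreeGroup.mk (u.getD i [])) (FreeGroup.mk w) := by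
  induction w with
  | nil =>
    have : sbs u [] = [] := rfl
    rw [this]
    exact (map_one _).symm
  | cons x w ih =>
    have h1 : FreeGroup.mk (x :: w) = FreeGroup.mk [x] * FreeGroup.mk w := by
      rw [FreeGroup.mul_mk]; rfl
    have h2 : sbs u (x :: w) = (if x.2 then u.getD x.1 [] else
      FreeGroup.invRev (u.getD x.1 [])) ++ sbs u w := by simp [sbs]
    rw [h1, map_mul, ← ih, h2, ← FreeGroup.mul_mk]
    congr 1
    obtain ⟨i, b⟩ := x
    cases b
    · have : FreeGroup.mk [(i, false)] = (FreeGroup.of i)⁻¹ := rfl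
      rw [this, map_inv, FreeGroup.lift_apply_of, FreeGroup.inv_mk]
      simp
    · have : FreeGroup.mk [(i, true)] = (FreeGroup.of i) := rfl
      rw [this, FreeGroup.lift_apply_of]
      simp

theorem primrec_sbs : Primrec₂ sbs := by
  unfold sbs
  refine Primrec.list_flatMap Primrec.snd ?_
  have h1 : Primrec (fun x : (List Wd × Wd) × (ℕ × Bool) => x.1.1.getD x.2.1 []) :=
    (Primrec.list_getD []).comp (Primrec.fst.comp Primrec.fst) (Primrec.fst.comp Primrec.snd)
  have h2 : Primrec (fun x : (List Wd × Wd) × (ℕ × Bool) => bif x.2.2 then x.1.1.getD x.2.1 []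
      else FreeGroup.invRev (x.1.1.getD x.2.1 [])) :=
    Primrec.cond (Primrec.snd.comp Primrec.snd) h1 (primrec_invRev.comp h1)
  have h3 : Primrec (fun x : (List Wd × Wd) × (ℕ × Bool) => if x.2.2 = true then
      x.1.1.getD x.2.1 [] else FreeGroup.invRev (x.1.1.getD x.2.1 [])) :=
    h2.of_eq fun x => by cases x.2.2 <;> rfl
  exact h3

/-- certificates -/
def Cert (x : Cd × Cd) (y : List Wd × List Wd) : Prop :=
  (∀ w ∈ x.1.2, Tr x.2 (sbs y.1 w)) ∧ (∀ w ∈ x.2.2, Tr x.1 (sbs y.2 w)) ∧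
  (∀ i ∈ List.range x.1.1, Tr x.1 (sbs y.2 (y.1.getD i []) ++ [(i, false)])) ∧
  (∀ i ∈ List.range x.2.1, Tr x.2 (sbs y.1 (y.2.getD i []) ++ [(i, false)])) ∧
  y.1.length ≤ x.1.1 ∧ y.2.length ≤ x.2.1

section irr

attribute [local irreducible] Tr sbs

/-- certificate data -/
abbrev ZZ := (Cd × Cd) × (List Wd × List Wd)

theorem c1 : Primrec (fun z : ZZ × Wd => (z.1.1.2, sbs z.1.2.1 z.2)) :=
  ((Primrec.snd.comp Primrec.fst).comp Primrec.fst).pair
    (primrec_sbs.comp ((Primrec.fst.comp Primrec.snd).comp Primrec.fst) Primrec.snd)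

theorem c2 : Primrec (fun z : ZZ × Wd => (z.1.1.1, sbs z.1.2.2 z.2)) :=
  ((Primrec.fst.comp Primrec.fst).comp Primrec.fst).pair
    (primrec_sbs.comp ((Primrec.snd.comp Primrec.snd).comp Primrec.fst) Primrec.snd)

theorem c0 : Primrec (fun i : ℕ => ([(i, false)] : Wd)) :=
  Primrec.list_cons.comp (Primrec.id.pair (Primrec.const false)) (Primrec.const [])

theorem g1 : Primrec (fun z : ZZ × ℕ => (z.1.2.1.getD z.2 [] : Wd)) :=
  (Primrec.list_getD []).comp ((Primrec.fst.comp Primrec.snd).comp Primrec.fst) Primrec.snd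

theorem g2 : Primrec (fun z : ZZ × ℕ => (z.1.2.2.getD z.2 [] : Wd)) :=
  (Primrec.list_getD []).comp ((Primrec.snd.comp Primrec.snd).comp Primrec.fst) Primrec.snd

theorem c3 : Primrec (fun z : ZZ × ℕ =>
    (z.1.1.1, sbs z.1.2.2 (z.1.2.1.getD z.2 []) ++ [(z.2, false)])) :=
  ((Primrec.fst.comp Primrec.fst).comp Primrec.fst).pair (Primrec.list_append.comp
    (primrec_sbs.comp ((Primrec.snd.comp Primrec.snd).comp Primrec.fst) g1)
    (c0.comp Primrec.snd))

theorem c4 : Primrec (fun z : ZZ × ℕ =>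
    (z.1.1.2, sbs z.1.2.1 (z.1.2.2.getD z.2 []) ++ [(z.2, false)])) :=
  ((Primrec.snd.comp Primrec.fst).comp Primrec.fst).pair (Primrec.list_append.comp
    (primrec_sbs.comp ((Primrec.fst.comp Primrec.snd).comp Primrec.fst) g2)
    (c0.comp Primrec.snd))

theorem t1 : S1 (fun z : ZZ × Wd => Tr z.1.1.2 (sbs z.1.2.1 z.2)) :=
  S1.comp (p := fun x : Cd × Wd => Tr x.1 x.2) (f := fun z : ZZ × Wd =>
    ((z.1.1.2, sbs z.1.2.1 z.2) : Cd × Wd)) s1_tr c1

theorem t2 : S1 (fun z : ZZ × Wd => Tr z.1.1.1 (sbs z.1.2.2 z.2)) :=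
  S1.comp (p := fun x : Cd × Wd => Tr x.1 x.2) (f := fun z : ZZ × Wd =>
    ((z.1.1.1, sbs z.1.2.2 z.2) : Cd × Wd)) s1_tr c2

theorem t3 : S1 (fun z : ZZ × ℕ => Tr z.1.1.1 (sbs z.1.2.2 (z.1.2.1.getD z.2 []) ++ [(z.2, false)])) :=
  S1.comp (p := fun x : Cd × Wd => Tr x.1 x.2) (f := fun z : ZZ × ℕ =>
    ((z.1.1.1, sbs z.1.2.2 (z.1.2.1.getD z.2 []) ++ [(z.2, false)]) : Cd × Wd)) s1_tr c3

theorem t4 : S1 (fun z : ZZ × ℕ => Tr z.1.1.2 (sbs z.1.2.1 (z.1.2.2.getD z.2 []) ++ [(z.2, false)])) :=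
  S1.comp (p := fun x : Cd × Wd => Tr x.1 x.2) (f := fun z : ZZ × ℕ =>
    ((z.1.1.2, sbs z.1.2.1 (z.1.2.2.getD z.2 []) ++ [(z.2, false)]) : Cd × Wd)) s1_tr c4

theorem l1 : Primrec (fun z : ZZ => z.1.1.2) := Primrec.snd.comp (Primrec.fst.comp Primrec.fst)

theorem l2 : Primrec (fun z : ZZ => z.1.2.2) := Primrec.snd.comp (Primrec.snd.comp Primrec.fst)

theorem l3 : Primrec (fun z : ZZ => List.range z.1.1.1) :=
  Primrec.list_range.comp (Primrec.fst.comp (Primrec.fst.comp Primrec.fst))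

theorem l4 : Primrec (fun z : ZZ => List.range z.1.2.1) :=
  Primrec.list_range.comp (Primrec.fst.comp (Primrec.snd.comp Primrec.fst))

theorem s1 : S1 (fun z : ZZ => ∀ w ∈ z.1.1.2, Tr z.1.2 (sbs z.2.1 w)) :=
  S1.all_mem (α := ZZ) (β := Wd) (p := fun z w => Tr z.1.2 (sbs z.2.1 w)) (f := fun z => z.1.1.2)
    t1 l1

theorem s2 : S1 (fun z : ZZ => ∀ w ∈ z.1.2.2, Tr z.1.1 (sbs z.2.2 w)) :=
  S1.all_mem (α := ZZ) (β := Wd) (p := fun z w => Tr z.1.1 (sbs z.2.2 w)) (f := fun z => z.1.2.2)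
    t2 l2

theorem s3 : S1 (fun z : ZZ => ∀ i ∈ List.range z.1.1.1,
    Tr z.1.1 (sbs z.2.2 (z.2.1.getD i []) ++ [(i, false)])) :=
  S1.all_mem (α := ZZ) (β := ℕ)
    (p := fun z i => Tr z.1.1 (sbs z.2.2 (z.2.1.getD i []) ++ [(i, false)]))
    (f := fun z => List.range z.1.1.1) t3 l3

theorem s4 : S1 (fun z : ZZ => ∀ i ∈ List.range z.1.2.1,
    Tr z.1.2 (sbs z.2.1 (z.2.2.getD i []) ++ [(i, false)])) :=
  S1.all_mem (α := ZZ) (β := ℕ)
    (p := fun z i => Tr z.1.2 (sbs z.2.1 (z.2.2.getD i []) ++ [(i, false)]))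
    (f := fun z => List.range z.1.2.1) t4 l4

theorem s5 : S1 (fun z : ZZ => z.2.1.length ≤ z.1.1.1) :=
  S1.of_prim (PrimrecRel.comp Primrec.nat_le (Primrec.list_length.comp
    (Primrec.fst.comp Primrec.snd)) (Primrec.fst.comp (Primrec.fst.comp Primrec.fst)))

theorem s6 : S1 (fun z : ZZ => z.2.2.length ≤ z.1.2.1) :=
  S1.of_prim (PrimrecRel.comp Primrec.nat_le (Primrec.list_length.comp
    (Primrec.snd.comp Primrec.snd)) (Primrec.fst.comp (Primrec.snd.comp Primrec.fst)))

theorem s1_cert : S1 (fun z : ZZ => Cert z.1 z.2) :=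
  S1.and s1 (S1.and s2 (S1.and s3 (S1.and s4 (S1.and s5 s6))))

end irr

theorem getD_big {u : List Wd} {n i : ℕ} (h : u.length ≤ n) (hi : n ≤ i) : u.getD i [] = [] := by
  rw [List.getD_eq_getElem?_getD, List.getElem?_eq_none (by omega)]; rfl

/-- the homomorphism of a certificate -/
theorem hom_of_cert {a b : Cd} {u : List Wd} (h1 : ∀ w ∈ a.2, Tr b (sbs u w))
    (h2 : u.length ≤ a.1) : ∃ F : CN a →* CN b, ∀ w,
      F (PresentedGroup.mk (rn a) (FreeGroup.mk w)) =
        PresentedGroup.mk (rn b) (FreeGroup.mk (sbs u w)) := by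
  let f : ℕ → CN b := fun i => PresentedGroup.mk (rn b) (FreeGroup.mk (u.getD i []))
  have hf : FreeGroup.lift f = (PresentedGroup.mk (rn b)).comp
      (FreeGroup.lift (fun i => FreeGroup.mk (u.getD i []))) := by
    ext i
    simp [f]
  have hr : ∀ r ∈ rn a, FreeGroup.lift f r = 1 := by
    rintro r (⟨w, hw, rfl⟩ | ⟨i, hi, rfl⟩)
    · rw [hf]
      simp only [MonoidHom.comp_apply]
      rw [← mk_sbs]
      exact h1 w hw
    · rw [FreeGroup.lift_apply_of]
      simp only [f]
      rw [getD_big h2 hi]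
      exact map_one _
  refine ⟨PresentedGroup.toGroup hr, fun w => ?_⟩
  change FreeGroup.lift f (FreeGroup.mk w) = _
  rw [hf, mk_sbs]
  rfl

theorem tr_append_inv {a : Cd} {w : Wd} {i : ℕ} (h : Tr a (w ++ [(i, false)])) :
    PresentedGroup.mk (rn a) (FreeGroup.mk w) = PresentedGroup.of i := by
  unfold Tr at h
  rw [← FreeGroup.mul_mk, map_mul] at h
  have h1 : FreeGroup.mk [(i, false)] = (FreeGroup.of i)⁻¹ := rfl
  rw [h1, map_inv, mul_inv_eq_one] at h
  exact h

theorem comp_cert {a b : Cd} {u v : List Wd} {F : CN a →* CN b} {G : CN b →* CN a}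
    (hF : ∀ w, F (PresentedGroup.mk (rn a) (FreeGroup.mk w)) =
        PresentedGroup.mk (rn b) (FreeGroup.mk (sbs u w)))
    (hG : ∀ w, G (PresentedGroup.mk (rn b) (FreeGroup.mk w)) =
        PresentedGroup.mk (rn a) (FreeGroup.mk (sbs v w)))
    (h : ∀ i ∈ List.range a.1, Tr a (sbs v (u.getD i []) ++ [(i, false)])) :
    G.comp F = MonoidHom.id _ := by
  ext i
  simp only [MonoidHom.comp_apply, MonoidHom.id_apply]
  by_cases hi : i < a.1
  · have h1 : F (PresentedGroup.of i) = PresentedGroup.mk (rn b) (FreeGroup.mk (u.getD i [])) := by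
      have h2 := hF [(i, true)]
      have h3 : sbs u [(i, true)] = u.getD i [] := by simp [sbs]
      rw [h3] at h2
      exact h2
    rw [h1, hG]
    exact tr_append_inv (h i (List.mem_range.2 hi))
  · have h1 : (PresentedGroup.of i : CN a) = 1 :=
      PresentedGroup.one_of_mem (Or.inr ⟨i, by omega, rfl⟩)
    rw [h1, map_one, map_one]

/-- words for a homomorphism -/
theorem exists_words {a b : Cd} (F : CN a →* CN b) : ∃ u : List Wd, u.length ≤ a.1 ∧
    ∀ w, F (PresentedGroup.mk (rn a) (FreeGroup.mk w)) =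
        PresentedGroup.mk (rn b) (FreeGroup.mk (sbs u w)) := by
  have hch : ∀ i : ℕ, ∃ w : Wd, PresentedGroup.mk (rn b) (FreeGroup.mk w) =
      F (PresentedGroup.of i) := by
    intro i
    obtain ⟨x, hx⟩ := PresentedGroup.mk_surjective (rn b) (F (PresentedGroup.of i))
    exact ⟨x.toWord, by rw [FreeGroup.mk_toWord, hx]⟩
  choose c hc using hch
  refine ⟨(List.range a.1).map c, by simp, fun w => ?_⟩
  rw [mk_sbs]
  have h1 : F.comp (PresentedGroup.mk (rn a)) = (PresentedGroup.mk (rn b)).comp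
      (FreeGroup.lift (fun i => FreeGroup.mk (((List.range a.1).map c).getD i []))) := by
    ext i
    simp only [MonoidHom.comp_apply, FreeGroup.lift_apply_of]
    by_cases hi : i < a.1
    · have h2 : ((List.range a.1).map c).getD i [] = c i := by
        rw [List.getD_eq_getElem?_getD, List.getElem?_map, List.getElem?_range hi]; rfl
      rw [h2, hc]
      rfl
    · rw [getD_big (n := a.1) (by simp) (by omega)]
      have h3 : (PresentedGroup.mk (rn a) (FreeGroup.of i) : CN a) = 1 :=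
        PresentedGroup.one_of_mem (Or.inr ⟨i, by omega, rfl⟩)
      rw [h3, map_one]
      exact (map_one _).symm
  exact DFunLike.congr_fun h1 (FreeGroup.mk w)

theorem cert_iff (a b : Cd) : (∃ y, Cert (a, b) y) ↔ Nonempty (CN a ≃* CN b) := by
  constructor
  · rintro ⟨⟨u, v⟩, h1, h2, h3, h4, h5, h6⟩
    obtain ⟨F, hF⟩ := hom_of_cert h1 h5
    obtain ⟨G, hG⟩ := hom_of_cert h2 h6
    exact ⟨MonoidHom.toMulEquiv F G (comp_cert hF hG h3) (comp_cert hG hF h4)⟩
  · rintro ⟨φ⟩
    obtain ⟨u, hu1, hu2⟩ := exists_words φ.toMonoidHom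
    obtain ⟨v, hv1, hv2⟩ := exists_words φ.symm.toMonoidHom
    have key : ∀ {a b : Cd} {F : CN a →* CN b} {u : List Wd},
        (∀ w, F (PresentedGroup.mk (rn a) (FreeGroup.mk w)) =
          PresentedGroup.mk (rn b) (FreeGroup.mk (sbs u w))) → ∀ w ∈ a.2, Tr b (sbs u w) := by
      intro a b F u hF w hw
      unfold Tr
      rw [← hF]
      have : PresentedGroup.mk (rn a) (FreeGroup.mk w) = 1 :=
        PresentedGroup.one_of_mem (Or.inl ⟨w, hw, rfl⟩)
      rw [this, map_one]
    have key2 : ∀ {a b : Cd} {F : CN a →* CN b} {G : CN b →* CN a} {u v : List Wd},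
        (∀ w, F (PresentedGroup.mk (rn a) (FreeGroup.mk w)) =
          PresentedGroup.mk (rn b) (FreeGroup.mk (sbs u w))) →
        (∀ w, G (PresentedGroup.mk (rn b) (FreeGroup.mk w)) =
          PresentedGroup.mk (rn a) (FreeGroup.mk (sbs v w))) → (∀ x, G (F x) = x) →
        ∀ i ∈ List.range a.1, Tr a (sbs v (u.getD i []) ++ [(i, false)]) := by
      intro a b F G u v hF hG hGF i _
      unfold Tr
      rw [← FreeGroup.mul_mk, map_mul, ← hG]
      have h3 : sbs u [(i, true)] = u.getD i [] := by simp [sbs]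
      rw [← h3, ← hF, hGF]
      rw [← map_mul, FreeGroup.mul_mk]
      have h4 : FreeGroup.mk ([(i, true)] ++ [(i, false)]) = FreeGroup.of i * (FreeGroup.of i)⁻¹ :=
        rfl
      rw [h4, mul_inv_cancel, map_one]
    exact ⟨(u, v), key hu2, key hv2, key2 hu2 hv2 (fun x => φ.symm_apply_apply x),
      key2 hv2 hu2 (fun x => φ.apply_symm_apply x), hu1, hv1⟩

theorem iso_re : REPred (fun p : Cd × Cd => Nonempty (CG p.1 ≃* CG p.2)) := by
  have h : S1 (fun p : Cd × Cd => ∃ y, Cert p y) := S1.ex s1_cert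
  refine (h.of_eq fun p => ?_).re
  rw [show p = (p.1, p.2) from rfl, cert_iff]
  obtain ⟨e1⟩ := cn_iso p.1
  obtain ⟨e2⟩ := cn_iso p.2
  exact ⟨fun ⟨c⟩ => ⟨(e1.trans c).trans e2.symm⟩, fun ⟨c⟩ => ⟨(e1.symm.trans c).trans e2⟩⟩

end Pool.Agent.W382.Iso
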